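import Pool.Agent.Y843.CH.Top
import Pool.Agent.Y843.HG.GoldP
import Pool.Agent.Y843.QD.Gen

/-!
# Chen's theorem for vectors of shifts, with progressions
-/

set_option autoImplicit false

namespace Pool.Agent.Y843.CH

open Finset Filter
open Pool.Agent.Y843.HS (VV Pr Pr_mem Pr_prime)
open Pool.Agent.Y843.HG

open Classical in
/-- the good primes -/
noncomputable def GE (X Y : ℕ) (h : ℤ) (Om : ℕ → Finset ℕ) : Finset ℕ :=
  (SP Om X Y).filter (fun p => (X : ℝ) ^ (1 / 9 : ℝ) < p ∧ h ≠ 2 * p ∧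
    1 ≤ (h - p).natAbs.primeFactorsList.length ∧ (h - p).natAbs.primeFactorsList.length ≤ 2 ∧
    ∀ q : ℕ, q.Prime → q ∣ (h - p).natAbs → (X : ℝ) ^ (1 / 9 : ℝ) < q)

/-- the size of the prime factors -/
theorem fac_big (X : ℕ) (h : (2 : ℝ) ^ 18 ≤ X) :
    (X : ℝ) ^ (1 / 9 : ℝ) < ((Nat.sqrt X : ℕ) : ℝ) ^ (1 / 4 : ℝ) := by
  have hX1 : (1 : ℝ) ≤ X := le_trans (by norm_num) h
  have hX0 : (0 : ℝ) < X := by linarith
  have h1 : (2 : ℝ) ≤ (X : ℝ) ^ (1 / 18 : ℝ) := by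
    calc (2 : ℝ) = ((2 : ℝ) ^ (18 : ℕ)) ^ (1 / 18 : ℝ) := by
          rw [← Real.rpow_natCast, ← Real.rpow_mul (by norm_num)]
          norm_num
      _ ≤ _ := Real.rpow_le_rpow (by positivity) h (by norm_num)
  have h2 : (X : ℝ) ^ (1 / 2 : ℝ) = (X : ℝ) ^ (4 / 9 : ℝ) * (X : ℝ) ^ (1 / 18 : ℝ) := by
    rw [← Real.rpow_add hX0]
    norm_num
  have h3 : (1 : ℝ) ≤ (X : ℝ) ^ (4 / 9 : ℝ) := Real.one_le_rpow hX1 (by norm_num)
  have h4 : (X : ℝ) ^ (1 / 2 : ℝ) < (Nat.sqrt X : ℕ) + 1 := by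
    rw [← Real.sqrt_eq_rpow, Real.sqrt_lt' (by positivity)]
    exact_mod_cast Nat.lt_succ_sqrt' X
  have h5 : (X : ℝ) ^ (4 / 9 : ℝ) < (Nat.sqrt X : ℕ) := by nlinarith
  calc (X : ℝ) ^ (1 / 9 : ℝ) = ((X : ℝ) ^ (4 / 9 : ℝ)) ^ (1 / 4 : ℝ) := by
        rw [← Real.rpow_mul hX0.le]
        norm_num
    _ < _ := Real.rpow_lt_rpow (by positivity) h5 (by norm_num)

theorem gd_sub (X Y : ℕ) (h : ℤ) (Om : ℕ → Finset ℕ) (hX : (2 : ℝ) ^ 18 ≤ X) :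
    GD (Nat.sqrt X) X Y h Om ⊆ GE X Y h Om ∪ (Ioc 0 ⌊(X : ℝ) ^ (1 / 9 : ℝ)⌋₊ ∪
      {(h - 1).toNat, (h + 1).toNat, (h / 2).toNat}) := by
  classical
  intro p hp
  unfold GD at hp
  rw [mem_filter] at hp
  obtain ⟨h1, h2, h3, h4⟩ := hp
  have hpp : p.Prime := by
    unfold SP at h1
    exact (mem_filter.1 h1).2.1
  rw [mem_union, mem_union, mem_Ioc, mem_insert, mem_insert, mem_singleton]
  by_cases a1 : p ≤ ⌊(X : ℝ) ^ (1 / 9 : ℝ)⌋₊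
  · exact Or.inr (Or.inl ⟨hpp.pos, a1⟩)
  by_cases a2 : p = (h - 1).toNat
  · exact Or.inr (Or.inr (Or.inl a2))
  by_cases a3 : p = (h + 1).toNat
  · exact Or.inr (Or.inr (Or.inr (Or.inl a3)))
  by_cases a4 : p = (h / 2).toNat
  · exact Or.inr (Or.inr (Or.inr (Or.inr a4)))
  left
  unfold GE
  rw [mem_filter]
  have hp0 := hpp.two_le
  have hm : 2 ≤ (h - p).natAbs := by omega
  refine ⟨h1, ?_, by omega, ?_, h3, ?_⟩
  · rw [not_le] at a1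
    exact (Nat.floor_lt (by positivity)).1 a1
  · rw [Nat.one_le_iff_ne_zero]
    intro h5
    have h6 := List.length_eq_zero_iff.1 h5
    rw [Nat.primeFactorsList_eq_nil] at h6
    omega
  · intro q hq hqd
    exact lt_of_lt_of_le (fac_big X hX) (h4 q hq hqd)

theorem ge_count (r : ℕ) : ∃ t : ℕ, 9 ≤ t ∧ ∃ c : ℝ, 0 < c ∧ ∃ X₀ : ℕ, ∀ X : ℕ, X₀ ≤ X → ∀ h : ℤ, h ≠ 0 →
      h.natAbs ≤ X → ∀ Om : ℕ → Finset ℕ, Dat r ⌊(X : ℝ) ^ (1 / (t : ℝ))⌋₊ h Om →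
      c * X * VV (Z0 Om) 0 ⌊(X : ℝ) ^ (1 / (t : ℝ))⌋₊ ≤
        ((GE X ⌊(X : ℝ) ^ (1 / (t : ℝ))⌋₊ h Om).card : ℝ) := by
  classical
  obtain ⟨t, ht, c, hc, X₁, hch⟩ := chen' r
  obtain ⟨cV, hcV, hV⟩ := VV_low (r + 1)
  obtain ⟨X₂, hX₂⟩ := Pool.Agent.Y843.HS.log_pow_le (2 * (2 * (r + 1))) ((8 / (c * cV)) ^ 2)
  have ht0 : (0 : ℝ) < t := by exact_mod_cast (show 0 < t by omega)
  refine ⟨t, by omega, c / 2, by positivity,
    max (max X₁ X₂) (max (2 ^ 18) ((2 * (r + 1) + 3) ^ t)), ?_⟩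
  intro X hX h hh hhX Om D
  have hXX1 : X₁ ≤ X := ((le_max_left _ _).trans (le_max_left _ _)).trans hX
  have hXX2 : X₂ ≤ X := ((le_max_right _ _).trans (le_max_left _ _)).trans hX
  have hXX3 : 2 ^ 18 ≤ X := ((le_max_left _ _).trans (le_max_right _ _)).trans hX
  have hXX4 : (2 * (r + 1) + 3) ^ t ≤ X := ((le_max_right _ _).trans (le_max_right _ _)).trans hX
  have hXr : (2 : ℝ) ^ 18 ≤ X := by exact_mod_cast hXX3
  have hX1 : (1 : ℝ) < X := lt_of_lt_of_le (by norm_num) hXr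
  have h1 := hch X hXX1 h hh hhX Om D
  set w := (X : ℝ) ^ (1 / (t : ℝ)) with hw
  set Y := ⌊w⌋₊ with hY
  have hw1 : ((2 * (r + 1) + 3 : ℕ) : ℝ) ≤ w := by
    have h2 : (((2 * (r + 1) + 3 : ℕ) : ℝ) ^ t) ≤ X := by exact_mod_cast hXX4
    calc ((2 * (r + 1) + 3 : ℕ) : ℝ) = (((2 * (r + 1) + 3 : ℕ) : ℝ) ^ t) ^ (1 / (t : ℝ)) := by
          rw [← Real.rpow_natCast, ← Real.rpow_mul (Nat.cast_nonneg _), mul_one_div, div_self ht0.ne',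
            Real.rpow_one]
      _ ≤ w := Real.rpow_le_rpow (by positivity) h2 (by positivity)
  have hYr : 2 * (r + 1) + 3 ≤ Y := Nat.le_floor hw1
  have hwX : w ≤ X := by
    calc w ≤ (X : ℝ) ^ (1 : ℝ) := by
          apply Real.rpow_le_rpow_of_exponent_le hX1.le
          rw [div_le_one ht0]
          exact_mod_cast (show 1 ≤ t by omega)
      _ = X := Real.rpow_one _
  have hYX : (Y : ℝ) ≤ X := (Nat.floor_le (by positivity)).trans hwX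
  have hlY : 0 < Real.log Y := Real.log_pos (by exact_mod_cast (show 1 < Y by omega))
  have hlYX : Real.log Y ≤ Real.log X := Real.log_le_log (by exact_mod_cast (show 0 < Y by omega)) hYX
  have hlX : 0 < Real.log X := by linarith
  have hVl := hV Y hYr (Z0 Om) (by
    intro p hp
    refine ⟨?_, ?_, D.adm.lt hp⟩
    · rw [D.adm.card hp]
      have := (D.adm p hp).1
      omega
    · rw [D.adm.card hp]
      exact (D.adm p hp).2.1)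
  have hVX : cV / Real.log X ^ (2 * (r + 1)) ≤ VV (Z0 Om) 0 Y := by
    refine le_trans ?_ hVl
    apply div_le_div_of_nonneg_left hcV.le (by positivity)
    exact pow_le_pow_left₀ hlY.le hlYX _
  -- the error
  have h2 : ((GD (Nat.sqrt X) X Y h Om).card : ℝ) ≤ (GE X Y h Om).card + (X : ℝ) ^ (1 / 9 : ℝ) + 3 := by
    have h3 := (card_le_card (gd_sub X Y h Om hXr)).trans (card_union_le _ _)
    have h4 := card_union_le (Ioc 0 ⌊(X : ℝ) ^ (1 / 9 : ℝ)⌋₊)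
      ({(h - 1).toNat, (h + 1).toNat, (h / 2).toNat} : Finset ℕ)
    have h5 : ({(h - 1).toNat, (h + 1).toNat, (h / 2).toNat} : Finset ℕ).card ≤ 3 := card_le_three
    rw [Nat.card_Ioc] at h4
    have h6 : (GD (Nat.sqrt X) X Y h Om).card ≤ (GE X Y h Om).card + ⌊(X : ℝ) ^ (1 / 9 : ℝ)⌋₊ + 3 := by
      omega
    have h7 : ((⌊(X : ℝ) ^ (1 / 9 : ℝ)⌋₊ : ℕ) : ℝ) ≤ (X : ℝ) ^ (1 / 9 : ℝ) := Nat.floor_le (by positivity)
    have h8 : ((GD (Nat.sqrt X) X Y h Om).card : ℝ) ≤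
        (GE X Y h Om).card + (⌊(X : ℝ) ^ (1 / 9 : ℝ)⌋₊ : ℕ) + 3 := by exact_mod_cast h6
    linarith
  have h3 : (X : ℝ) ^ (1 / 9 : ℝ) ≤ (X : ℝ) ^ (1 / 2 : ℝ) :=
    Real.rpow_le_rpow_of_exponent_le hX1.le (by norm_num)
  have h4 : (1 : ℝ) ≤ (X : ℝ) ^ (1 / 2 : ℝ) := Real.one_le_rpow hX1.le (by norm_num)
  have h5 : 8 / (c * cV) * Real.log X ^ (2 * (r + 1)) ≤ (X : ℝ) ^ (1 / 2 : ℝ) := by
    rw [← Real.sqrt_eq_rpow]
    apply Real.le_sqrt_of_sq_le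
    refine le_trans (le_of_eq ?_) (hX₂ X hXX2)
    rw [mul_pow, ← pow_mul, mul_comm (2 * (r + 1)) 2]
  have h6 : (X : ℝ) ^ (1 / 2 : ℝ) * (X : ℝ) ^ (1 / 2 : ℝ) = X := by
    rw [← Real.rpow_add (by linarith)]
    norm_num
  have h7 : 4 * (X : ℝ) ^ (1 / 2 : ℝ) ≤ c / 2 * X * VV (Z0 Om) 0 Y := by
    have h8 : c / 2 * X * (cV / Real.log X ^ (2 * (r + 1))) ≤ c / 2 * X * VV (Z0 Om) 0 Y :=
      mul_le_mul_of_nonneg_left hVX (by positivity)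
    refine le_trans ?_ h8
    rw [← mul_div_assoc, le_div_iff₀ (by positivity)]
    have h9 : 4 * (X : ℝ) ^ (1 / 2 : ℝ) * Real.log X ^ (2 * (r + 1)) =
        (c * cV / 2) * ((X : ℝ) ^ (1 / 2 : ℝ) * (8 / (c * cV) * Real.log X ^ (2 * (r + 1)))) := by
      field_simp
      ring
    rw [h9]
    calc (c * cV / 2) * ((X : ℝ) ^ (1 / 2 : ℝ) * (8 / (c * cV) * Real.log X ^ (2 * (r + 1))))
        ≤ (c * cV / 2) * ((X : ℝ) ^ (1 / 2 : ℝ) * (X : ℝ) ^ (1 / 2 : ℝ)) := by gcongr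
      _ = c / 2 * X * cV := by
          rw [h6]
          ring
  have h8 : c * X * VV (Z0 Om) 0 Y = c / 2 * X * VV (Z0 Om) 0 Y + c / 2 * X * VV (Z0 Om) 0 Y := by ring
  linarith

end Pool.Agent.Y843.CH
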