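import Pool.Agent.Y843.CH.Vec
import Pool.Agent.Y843.HG.VLow

/-!
# The singular series for one even number
-/

set_option autoImplicit false

namespace Pool.Agent.Y843.CH

open Finset Filter
open Pool.Agent.Y843.HS (VV Pr Pr_mem Pr_prime)
open Pool.Agent.Y843.HG

theorem vcls_card0 (h : ℤ) (a : Fin 0 → ℤ) {q : ℕ} (hq : 0 < q) :
    (vcls h a q).card = (ZG h.natAbs q).card := by
  classical
  rw [card_ZG]
  have h1 : vcls h a q = {0, hr h q} := by
    ext c
    unfold vcls
    rw [mem_filter, mem_range, mem_insert, mem_singleton]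
    constructor
    · rintro ⟨h1, h2 | h2 | ⟨j, _⟩⟩
      · exact Or.inl h2
      · right
        have h3 : hr (c : ℤ) q = hr h q := (hr_eq_iff _ _ hq).2 ((Int.modEq_iff_dvd).2 h2)
        rwa [hr_nat c hq, Nat.mod_eq_of_lt h1] at h3
      · exact j.elim0
    · rintro (h1 | h1)
      · exact ⟨h1 ▸ hq, Or.inl h1⟩
      · refine ⟨h1 ▸ hr_lt h hq, Or.inr (Or.inl ?_)⟩
        rw [h1, hr_cast h hq]
        exact Int.dvd_self_sub_emod
  rw [h1]
  split_ifs with h2
  · have h3 : hr h q = 0 := (hr_zero_iff h hq).2 (Int.natCast_dvd.2 h2)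
    rw [h3]
    simp
  · rw [card_insert_of_notMem, card_singleton]
    rw [mem_singleton]
    intro h0
    exact h2 (Int.natCast_dvd.1 ((hr_zero_iff h hq).1 h0.symm))

/-- the order of the sieve product, lower bound, uniformly -/
theorem V_even (r : ℕ) (hr : 1 ≤ r) : ∃ c : ℝ, 0 < c ∧ ∃ X₀ : ℕ, ∀ X : ℕ, X₀ ≤ X → ∀ h : ℤ, h ≠ 0 →
    Even h → h.natAbs ≤ X → ∀ a : Fin 0 → ℤ,
    c * (h.natAbs / (h.natAbs.totient * Real.log X ^ 2)) ≤ VV (vcls h a) 0 ⌊(X : ℝ) ^ (1 / (r : ℝ))⌋₊ := by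
  have hr0 : (0 : ℝ) < r := by exact_mod_cast hr
  obtain ⟨c, C, hc, hC, hV⟩ := V1_bounds
  obtain ⟨n₀, h0⟩ := log_floor r hr
  have h2 := (isLittleO_log_rpow_atTop (show (0 : ℝ) < 1 / r by positivity)).bound
    (show (0 : ℝ) < 1 / 8 by norm_num)
  have h3 := (tendsto_rpow_atTop (show (0 : ℝ) < 1 / r by positivity)).eventually
    (eventually_ge_atTop (2 : ℝ))
  have h4 := (tendsto_natCast_atTop_atTop (R := ℝ)).eventually (h2.and h3)
  rw [eventually_atTop] at h4
  obtain ⟨n₁, h5⟩ := h4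
  refine ⟨c ^ 2 / 4, by positivity, max (max n₀ n₁) 2, ?_⟩
  intro X hX h hh hhe hhX a
  obtain ⟨n, hnd⟩ : ∃ n, n = h.natAbs := ⟨_, rfl⟩
  have hn0 : n ≠ 0 := by rw [hnd]; exact Int.natAbs_ne_zero.2 hh
  have hnX : n ≤ X := by rw [hnd]; exact hhX
  have hne : Even n := by rw [hnd]; exact Int.natAbs_even.2 hhe
  have eV : VV (vcls h a) 0 ⌊(X : ℝ) ^ (1 / (r : ℝ))⌋₊ = VV (ZG n) 0 ⌊(X : ℝ) ^ (1 / (r : ℝ))⌋₊ := by
    unfold VV
    apply prod_congr rfl
    intro q hq
    rw [vcls_card0 h a (Pr_prime hq).pos, hnd]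
  rw [eV, ← hnd]
  obtain ⟨h1, h2'⟩ := h0 X ((le_max_left _ _).trans ((le_max_left _ _).trans hX))
  obtain ⟨h6, h7⟩ := h5 X ((le_max_right _ _).trans ((le_max_left _ _).trans hX))
  have hX2 : 2 ≤ X := (le_max_right _ _).trans hX
  have hXr : (0 : ℝ) < X := by exact_mod_cast (show 0 < X by omega)
  have hX1 : (1 : ℝ) ≤ X := by exact_mod_cast (show 1 ≤ X by omega)
  have hnr : (0 : ℝ) < n := by exact_mod_cast (show 0 < n by omega)
  have hnXr : (n : ℝ) ≤ X := by exact_mod_cast hnX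
  have hl : 0 < Real.log X := Real.log_pos (by exact_mod_cast (show 1 < X by omega))
  have hφ0 : (0 : ℝ) < n.totient := by exact_mod_cast Nat.totient_pos.2 (show 0 < n by omega)
  set w := (X : ℝ) ^ (1 / (r : ℝ)) with hw
  rw [Real.norm_of_nonneg hl.le, Real.norm_of_nonneg (by positivity)] at h6
  have hwY := Nat.lt_floor_add_one w
  have hlog2 : 2 * Nat.log 2 n ≤ ⌊w⌋₊ := by
    apply Nat.le_floor
    push_cast
    have a1 : (Nat.log 2 n : ℝ) ≤ Real.log X / Real.log 2 := by
      rw [le_div_iff₀ (Real.log_pos (by norm_num))]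
      have a2 : (2 : ℝ) ^ Nat.log 2 n ≤ X := by
        have : (2 : ℕ) ^ Nat.log 2 n ≤ X := (Nat.pow_log_le_self 2 (by omega)).trans hnX
        exact_mod_cast this
      have a3 := Real.log_le_log (by positivity) a2
      rwa [Real.log_pow] at a3
    have a2 : Real.log X / Real.log 2 ≤ 2 * Real.log X := by
      rw [div_le_iff₀ (Real.log_pos (by norm_num))]
      have := Real.log_two_gt_d9
      nlinarith
    linarith
  have h8 := VV_ZG_ge n ⌊w⌋₊ hne (by omega) hlog2 (by omega)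
  have h9 := (hV _ h1).1
  have h10 : c / Real.log X ≤ V1 ⌊w⌋₊ := by
    refine le_trans ?_ h9
    have hpos : 0 < Real.log (⌊w⌋₊ : ℕ) := Real.log_pos (by exact_mod_cast (show 1 < ⌊w⌋₊ by omega))
    apply div_le_div_of_nonneg_left hc.le hpos
    apply Real.log_le_log (by exact_mod_cast (show 0 < ⌊w⌋₊ by omega))
    have : w ≤ X := by
      calc w ≤ (X : ℝ) ^ (1 : ℝ) := by
            apply Real.rpow_le_rpow_of_exponent_le hX1
            rw [div_le_one hr0]
            exact_mod_cast hr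
        _ = X := Real.rpow_one _
    exact (Nat.floor_le (by positivity)).trans this
  have h11 := pow_le_pow_left₀ (by positivity) h10 2
  have h12 : (c / Real.log X) ^ 2 / 4 * (n / n.totient) ≤
      VV (ZG n) 0 ⌊w⌋₊ * (n.totient / n) * (n / n.totient) := by
    apply mul_le_mul_of_nonneg_right _ (by positivity)
    linarith
  have e1 : VV (ZG n) 0 ⌊w⌋₊ * (n.totient / n) * (n / n.totient) = VV (ZG n) 0 ⌊w⌋₊ := by
    field_simp
  rw [e1] at h12
  refine le_trans (le_of_eq ?_) h12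
  rw [div_pow]
  field_simp

theorem Psb0 (h : ℤ) (he : Even h) (a : Fin 0 → ℤ) : Psb h a := by
  intro q hq
  rcases hq.eq_two_or_odd' with h2 | h2
  · subst h2
    refine ⟨1, by norm_num, ?_, fun j => j.elim0⟩
    intro h3
    obtain ⟨m, hm⟩ := he
    push_cast at h3
    omega
  · by_cases h3 : (q : ℤ) ∣ h - 1
    · refine ⟨2, ?_, ?_, fun j => j.elim0⟩
      · intro h4
        have := Nat.le_of_dvd (by norm_num) h4
        have h5 := hq.two_le
        have h6 : q = 2 := by omega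
        rw [h6] at h2
        exact absurd h2 (by decide)
      · intro h4
        have h5 : (q : ℤ) ∣ 1 := by
          have := dvd_sub h3 h4
          have e : h - 1 - (h - ((2 : ℕ) : ℤ)) = 1 := by push_cast; ring
          rwa [e] at this
        have h6 : q ∣ 1 := by exact_mod_cast h5
        exact hq.one_lt.ne' (Nat.dvd_one.1 h6)
    · refine ⟨1, ?_, ?_, fun j => j.elim0⟩
      · intro h4
        exact hq.one_lt.ne' (Nat.dvd_one.1 h4)
      · intro h4
        apply h3
        simpa using h4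

end Pool.Agent.Y843.CH
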