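import Pool.Agent.Y843.CH.Err

/-!
# The error terms of the two sieve problems
-/

set_option autoImplicit false

namespace Pool.Agent.Y843.CH

open Finset Filter Pool.Agent.W23.DC Pool.Agent.Y660.RP
open Pool.Agent.Y843.HS (Pr Pr_mem Pr_prime)
open Pool.Agent.Y843.QD (vZ dvd_vZ)
open Pool.Agent.TH423.SH.PSUa (ee FF Rd FF_le_ee ee_nonneg)

/-- the hypotheses on the classes -/
structure Cl (κ z N : ℕ) (cl : ℕ → Finset ℕ) : Prop where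
  card : ∀ p ∈ Pr z N, (cl p).card ≤ κ
  lt : ∀ p ∈ Pr z N, ∀ c ∈ cl p, c < p ∧ c ≠ 0

/-- the primes `N < p ≤ X` -/
def PNX (N X : ℕ) : Finset ℕ := (Ioc N X).filter Nat.Prime

theorem level_le {N X : ℕ} (h : N ^ 2 ≤ X) :
    (N : ℝ) ^ (999 / 1000 : ℝ) ≤ (X : ℝ) ^ (4995 / 10000 : ℝ) := by
  have h1 : ((N : ℝ) ^ (2 : ℕ)) ≤ X := by exact_mod_cast h
  calc (N : ℝ) ^ (999 / 1000 : ℝ) = ((N : ℝ) ^ (2 : ℕ)) ^ (4995 / 10000 : ℝ) := by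
        rw [← Real.rpow_natCast, ← Real.rpow_mul (Nat.cast_nonneg _)]
        norm_num
    _ ≤ (X : ℝ) ^ (4995 / 10000 : ℝ) := Real.rpow_le_rpow (by positivity) h1 (by norm_num)

theorem level_le' {N : ℕ} (h : 1 ≤ N) : (N : ℝ) ^ (999 / 1000 : ℝ) ≤ N := by
  calc (N : ℝ) ^ (999 / 1000 : ℝ) ≤ (N : ℝ) ^ (1 : ℝ) :=
        Real.rpow_le_rpow_of_exponent_le (by exact_mod_cast h) (by norm_num)
    _ = N := Real.rpow_one _

theorem card_PNX {N X : ℕ} (h : N ≤ X) (q c : ℕ) :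
    (((PNX N X).filter (fun p => p ≡ c [MOD q])).card : ℝ) = H343E.piAP X q c - H343E.piAP N q c := by
  classical
  unfold H343E.piAP PNX
  rw [eq_sub_iff_add_eq, filter_filter, ← Nat.cast_add]
  congr 1
  rw [← card_union_of_disjoint]
  · congr 1
    ext p
    simp only [mem_union, mem_filter, mem_Ioc, mem_Icc]
    constructor
    · rintro (⟨⟨h1, h2⟩, h3, h4⟩ | ⟨⟨h1, h2⟩, h3, h4⟩)
      · exact ⟨⟨h3.one_lt.le, h2⟩, h3, h4⟩
      · exact ⟨⟨h1, by omega⟩, h3, h4⟩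
    · rintro ⟨⟨h1, h2⟩, h3, h4⟩
      rcases Nat.lt_or_ge N p with h5 | h5
      · exact Or.inl ⟨⟨h5, h2⟩, h3, h4⟩
      · exact Or.inr ⟨⟨h1, h5⟩, h3, h4⟩
  · rw [disjoint_left]
    intro p hp hp'
    rw [mem_filter, mem_Ioc] at hp
    rw [mem_filter, mem_Icc] at hp'
    omega

theorem card_PNX' {N X : ℕ} (h : N ≤ X) : ((PNX N X).card : ℝ) = H343E.pi1 X - H343E.pi1 N := by
  have h1 := card_PNX h 1 0
  unfold H343E.piAP at h1
  unfold H343E.pi1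
  simpa [Nat.modEq_one] using h1

open Classical in
theorem aer (hB : St_BVW) (m₀ κ U : ℕ) (hκ : 1 ≤ κ) (hm₀ : Squarefree m₀) : ∃ X₀ : ℕ, ∀ X : ℕ, X₀ ≤ X →
    ∀ N : ℕ, 1 ≤ N → N ^ 2 ≤ X → ∀ (z a : ℕ) (cl : ℕ → Finset ℕ), Cl κ z N cl → a.Coprime m₀ →
    (∀ p ∈ Pr z N, ¬ p ∣ m₀) →
    ∑ d ∈ Lv' z ((N : ℝ) ^ (999 / 1000 : ℝ)), Rr ((PNX N X).filter (fun p => p ≡ a [MOD m₀]))
      (fun p => vZ cl z N p) (gC cl) ((PNX N X).card / (Nat.totient m₀ : ℝ)) d ≤ X / Real.log X ^ U := by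
  obtain ⟨X₀, hX₀⟩ := hB m₀ κ (U + 1) hκ
  obtain ⟨X₁, hX₁⟩ := Pool.Agent.Y660.RP.ev_log 2
  refine ⟨max X₀ X₁, ?_⟩
  intro X hX N hN hNX z a cl hcl ha hcop
  have h0 : 0 < m₀ := Nat.pos_of_ne_zero hm₀.ne_zero
  have hNX' : N ≤ X := le_trans (by nlinarith) hNX
  have hlog : 2 < Real.log X := hX₁ X ((le_max_right _ _).trans hX)
  have h1 := rr_sum (PNX N X) (fun p => p) κ z N m₀ a hκ cl hcl.card hcl.lt h0 hm₀ ha hcop
    ((PNX N X).card : ℝ) (fun d => ee X d + ee N d) (fun d => add_nonneg (ee_nonneg _ _) (ee_nonneg _ _))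
    ((N : ℝ) ^ (999 / 1000 : ℝ)) (by positivity) (level_le' hN) (by
      intro d hd1 hd hds c hc hcd
      rw [card_PNX hNX', card_PNX' hNX']
      have e1 := FF_le_ee X d c hc hcd
      have e2 := FF_le_ee N d c hc hcd
      unfold FF at e1 e2
      calc |H343E.piAP X d c - H343E.piAP N d c - (H343E.pi1 X - H343E.pi1 N) / (Nat.totient d : ℝ)|
          = |(H343E.piAP X d c - H343E.pi1 X / (Nat.totient d : ℝ)) -
            (H343E.piAP N d c - H343E.pi1 N / (Nat.totient d : ℝ))| := by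
            congr 1
            ring
        _ ≤ _ := abs_sub _ _
        _ ≤ _ := add_le_add e1 e2)
  refine h1.trans ?_
  have hQ : ((⌊m₀ * (N : ℝ) ^ (999 / 1000 : ℝ)⌋₊ : ℕ) : ℝ) ≤ m₀ * (X : ℝ) ^ (4995 / 10000 : ℝ) := by
    refine (Nat.floor_le (by positivity)).trans ?_
    exact mul_le_mul_of_nonneg_left (level_le hNX) (Nat.cast_nonneg _)
  have hX00 : X₀ ≤ X := (le_max_left _ _).trans hX
  have h2 := hX₀ X hX00 X le_rfl _ hQ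
  have h3 := hX₀ X hX00 N hNX' _ hQ
  have h4 : ∑ d ∈ (Icc 1 ⌊m₀ * (N : ℝ) ^ (999 / 1000 : ℝ)⌋₊).filter Squarefree,
      (κ : ℝ) ^ d.primeFactors.card * (ee X d + ee N d) ≤
      ∑ d ∈ Icc 1 ⌊m₀ * (N : ℝ) ^ (999 / 1000 : ℝ)⌋₊, (κ : ℝ) ^ d.primeFactors.card * (ee X d + ee N d) := by
    apply sum_le_sum_of_subset_of_nonneg (filter_subset _ _)
    intro d _ _
    have e1 := ee_nonneg X d
    have e2 := ee_nonneg N d
    positivity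
  refine h4.trans ?_
  simp only [mul_add, sum_add_distrib]
  have h5 : (X : ℝ) / Real.log X ^ (U + 1) + X / Real.log X ^ (U + 1) ≤ X / Real.log X ^ U := by
    rw [← add_div, pow_succ, div_le_div_iff₀ (by positivity) (by positivity)]
    have h6 : 0 < Real.log X ^ U := by positivity
    have h7 : (0 : ℝ) ≤ X := Nat.cast_nonneg _
    have h8 : (0 : ℝ) ≤ X * Real.log X ^ U := by positivity
    nlinarith
  linarith

/-- the products -/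
def MN (M₀ M₁ : ℕ) (T : Finset ℕ) : Finset (ℕ × ℕ) := ((Ioc M₀ M₁).filter Nat.Prime) ×ˢ T

open Classical in
theorem ter (hB : St_BLV) (m₀ κ U : ℕ) (hκ : 1 ≤ κ) (hm₀ : Squarefree m₀) : ∃ X₀ : ℕ, ∀ X : ℕ, X₀ ≤ X →
    ∀ N : ℕ, 1 ≤ N → N ^ 2 ≤ X → ∀ (z a : ℕ) (cl : ℕ → Finset ℕ), Cl κ z N cl → a.Coprime m₀ →
    (∀ p ∈ Pr z N, ¬ p ∣ m₀) → ∀ M₀ M₁ Y : ℕ,
    (X : ℝ) ^ (1 / 9 : ℝ) ≤ M₀ → M₀ ≤ M₁ → (M₁ : ℝ) ≤ (X : ℝ) ^ (2 / 5 : ℝ) → M₁ * Y ≤ 5 * X →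
    ∀ T : Finset ℕ, (∀ n ∈ T, 1 ≤ n ∧ n ≤ Y ∧ ∀ p ∈ n.primeFactors, (X : ℝ) ^ (1 / 9 : ℝ) ≤ (p : ℝ)) →
    ∑ d ∈ Lv' z ((N : ℝ) ^ (999 / 1000 : ℝ)), Rr ((MN M₀ M₁ T).filter (fun x => x.1 * x.2 ≡ a [MOD m₀]))
      (fun x => vZ cl z N (x.1 * x.2)) (gC cl)
      ((((Ioc M₀ M₁).filter Nat.Prime).card * T.card : ℝ) / (Nat.totient m₀ : ℝ)) d ≤ X / Real.log X ^ U := by
  have h0 : 0 < m₀ := Nat.pos_of_ne_zero hm₀.ne_zero
  obtain ⟨X₀, hX₀⟩ := hB m₀ κ U h0 hκ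
  refine ⟨X₀, ?_⟩
  intro X hX N hN hNX z a cl hcl ha hcop M₀ M₁ Y hM0 hM01 hM1 hMY T hT
  set F : ℕ → ℕ → ℝ := fun d c => |((((MN M₀ M₁ T)).filter (fun x => x.1 * x.2 ≡ c [MOD d])).card : ℝ) -
    ((((Ioc M₀ M₁).filter Nat.Prime).card * T.card : ℝ)) / (Nat.totient d : ℝ)| with hF
  have hex : ∀ d : ℕ, 1 ≤ d → ∃ c ∈ Rd d, ∀ b ∈ Rd d, F d b ≤ F d c := by
    intro d hd
    apply exists_max_image
    rcases Nat.lt_or_ge 1 d with h | h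
    · refine ⟨1, ?_⟩
      unfold Rd
      rw [mem_filter, mem_range]
      exact ⟨h, Nat.coprime_one_left d⟩
    · refine ⟨0, ?_⟩
      have : d = 1 := by omega
      subst this
      unfold Rd
      simp
  set r : ℕ → ℕ := fun d => if h : 1 ≤ d then (hex d h).choose else 0 with hr
  have hr1 : ∀ d, 1 ≤ d → r d ∈ Rd d ∧ ∀ b ∈ Rd d, F d b ≤ F d (r d) := by
    intro d hd
    rw [hr]
    simp only [dif_pos hd]
    exact (hex d hd).choose_spec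
  have h1 := rr_sum (MN M₀ M₁ T) (fun x => x.1 * x.2) κ z N m₀ a hκ cl hcl.card hcl.lt h0 hm₀ ha hcop
    ((((Ioc M₀ M₁).filter Nat.Prime).card * T.card : ℝ)) (fun d => F d (r d)) (fun d => abs_nonneg _)
    ((N : ℝ) ^ (999 / 1000 : ℝ)) (by positivity) (level_le' hN) (by
      intro d hd1 hd hds c hc hcd
      exact (hr1 d hd1).2 c (by
        unfold Rd
        rw [mem_filter, mem_range]
        exact ⟨hc, hcd⟩))
  refine h1.trans ?_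
  refine le_trans ?_ (hX₀ X hX M₀ M₁ Y hM0 hM01 hM1 hMY T hT r)
  apply sum_le_sum_of_subset_of_nonneg
  · intro d hd
    rw [mem_filter, mem_Icc] at hd ⊢
    refine ⟨⟨hd.1.1, hd.1.2.trans ?_⟩, hd.2, ?_⟩
    · apply Nat.floor_le_floor
      exact mul_le_mul_of_nonneg_left (level_le hNX) (Nat.cast_nonneg _)
    · have := (hr1 d hd.1.1).1
      unfold Rd at this
      rw [mem_filter] at this
      exact this.2
  · intro d _ _
    positivity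

end Pool.Agent.Y843.CH
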