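import Pool.Agent.Y843.CH.Fin1
import Pool.Agent.Helper923.PNT

/-!
# Asymptotic facts for the final assembly
-/

set_option autoImplicit false

namespace Pool.Agent.Y843.CH

open Finset Filter Pool.Agent.W23.DC Pool.Agent.Y660.RP
open Pool.Agent.Y843.HS (Pr VV Pr_mem Pr_prime VV_split)
open Pool.Agent.Y843.HG (Adm Z0 SP V1 V1_bounds log_floor)

theorem pi1_eq (n : ℕ) : H343E.pi1 n = Nat.primeCounting n := by
  unfold H343E.pi1
  rw [Nat.primeCounting, Nat.primeCounting', Nat.count_eq_card_filter_range]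
  congr 2
  ext p
  rw [mem_filter, mem_filter, mem_Icc, mem_range]
  constructor
  · rintro ⟨⟨h1, h2⟩, h3⟩
    exact ⟨by omega, h3⟩
  · rintro ⟨h1, h3⟩
    exact ⟨⟨h3.one_lt.le, by omega⟩, h3⟩

theorem log_sq {N X : ℕ} (hN : 4 ≤ N) (h1 : N ^ 2 ≤ X) (h2 : X < (N + 1) ^ 2) :
    2 * Real.log N ≤ Real.log X ∧ Real.log X ≤ 2 * Real.log N + 1 := by
  have hN0 : (0 : ℝ) < N := by exact_mod_cast (by omega : 0 < N)
  have hX0 : (0 : ℝ) < X := by
    have : 0 < X := lt_of_lt_of_le (by positivity) h1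
    exact_mod_cast this
  have e1 : (N : ℝ) ^ 2 ≤ X := by exact_mod_cast h1
  have e2 : (X : ℝ) ≤ 2 * (N : ℝ) ^ 2 := by
    have : X ≤ 2 * N ^ 2 := by nlinarith
    exact_mod_cast this
  constructor
  · have := Real.log_le_log (by positivity) e1
    rw [Real.log_pow] at this
    exact_mod_cast this
  · have h3 := Real.log_le_log hX0 e2
    rw [Real.log_mul (by norm_num) (by positivity), Real.log_pow] at h3
    have h4 := Real.log_two_lt_d9
    push_cast at h3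
    linarith

theorem pnt_sq : ∃ N₀ : ℕ, ∀ N : ℕ, N₀ ≤ N → ∀ X : ℕ, N ^ 2 ≤ X → X < (N + 1) ^ 2 →
    4995 / 10000 * (X / Real.log N) ≤ ((PNX N X).card : ℝ) ∧ ((PNX N X).card : ℝ) ≤ X / Real.log N := by
  obtain ⟨A, hA⟩ := Metric.tendsto_atTop.1 Pool.Agent.Helper923.PNT.pi_tendsto (1 / 10000) (by norm_num)
  obtain ⟨N₁, hN₁⟩ := ev_log 10000
  have hlin := (Real.isLittleO_log_id_atTop).bound (show (0 : ℝ) < 1 / 10000 by norm_num)
  obtain ⟨N₂, hN₂⟩ := eventually_atTop.1 ((tendsto_natCast_atTop_atTop (R := ℝ)).eventually hlin)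
  refine ⟨max (max N₁ N₂) (max 4 (⌈A⌉₊ + 1)), ?_⟩
  intro N hN X h1 h2
  have hNN₁ : N₁ ≤ N := ((le_max_left _ _).trans (le_max_left _ _)).trans hN
  have hNN₂ : N₂ ≤ N := ((le_max_right _ _).trans (le_max_left _ _)).trans hN
  have hN4 : 4 ≤ N := ((le_max_left _ _).trans (le_max_right _ _)).trans hN
  have hNA : ⌈A⌉₊ + 1 ≤ N := ((le_max_right _ _).trans (le_max_right _ _)).trans hN
  have hL := hN₁ N hNN₁
  have hL2 := hN₂ N hNN₂
  obtain ⟨g1, g2⟩ := log_sq hN4 h1 h2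
  have hN0 : (0 : ℝ) < N := by exact_mod_cast (by omega : 0 < N)
  have hNX : (N : ℝ) ^ 2 ≤ X := by exact_mod_cast h1
  have hNX' : N ≤ X := le_trans (by nlinarith) h1
  have hX0 : (0 : ℝ) < X := by
    have : 0 < X := by omega
    exact_mod_cast this
  have hAX : A ≤ X := by
    have e1 : A ≤ ⌈A⌉₊ := Nat.le_ceil A
    have e2 : ((⌈A⌉₊ : ℕ) : ℝ) ≤ X := by exact_mod_cast (by omega : ⌈A⌉₊ ≤ X)
    linarith
  have h3 := hA X hAX
  rw [Nat.floor_natCast, Real.dist_eq, abs_lt] at h3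
  set L := Real.log N with hLd
  have hlX : 0 < Real.log X := by linarith
  rw [card_PNX' hNX', pi1_eq, pi1_eq]
  simp only [id] at hL2
  rw [Real.norm_of_nonneg (by linarith), Real.norm_of_nonneg hN0.le] at hL2
  set π := (Nat.primeCounting X : ℝ) with hπ
  have e3 : (1 - 1 / 10000) * X ≤ π * Real.log X := by
    have h4 : 1 - 1 / 10000 ≤ π * Real.log X / X := by linarith [h3.1]
    rwa [le_div_iff₀ hX0] at h4
  have e4 : π * Real.log X ≤ (1 + 1 / 10000) * X := by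
    have h4 : π * Real.log X / X ≤ 1 + 1 / 10000 := by linarith [h3.2]
    rwa [div_le_iff₀ hX0] at h4
  have hπ0 : 0 ≤ π := Nat.cast_nonneg _
  have hL0 : 0 < L := by linarith
  have hpN : (Nat.primeCounting N : ℝ) ≤ N := by
    rw [← pi1_eq]
    unfold H343E.pi1
    have := card_filter_le (Icc 1 N) (fun p => p.Prime)
    rw [Nat.card_Icc, Nat.add_sub_cancel] at this
    exact_mod_cast this
  have hpN0 : (0 : ℝ) ≤ (Nat.primeCounting N : ℝ) := Nat.cast_nonneg _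
  constructor
  · rw [mul_div_assoc', div_le_iff₀ hL0]
    have e5 : π * Real.log X ≤ π * (2 * L + 1) := mul_le_mul_of_nonneg_left g2 hπ0
    have e6 : π * 1 ≤ π * (L / 10000) := mul_le_mul_of_nonneg_left (by linarith) hπ0
    have e7 : (Nat.primeCounting N : ℝ) * L ≤ N * (1 / 10000 * N) :=
      mul_le_mul hpN hL2 hL0.le hN0.le
    nlinarith
  · rw [le_div_iff₀ hL0]
    have e5 : π * (2 * L) ≤ π * Real.log X := mul_le_mul_of_nonneg_left g1 hπ0
    nlinarith

theorem arith_final {ε V φ A0 LB W P M G T B EA ET : ℝ} (hε : 0 < ε) (hV : 0 ≤ V) (hφ : 0 < φ)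
    (hA0 : 0 < A0) (hLB : 197 / 1000 ≤ LB) (hW : 0 ≤ W) (hP : 4995 / 10000 * W ≤ P)
    (hP2 : P ≤ W) (hM : M ≤ 196 / 1000 * W)
    (h1 : ε * (P / φ * V) * (A0 * (1000 / 998 * LB) - A0 / 10000) - EA ≤ G + 1 / 2 * T + B)
    (h2 : T ≤ ε * (M / φ * V) * (1000 / 998 * A0 + A0 / 10000) + ET) :
    2 / 10000 * A0 * (ε * (V / φ)) * W - EA - 1 / 2 * ET - B ≤ G := by
  set q := ε * (V / φ) with hq
  have hq0 : 0 ≤ q := by positivity
  have e1 : ε * (P / φ * V) = q * P := by rw [hq]; ring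
  have e2 : ε * (M / φ * V) = q * M := by rw [hq]; ring
  rw [e1] at h1
  rw [e2] at h2
  have hP0 : 0 ≤ P := by nlinarith
  have k1 : 4995 / 10000 * W * (A0 * (1000 / 998 * (197 / 1000)) - A0 / 10000) ≤
      P * (A0 * (1000 / 998 * LB) - A0 / 10000) := by
    have a1 : A0 * (1000 / 998 * (197 / 1000)) - A0 / 10000 ≤ A0 * (1000 / 998 * LB) - A0 / 10000 := by
      have : A0 * (1000 / 998 * (197 / 1000)) ≤ A0 * (1000 / 998 * LB) := by gcongr
      linarith
    have a2 : 0 ≤ A0 * (1000 / 998 * (197 / 1000)) - A0 / 10000 := by nlinarith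
    exact mul_le_mul hP a1 a2 hP0
  have k2 : M * (1000 / 998 * A0 + A0 / 10000) ≤ 196 / 1000 * W * (1000 / 998 * A0 + A0 / 10000) :=
    mul_le_mul_of_nonneg_right hM (by positivity)
  have k3 : 2 / 10000 * A0 * W ≤ P * (A0 * (1000 / 998 * LB) - A0 / 10000) -
      1 / 2 * (M * (1000 / 998 * A0 + A0 / 10000)) := by
    have a3 : 0 ≤ A0 * W := by positivity
    nlinarith
  have k4 := mul_le_mul_of_nonneg_left k3 hq0
  nlinarith

end Pool.Agent.Y843.CH
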