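import Pool.Agent.Y843.CH.Enc

/-!
# The blocks of the products of three primes
-/

set_option autoImplicit false

namespace Pool.Agent.Y843.CH

open Finset Filter Pool.Agent.W23.DC Pool.Agent.Y660.RP
open Pool.Agent.Y843.HS (Pr Pr_mem Pr_prime)
open Pool.Agent.Y843.QD (vZ dvd_vZ)
open Pool.Agent.Y843.HG (Adm Z0)

/-- the exponents of the blocks -/
noncomputable def uj (J j : ℕ) : ℝ := 1 / 4 + 417 / 1000 * (j / J)

theorem uj_zero (J : ℕ) : uj J 0 = 1 / 4 := by simp [uj]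

theorem uj_last {J : ℕ} (hJ : 1 ≤ J) : uj J J = 667 / 1000 := by
  unfold uj
  have : (J : ℝ) ≠ 0 := by exact_mod_cast (by omega : J ≠ 0)
  rw [div_self this]
  norm_num

theorem uj_succ {J : ℕ} (j : ℕ) : uj J (j + 1) = uj J j + 417 / 1000 / J := by
  unfold uj
  push_cast
  ring

theorem uj_mono {J i j : ℕ} (h : i ≤ j) : uj J i ≤ uj J j := by
  unfold uj
  have : (i : ℝ) ≤ j := by exact_mod_cast h
  gcongr

theorem uj_lt {J i j : ℕ} (hJ : 1 ≤ J) (h : i < j) : uj J i < uj J j := by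
  unfold uj
  have h1 : (i : ℝ) < j := by exact_mod_cast h
  have h2 : (0 : ℝ) < J := by exact_mod_cast hJ
  have := div_lt_div_of_pos_right h1 h2
  linarith

theorem exists_block {J : ℕ} (hJ : 1 ≤ J) {t : ℝ} (h1 : 1 / 4 ≤ t) (h2 : t < 667 / 1000) :
    ∃ j < J, uj J j ≤ t ∧ t < uj J (j + 1) := by
  by_contra hcon
  push Not at hcon
  have h3 : ∀ j ≤ J, uj J j ≤ t := by
    intro j
    induction j with
    | zero =>
      intro _
      rw [uj_zero]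
      exact h1
    | succ j ih =>
      intro h
      exact hcon j (by omega) (ih (by omega))
  have := h3 J le_rfl
  rw [uj_last hJ] at this
  linarith

open Classical in
/-- the pairs of large primes with product in `(a, b]` -/
noncomputable def PP (N : ℕ) (a b : ℝ) : Finset (ℕ × ℕ) :=
  (Icc 1 ⌊b⌋₊ ×ˢ Icc 1 ⌊b⌋₊).filter (fun x : ℕ × ℕ => x.1.Prime ∧ x.2.Prime ∧
    (N : ℝ) ^ (667 / 1000 : ℝ) ≤ (x.1 : ℝ) ∧ x.1 ≤ x.2 ∧ a < (x.1 : ℝ) * x.2 ∧ (x.1 : ℝ) * x.2 ≤ b)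

/-- their products -/
noncomputable def NN (N : ℕ) (a b : ℝ) : Finset ℕ := (PP N a b).image (fun x => x.1 * x.2)

/-- the interval of the primes of a block -/
noncomputable def lo (N : ℕ) (u : ℝ) : ℕ := ⌈(N : ℝ) ^ u⌉₊ - 1

theorem lo_lt_iff {N : ℕ} (hN : 1 ≤ N) (u : ℝ) (m : ℕ) : lo N u < m ↔ (N : ℝ) ^ u ≤ m := by
  unfold lo
  have h1 : 0 < (N : ℝ) ^ u := Real.rpow_pos_of_pos (by exact_mod_cast hN) _
  have h2 : 1 ≤ ⌈(N : ℝ) ^ u⌉₊ := Nat.one_le_iff_ne_zero.2 (Nat.ceil_pos.2 h1).ne'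
  rw [← Nat.ceil_le]
  omega

theorem block_eq {N : ℕ} (hN : 2 ≤ N) {u v : ℝ} (hv : v ≤ 1) :
    (Ioc (lo N u) (lo N v)).filter Nat.Prime = pr N u v := by
  have hN1 : 1 ≤ N := by omega
  ext p
  rw [mem_filter, mem_Ioc, mem_pr]
  constructor
  · rintro ⟨⟨h1, h2⟩, h3⟩
    rw [lo_lt_iff hN1] at h1
    have h4 : ¬ lo N v < p := not_lt.2 h2
    rw [lo_lt_iff hN1, not_le] at h4
    refine ⟨⟨h3.one_lt.le, ?_⟩, h3, (le_tt_iff hN h3 _).2 h1, (tt_lt_iff hN h3 _).2 h4⟩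
    have h5 : (N : ℝ) ^ v ≤ N := by
      calc (N : ℝ) ^ v ≤ (N : ℝ) ^ (1 : ℝ) :=
            Real.rpow_le_rpow_of_exponent_le (by exact_mod_cast hN1) hv
        _ = N := Real.rpow_one _
    have h6 : (p : ℝ) < N := lt_of_lt_of_le h4 h5
    have : p < N := by exact_mod_cast h6
    exact this.le
  · rintro ⟨h1, h2, h3, h4⟩
    rw [le_tt_iff hN h2] at h3
    rw [tt_lt_iff hN h2] at h4
    refine ⟨⟨(lo_lt_iff hN1 _ _).2 h3, ?_⟩, h2⟩
    by_contra h5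
    rw [not_le, lo_lt_iff hN1] at h5
    linarith

open Classical in
/-- the total mass of the blocks -/
theorem mass_blocks {N : ℕ} (hN : 2 ≤ N) {J : ℕ} (hJ : 1 ≤ J) (a b : ℝ) (ha : 0 ≤ a) :
    ∑ j ∈ range J, ((pr N (uj J j) (uj J (j + 1))).card : ℝ) *
      ((NN N (a / (N : ℝ) ^ uj J (j + 1)) (b / (N : ℝ) ^ uj J j)).card : ℝ) ≤
    ∑ p₁ ∈ pr N (1 / 4) (667 / 1000),
    (((Icc 1 ⌊b * (N : ℝ) ^ (417 / 1000 / (J : ℝ))⌋₊ ×ˢ Icc 1 ⌊b * (N : ℝ) ^ (417 / 1000 / (J : ℝ))⌋₊).filter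
      (fun x : ℕ × ℕ => x.1.Prime ∧ x.2.Prime ∧
      (N : ℝ) ^ (667 / 1000 : ℝ) ≤ (x.1 : ℝ) ∧ x.1 ≤ x.2 ∧
      a / (N : ℝ) ^ (417 / 1000 / (J : ℝ)) < (p₁ : ℝ) * x.1 * x.2 ∧
      (p₁ : ℝ) * x.1 * x.2 ≤ b * (N : ℝ) ^ (417 / 1000 / (J : ℝ)))).card : ℝ) := by
  have hNr : (1 : ℝ) < N := by exact_mod_cast (by omega : 1 < N)
  have hN0 : (0 : ℝ) < N := by linarith
  set lam := (N : ℝ) ^ (417 / 1000 / (J : ℝ)) with hlam
  have hlam1 : 1 ≤ lam := Real.one_le_rpow hNr.le (by positivity)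
  have hlam0 : 0 < lam := by linarith
  set W : ℕ → Finset (ℕ × ℕ) := fun p₁ => (Icc 1 ⌊b * lam⌋₊ ×ˢ Icc 1 ⌊b * lam⌋₊).filter
      (fun x : ℕ × ℕ => x.1.Prime ∧ x.2.Prime ∧
      (N : ℝ) ^ (667 / 1000 : ℝ) ≤ (x.1 : ℝ) ∧ x.1 ≤ x.2 ∧
      a / lam < (p₁ : ℝ) * x.1 * x.2 ∧ (p₁ : ℝ) * x.1 * x.2 ≤ b * lam) with hW
  have hstep : ∀ j ∈ range J, ((pr N (uj J j) (uj J (j + 1))).card : ℝ) *
      ((NN N (a / (N : ℝ) ^ uj J (j + 1)) (b / (N : ℝ) ^ uj J j)).card : ℝ) ≤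
      ∑ p₁ ∈ pr N (uj J j) (uj J (j + 1)), ((W p₁).card : ℝ) := by
    intro j hj
    rw [← nsmul_eq_mul, ← sum_const]
    apply sum_le_sum
    intro p hp
    have hpp := (mem_pr.1 hp).2.1
    have h1 := (le_tt_iff hN hpp _).1 (mem_pr.1 hp).2.2.1
    have h2 := (tt_lt_iff hN hpp _).1 (mem_pr.1 hp).2.2.2
    have hpj : 0 < (N : ℝ) ^ uj J j := Real.rpow_pos_of_pos hN0 _
    have hpj1 : 0 < (N : ℝ) ^ uj J (j + 1) := Real.rpow_pos_of_pos hN0 _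
    have he : (N : ℝ) ^ uj J (j + 1) = (N : ℝ) ^ uj J j * lam := by
      rw [uj_succ, Real.rpow_add hN0]
    have hj1 : 1 ≤ (N : ℝ) ^ uj J j := Real.one_le_rpow hNr.le (by unfold uj; positivity)
    apply Nat.cast_le.2
    unfold NN
    refine card_image_le.trans (card_le_card ?_)
    intro x hx
    unfold PP at hx
    rw [hW]
    rw [mem_filter, mem_product, mem_Icc, mem_Icc] at hx
    simp only
    rw [mem_filter, mem_product, mem_Icc, mem_Icc]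
    obtain ⟨⟨⟨g1, g2⟩, g3, g4⟩, g5, g6, g7, g8, g9, g10⟩ := hx
    have hx0 : (0 : ℝ) < (x.1 : ℝ) * x.2 := by
      have e1 : (0 : ℝ) < x.1 := by exact_mod_cast g1
      have e2 : (0 : ℝ) < x.2 := by exact_mod_cast g3
      positivity
    have hb0 : 0 < b := by
      have : 0 < b / (N : ℝ) ^ uj J j := lt_of_lt_of_le hx0 g10
      by_contra hcon
      have := div_nonpos_of_nonpos_of_nonneg (not_lt.1 hcon) hpj.le
      linarith
    have hble : ⌊b / (N : ℝ) ^ uj J j⌋₊ ≤ ⌊b * lam⌋₊ := by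
      apply Nat.floor_le_floor
      calc b / (N : ℝ) ^ uj J j ≤ b / 1 := div_le_div_of_nonneg_left hb0.le one_pos hj1
        _ ≤ b * lam := by rw [div_one]; nlinarith
    refine ⟨⟨⟨g1, g2.trans hble⟩, g3, g4.trans hble⟩, g5, g6, g7, g8, ?_, ?_⟩
    · rw [div_lt_iff₀ hpj1] at g9
      rw [div_lt_iff₀ hlam0, mul_assoc (p : ℝ)]
      calc a < (x.1 : ℝ) * x.2 * (N : ℝ) ^ uj J (j + 1) := g9
        _ = (N : ℝ) ^ uj J j * ((x.1 : ℝ) * x.2) * lam := by rw [he]; ring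
        _ ≤ (p : ℝ) * ((x.1 : ℝ) * x.2) * lam := by gcongr
    · rw [le_div_iff₀ hpj] at g10
      rw [mul_assoc (p : ℝ)]
      calc (p : ℝ) * ((x.1 : ℝ) * x.2) ≤ (N : ℝ) ^ uj J (j + 1) * ((x.1 : ℝ) * x.2) := by gcongr
        _ = ((x.1 : ℝ) * x.2 * (N : ℝ) ^ uj J j) * lam := by rw [he]; ring
        _ ≤ b * lam := by gcongr
  refine (sum_le_sum hstep).trans ?_
  rw [← sum_biUnion]
  · apply sum_le_sum_of_subset_of_nonneg
    · intro p hp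
      rw [mem_biUnion] at hp
      obtain ⟨j, hj, hp⟩ := hp
      rw [mem_range] at hj
      rw [mem_pr] at hp ⊢
      refine ⟨hp.1, hp.2.1, ?_, ?_⟩
      · refine le_trans ?_ hp.2.2.1
        rw [← uj_zero J]
        exact uj_mono (Nat.zero_le _)
      · refine lt_of_lt_of_le hp.2.2.2 ?_
        rw [← uj_last hJ]
        exact uj_mono (by omega)
    · intro p _ _
      positivity
  · intro i _ j _ hij
    rw [Function.onFun, disjoint_left]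
    intro p hp hp'
    rw [mem_pr] at hp hp'
    rcases lt_or_gt_of_ne hij with h | h
    · have := uj_mono (J := J) (show i + 1 ≤ j by omega)
      linarith [hp.2.2.2, hp'.2.2.1]
    · have := uj_mono (J := J) (show j + 1 ≤ i by omega)
      linarith [hp'.2.2.2, hp.2.2.1]

theorem NN_mem {N : ℕ} {a b : ℝ} {n : ℕ} (hn : n ∈ NN N a b) : 1 ≤ n ∧ n ≤ ⌊b⌋₊ ∧
    ∀ p ∈ n.primeFactors, (N : ℝ) ^ (667 / 1000 : ℝ) ≤ (p : ℝ) := by
  unfold NN PP at hn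
  rw [mem_image] at hn
  obtain ⟨x, hx, rfl⟩ := hn
  rw [mem_filter] at hx
  obtain ⟨-, g5, g6, g7, g8, g9, g10⟩ := hx
  have h0 : x.1 * x.2 ≠ 0 := mul_ne_zero g5.ne_zero g6.ne_zero
  refine ⟨Nat.pos_of_ne_zero h0, ?_, ?_⟩
  · rw [Nat.le_floor_iff' h0]
    push_cast
    exact g10
  · intro p hp
    have hpp := Nat.prime_of_mem_primeFactors hp
    rcases (hpp.dvd_mul).1 (Nat.dvd_of_mem_primeFactors hp) with h | h
    · rw [(Nat.prime_dvd_prime_iff_eq hpp g5).1 h]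
      exact g7
    · rw [(Nat.prime_dvd_prime_iff_eq hpp g6).1 h]
      refine g7.trans ?_
      exact_mod_cast g8

end Pool.Agent.Y843.CH
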