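import Pool.Agent.Y843.QD.Cnt

/-!
# Counting in residue classes
-/

set_option autoImplicit false

namespace Pool.Agent.Y843.CH

open Finset
open Pool.Agent.Y843.HS (card_res)

/-- the classes modulo `m₀ * ∏ W` -/
noncomputable def CC (W : Finset ℕ) (cl : ℕ → Finset ℕ) (m₀ a : ℕ) : Finset ℕ :=
  (range (m₀ * ∏ p ∈ W, p)).filter (fun c => c ≡ a [MOD m₀] ∧ ∀ p ∈ W, c % p ∈ cl p)

theorem card_CC (W : Finset ℕ) (hW : ∀ p ∈ W, p.Prime) (cl : ℕ → Finset ℕ)
    (hcl : ∀ p ∈ W, ∀ c ∈ cl p, c < p) (m₀ a : ℕ) (hm₀ : 0 < m₀) (hcop : ∀ p ∈ W, ¬ p ∣ m₀) :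
    (CC W cl m₀ a).card = ∏ p ∈ W, (cl p).card := by
  classical
  set M := ∏ p ∈ W, p with hM
  have hM0 : 0 < M := prod_pos fun p hp => (hW p hp).pos
  have hc : Nat.Coprime m₀ M := Nat.Coprime.prod_right fun p hp =>
    ((hW p hp).coprime_iff_not_dvd.2 (hcop p hp)).symm
  have h1 := card_res W hW cl hcl
  rw [← hM] at h1
  rw [← h1]
  have hpM : ∀ p ∈ W, p ∣ M := fun p hp => dvd_prod_of_mem _ hp
  apply card_nbij (fun c => c % M)
  · intro c hc'
    unfold CC at hc'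
    rw [mem_coe, mem_filter, mem_range] at hc'
    rw [mem_coe, mem_filter, mem_range]
    refine ⟨Nat.mod_lt _ hM0, fun p hp => ?_⟩
    rw [Nat.mod_mod_of_dvd _ (hpM p hp)]
    exact hc'.2.2 p hp
  · intro c h c' h' heq
    unfold CC at h h'
    rw [mem_coe, mem_filter, mem_range, ← hM] at h h'
    have e1 : c ≡ c' [MOD m₀] := h.2.1.trans h'.2.1.symm
    have e2 : c ≡ c' [MOD M] := heq
    have e3 := (Nat.modEq_and_modEq_iff_modEq_mul hc).1 ⟨e1, e2⟩
    exact Nat.ModEq.eq_of_lt_of_lt e3 h.1 h'.1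
  · intro b hb
    rw [mem_coe, mem_filter, mem_range] at hb
    obtain ⟨k, hk1, hk2⟩ := Nat.chineseRemainder hc a b
    rw [Set.mem_image]
    refine ⟨k % (m₀ * M), ?_, ?_⟩
    · unfold CC
      rw [mem_coe, mem_filter, mem_range]
      refine ⟨Nat.mod_lt _ (Nat.mul_pos hm₀ hM0), ?_, fun p hp => ?_⟩
      · have : k % (m₀ * M) ≡ k [MOD m₀] := by
          unfold Nat.ModEq
          rw [Nat.mod_mod_of_dvd _ (dvd_mul_right _ _)]
        exact this.trans hk1
      · rw [Nat.mod_mod_of_dvd _ ((hpM p hp).trans (dvd_mul_left _ _))]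
        have h3 : k % p = b % p := (hk2.of_dvd (hpM p hp))
        rw [h3]
        exact hb.2 p hp
    · show k % (m₀ * M) % M = b
      rw [Nat.mod_mod_of_dvd _ (dvd_mul_left _ _)]
      have h3 : k % M = b % M := hk2
      rw [h3, Nat.mod_eq_of_lt hb.1]

theorem totient_prodW {W : Finset ℕ} (hW : ∀ p ∈ W, p.Prime) :
    (Nat.totient (∏ p ∈ W, p) : ℝ) = ∏ p ∈ W, ((p : ℝ) - 1) := by
  classical
  induction W using Finset.induction_on with
  | empty => simp
  | insert q W hq ih =>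
    rw [prod_insert hq, prod_insert hq, Nat.totient_mul, Nat.cast_mul,
      ih fun p hp => hW p (mem_insert_of_mem hp), Nat.totient_prime (hW q (mem_insert_self _ _)),
      Nat.cast_sub (hW q (mem_insert_self _ _)).one_lt.le, Nat.cast_one]
    apply Nat.Coprime.prod_right
    intro p hp
    exact (Nat.coprime_primes (hW q (mem_insert_self _ _)) (hW p (mem_insert_of_mem hp))).2
      fun h => hq (h ▸ hp)

theorem arith_cls (T a b c : ℝ) : T / a * (b / c) = b * (T / (a * c)) := by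
  rw [div_mul_div_comm, mul_div_assoc']
  rw [mul_comm T b]

theorem cls {ι : Type} (Ω : Finset ι) (w : ι → ℕ) (W : Finset ℕ) (hW : ∀ p ∈ W, p.Prime)
    (cl : ℕ → Finset ℕ) (hcl : ∀ p ∈ W, ∀ c ∈ cl p, c < p ∧ c ≠ 0) (m₀ a : ℕ) (hm₀ : 0 < m₀)
    (ha : a.Coprime m₀) (hcop : ∀ p ∈ W, ¬ p ∣ m₀) (T E : ℝ)
    (hE : ∀ c : ℕ, c < m₀ * ∏ p ∈ W, p → c.Coprime (m₀ * ∏ p ∈ W, p) →
      |((Ω.filter (fun i => w i ≡ c [MOD (m₀ * ∏ p ∈ W, p)])).card : ℝ) -
        T / (Nat.totient (m₀ * ∏ p ∈ W, p) : ℝ)| ≤ E) :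
    |((Ω.filter (fun i => w i ≡ a [MOD m₀] ∧ ∀ p ∈ W, w i % p ∈ cl p)).card : ℝ) -
      T / (Nat.totient m₀ : ℝ) * ∏ p ∈ W, (((cl p).card : ℝ) / ((p : ℝ) - 1))| ≤
      (∏ p ∈ W, ((cl p).card : ℝ)) * E := by
  classical
  set M := ∏ p ∈ W, p with hM
  have hM0 : 0 < M := prod_pos fun p hp => (hW p hp).pos
  have hpM : ∀ p ∈ W, p ∣ M := fun p hp => dvd_prod_of_mem _ hp
  have hc : Nat.Coprime m₀ M := Nat.Coprime.prod_right fun p hp =>
    ((hW p hp).coprime_iff_not_dvd.2 (hcop p hp)).symm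
  have hcard := card_CC W hW cl (fun p hp c h => (hcl p hp c h).1) m₀ a hm₀ hcop
  have hmM : 0 < m₀ * M := Nat.mul_pos hm₀ hM0
  -- the decomposition
  have hdec : (Ω.filter (fun i => w i ≡ a [MOD m₀] ∧ ∀ p ∈ W, w i % p ∈ cl p)).card =
      ∑ c ∈ CC W cl m₀ a, (Ω.filter (fun i => w i ≡ c [MOD (m₀ * M)])).card := by
    rw [card_eq_sum_card_fiberwise (t := CC W cl m₀ a) (f := fun i => w i % (m₀ * M))]
    · apply sum_congr rfl
      intro c hcc
      unfold CC at hcc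
      rw [mem_filter, mem_range, ← hM] at hcc
      congr 1
      ext i
      simp only [mem_filter]
      constructor
      · rintro ⟨⟨h1, -⟩, h2⟩
        refine ⟨h1, ?_⟩
        show w i % (m₀ * M) = c % (m₀ * M)
        rw [h2, Nat.mod_eq_of_lt hcc.1]
      · rintro ⟨h1, h2⟩
        have h3 : w i % (m₀ * M) = c := by
          have : w i % (m₀ * M) = c % (m₀ * M) := h2
          rw [this, Nat.mod_eq_of_lt hcc.1]
        refine ⟨⟨h1, (h2.of_mul_right _).trans hcc.2.1, fun p hp => ?_⟩, h3⟩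
        have h4 : w i % p = c % p := h2.of_dvd ((hpM p hp).trans (dvd_mul_left _ _))
        rw [h4]
        exact hcc.2.2 p hp
    · intro i hi
      rw [mem_coe, mem_filter] at hi
      unfold CC
      rw [mem_coe, mem_filter, mem_range, ← hM]
      refine ⟨Nat.mod_lt _ hmM, ?_, fun p hp => ?_⟩
      · have : w i % (m₀ * M) ≡ w i [MOD m₀] := by
          unfold Nat.ModEq
          rw [Nat.mod_mod_of_dvd _ (dvd_mul_right _ _)]
        exact this.trans hi.2.1
      · rw [Nat.mod_mod_of_dvd _ ((hpM p hp).trans (dvd_mul_left _ _))]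
        exact hi.2.2 p hp
  have hmain : T / (Nat.totient m₀ : ℝ) * ∏ p ∈ W, (((cl p).card : ℝ) / ((p : ℝ) - 1)) =
      ∑ c ∈ CC W cl m₀ a, T / (Nat.totient (m₀ * M) : ℝ) := by
    rw [sum_const, hcard, nsmul_eq_mul, Nat.totient_mul hc, prod_div_distrib, Nat.cast_mul,
      hM, totient_prodW hW]
    push_cast
    exact arith_cls _ _ _ _
  rw [hdec, hmain]
  push_cast
  rw [← sum_sub_distrib]
  refine (abs_sum_le_sum_abs _ _).trans ?_
  have h3 : ∀ c ∈ CC W cl m₀ a, |((Ω.filter (fun i => w i ≡ c [MOD (m₀ * M)])).card : ℝ) -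
      T / (Nat.totient (m₀ * M) : ℝ)| ≤ E := by
    intro c hcc
    unfold CC at hcc
    rw [mem_filter, mem_range, ← hM] at hcc
    apply hE c hcc.1
    apply Nat.Coprime.mul_right
    · rw [Nat.coprime_iff_gcd_eq_one, hcc.2.1.gcd_eq]
      exact ha
    · apply Nat.Coprime.prod_right
      intro p hp
      apply Nat.Coprime.symm
      rw [(hW p hp).coprime_iff_not_dvd]
      intro h
      have h1 := hcc.2.2 p hp
      rw [Nat.mod_eq_zero_of_dvd h] at h1
      exact (hcl p hp 0 h1).2 rfl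
  refine (sum_le_sum h3).trans ?_
  rw [sum_const, hcard, nsmul_eq_mul]
  push_cast
  exact le_rfl

end Pool.Agent.Y843.CH
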