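import Pool.Agent.Y843.CH.Aer
import Pool.Agent.Y843.HG.Prs

/-!
# The classes of the two sieve problems
-/

set_option autoImplicit false

namespace Pool.Agent.Y843.CH

open Finset Filter Pool.Agent.W23.DC Pool.Agent.Y660.RP
open Pool.Agent.Y843.HS (Pr Pr_mem Pr_prime)
open Pool.Agent.Y843.QD (vZ dvd_vZ)
open Pool.Agent.Y843.HG (Adm Z0)

/-- the class of `h` modulo `q` -/
def hr (h : ℤ) (q : ℕ) : ℕ := (h % q).toNat

/-- the classes for the primes -/
def ZA (h : ℤ) (Y : ℕ) (Om : ℕ → Finset ℕ) (q : ℕ) : Finset ℕ :=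
  if q ≤ Y then Om q else ({hr h q} : Finset ℕ).erase 0

/-- the classes to be avoided by `h + s x` -/
def ZTp (Y : ℕ) (Om : ℕ → Finset ℕ) (q : ℕ) : Finset ℕ := if q ≤ Y then Z0 Om q else {0}

/-- the classes for the products -/
def ZT (h s : ℤ) (Y : ℕ) (Om : ℕ → Finset ℕ) (q : ℕ) : Finset ℕ :=
  ((range q).erase 0).filter (fun x => hr (h + s * x) q ∈ ZTp Y Om q)

theorem hr_lt (h : ℤ) {q : ℕ} (hq : 0 < q) : hr h q < q := by
  unfold hr
  have h1 := Int.emod_lt_of_pos h (show (0 : ℤ) < q by exact_mod_cast hq)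
  have h2 := Int.emod_nonneg h (show (q : ℤ) ≠ 0 by exact_mod_cast hq.ne')
  omega

theorem hr_cast (h : ℤ) {q : ℕ} (hq : 0 < q) : ((hr h q : ℕ) : ℤ) = h % q := by
  unfold hr
  rw [Int.toNat_of_nonneg (Int.emod_nonneg h (by exact_mod_cast hq.ne'))]

theorem hr_eq_iff (h h' : ℤ) {q : ℕ} (hq : 0 < q) : hr h q = hr h' q ↔ h ≡ h' [ZMOD q] := by
  rw [← Int.natCast_inj, hr_cast h hq, hr_cast h' hq]
  rfl

theorem hr_nat (n : ℕ) {q : ℕ} (hq : 0 < q) : hr (n : ℤ) q = n % q := by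
  rw [← Int.natCast_inj, hr_cast _ hq]
  push_cast
  rfl

theorem hr_zero_iff (h : ℤ) {q : ℕ} (hq : 0 < q) : hr h q = 0 ↔ (q : ℤ) ∣ h := by
  rw [← Int.natCast_inj, hr_cast h hq, Int.dvd_iff_emod_eq_zero]
  rfl

theorem hr_add (h s : ℤ) (x : ℕ) {q : ℕ} (hq : 0 < q) : hr (h + s * (x % q : ℕ)) q = hr (h + s * x) q := by
  rw [hr_eq_iff _ _ hq]
  have h1 : ((x % q : ℕ) : ℤ) ≡ (x : ℤ) [ZMOD q] := by
    push_cast
    exact Int.mod_modEq _ _
  exact (h1.mul_left s).add_left h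

theorem inj_hr (h s : ℤ) (hs : s = 1 ∨ s = -1) {q : ℕ} (hq : 0 < q) :
    Set.InjOn (fun x : ℕ => hr (h + s * x) q) (range q : Set ℕ) := by
  intro x hx y hy hxy
  rw [mem_coe, mem_range] at hx hy
  have h1 := (hr_eq_iff _ _ hq).1 hxy
  have h2 : s * (x : ℤ) ≡ s * y [ZMOD q] := Int.ModEq.add_left_cancel' h h1
  have h3 : (x : ℤ) ≡ y [ZMOD q] := by
    rcases hs with rfl | rfl
    · simpa using h2
    · have := h2.neg
      simpa using this
  have h4 : x ≡ y [MOD q] := by exact_mod_cast h3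
  exact Nat.ModEq.eq_of_lt_of_lt h4 hx hy

theorem card_pre (h s : ℤ) (hs : s = 1 ∨ s = -1) {q : ℕ} (hq : 0 < q) (S : Finset ℕ)
    (hS : ∀ c ∈ S, c < q) :
    ((range q).filter (fun x : ℕ => hr (h + s * x) q ∈ S)).card = S.card := by
  classical
  have himg : (range q).image (fun x : ℕ => hr (h + s * x) q) = range q := by
    apply eq_of_subset_of_card_le
    · intro c hc
      rw [mem_image] at hc
      obtain ⟨x, _, rfl⟩ := hc
      exact mem_range.2 (hr_lt _ hq)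
    · rw [card_image_of_injOn (inj_hr h s hs hq)]
  apply card_nbij (fun x : ℕ => hr (h + s * x) q)
  · intro x hx
    rw [mem_coe, mem_filter] at hx
    exact hx.2
  · exact (inj_hr h s hs hq).mono (by
      intro x hx
      rw [mem_coe, mem_filter] at hx
      exact hx.1)
  · intro c hc
    have h1 : c ∈ (range q).image (fun x : ℕ => hr (h + s * x) q) := by
      rw [himg]
      exact mem_range.2 (hS c hc)
    rw [mem_image] at h1
    obtain ⟨x, hx, rfl⟩ := h1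
    exact ⟨x, by rw [mem_coe, mem_filter]; exact ⟨hx, hc⟩, rfl⟩

theorem card_ZT (h s : ℤ) (hs : s = 1 ∨ s = -1) {q : ℕ} (hq : 0 < q) (Y : ℕ) (Om : ℕ → Finset ℕ)
    (h1 : q ≤ Y → 0 ∉ Om q ∧ (∀ c ∈ Om q, c < q) ∧ hr h q ∈ Z0 Om q) :
    (ZT h s Y Om q).card = (ZA h Y Om q).card := by
  classical
  have hlt : ∀ c ∈ ZTp Y Om q, c < q := by
    intro c hc
    unfold ZTp at hc
    split_ifs at hc with h2
    · unfold Z0 at hc
      rw [mem_insert] at hc
      rcases hc with rfl | hc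
      · exact hq
      · exact (h1 h2).2.1 c hc
    · rw [mem_singleton] at hc
      omega
  have h2 := card_pre h s hs hq (ZTp Y Om q) hlt
  have h3 : ZT h s Y Om q = ((range q).filter (fun x : ℕ => hr (h + s * x) q ∈ ZTp Y Om q)).erase 0 := by
    unfold ZT
    ext x
    simp only [mem_filter, mem_erase]
    tauto
  have h4 : 0 ∈ (range q).filter (fun x : ℕ => hr (h + s * x) q ∈ ZTp Y Om q) ↔ hr h q ∈ ZTp Y Om q := by
    rw [mem_filter]
    simp [hq]
  rw [h3]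
  by_cases hY : q ≤ Y
  · have h5 : hr h q ∈ ZTp Y Om q := by
      unfold ZTp
      rw [if_pos hY]
      exact (h1 hY).2.2
    rw [card_erase_of_mem (h4.2 h5), h2]
    unfold ZTp ZA Z0
    rw [if_pos hY, if_pos hY, card_insert_of_notMem (h1 hY).1]
    omega
  · unfold ZA
    rw [if_neg hY]
    by_cases h6 : hr h q = 0
    · have h5 : hr h q ∈ ZTp Y Om q := by
        unfold ZTp
        rw [if_neg hY, mem_singleton]
        exact h6
      rw [card_erase_of_mem (h4.2 h5), h2]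
      unfold ZTp
      rw [if_neg hY, h6]
      simp
    · have h5 : hr h q ∉ ZTp Y Om q := by
        unfold ZTp
        rw [if_neg hY, mem_singleton]
        exact h6
      rw [erase_eq_of_notMem (fun h => h5 (h4.1 h)), h2]
      unfold ZTp
      rw [if_neg hY, erase_eq_of_notMem]
      · simp
      · rw [mem_singleton]
        exact fun h => h6 h.symm

/-- the data -/
structure Dat (r Y : ℕ) (h : ℤ) (Om : ℕ → Finset ℕ) : Prop where
  adm : Adm r Y Om
  hm : ∀ q ∈ Pr 0 Y, hr h q ∈ Z0 Om q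

theorem Dat.cA {r Y : ℕ} {h : ℤ} {Om : ℕ → Finset ℕ} (D : Dat r Y h Om) {q : ℕ} (hq : q.Prime) :
    (ZA h Y Om q).card ≤ r + 1 ∧ ∀ c ∈ ZA h Y Om q, c < q ∧ c ≠ 0 := by
  unfold ZA
  split_ifs with h1
  · have h2 := D.adm q (Pr_mem.2 ⟨⟨hq.pos, h1⟩, hq⟩)
    exact ⟨h2.1.trans (Nat.le_succ r), fun c hc => ⟨h2.2.2.2 c hc, fun h3 => h2.2.2.1 (h3 ▸ hc)⟩⟩
  · constructor
    · refine (card_le_card (erase_subset _ _)).trans ?_
      rw [card_singleton]
      omega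
    · intro c hc
      rw [mem_erase, mem_singleton] at hc
      exact ⟨hc.2 ▸ hr_lt h hq.pos, hc.1⟩

theorem Dat.clA {r Y : ℕ} {h : ℤ} {Om : ℕ → Finset ℕ} (D : Dat r Y h Om) (z N : ℕ) :
    Cl (r + 1) z N (ZA h Y Om) :=
  ⟨fun _ hp => (D.cA (Pr_prime hp)).1, fun _ hp => (D.cA (Pr_prime hp)).2⟩

theorem Dat.cT {r Y : ℕ} {h : ℤ} {Om : ℕ → Finset ℕ} (D : Dat r Y h Om) {s : ℤ} (hs : s = 1 ∨ s = -1)
    {q : ℕ} (hq : q.Prime) : (ZT h s Y Om q).card = (ZA h Y Om q).card :=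
  card_ZT h s hs hq.pos Y Om fun h1 => by
    have h2 := Pr_mem.2 ⟨⟨hq.pos, h1⟩, hq⟩
    have h3 := D.adm q h2
    exact ⟨h3.2.2.1, h3.2.2.2, D.hm q h2⟩

theorem Dat.clT {r Y : ℕ} {h : ℤ} {Om : ℕ → Finset ℕ} (D : Dat r Y h Om) {s : ℤ} (hs : s = 1 ∨ s = -1)
    (z N : ℕ) : Cl (r + 1) z N (ZT h s Y Om) := by
  constructor
  · intro p hp
    rw [D.cT hs (Pr_prime hp)]
    exact (D.cA (Pr_prime hp)).1
  · intro p hp c hc
    unfold ZT at hc
    rw [mem_filter, mem_erase, mem_range] at hc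
    exact ⟨hc.1.2, hc.1.1⟩

theorem Dat.gT {r Y : ℕ} {h : ℤ} {Om : ℕ → Finset ℕ} (D : Dat r Y h Om) {s : ℤ} (hs : s = 1 ∨ s = -1)
    {q : ℕ} (hq : q.Prime) : gC (ZT h s Y Om) q = gC (ZA h Y Om) q := by
  unfold gC
  rw [D.cT hs hq]

theorem Dat.dg {r Y : ℕ} {h : ℤ} {Om : ℕ → Finset ℕ} (D : Dat r Y h Om) (z : ℕ) {w : ℝ} (hw : (Y : ℝ) < w) :
    Dg (r + 1) z w h.natAbs (gC (ZA h Y Om)) := by
  constructor
  · intro p hp _
    have h1 := (D.cA hp).1
    have h2 : (0 : ℝ) < (p : ℝ) - 1 := by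
      have : (1 : ℝ) < p := by exact_mod_cast hp.one_lt
      linarith
    unfold gC
    refine ⟨by positivity, ?_⟩
    apply div_le_div_of_nonneg_right _ h2.le
    exact_mod_cast h1
  · intro p hp hwp
    have h1 : ¬ p ≤ Y := by
      intro h2
      have : (p : ℝ) ≤ Y := by exact_mod_cast h2
      linarith
    unfold gC ZA
    rw [if_neg h1]
    have h3 : hr h p = 0 ↔ p ∣ h.natAbs := by
      rw [hr_zero_iff h hp.pos, Int.natCast_dvd]
    split_ifs with h4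
    · rw [h3.2 h4]
      simp
    · rw [erase_eq_of_notMem, card_singleton, Nat.cast_one]
      rw [mem_singleton]
      exact fun h5 => h4 (h3.1 h5.symm)

theorem Dat.dgT {r Y : ℕ} {h : ℤ} {Om : ℕ → Finset ℕ} (D : Dat r Y h Om) {s : ℤ} (hs : s = 1 ∨ s = -1)
    (z : ℕ) {w : ℝ} (hw : (Y : ℝ) < w) : Dg (r + 1) z w h.natAbs (gC (ZT h s Y Om)) := by
  have h1 := D.dg z hw
  constructor
  · intro p hp hz
    rw [D.gT hs hp]
    exact h1.1 p hp hz
  · intro p hp hwp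
    rw [D.gT hs hp]
    exact h1.2 p hp hwp

end Pool.Agent.Y843.CH
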