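import Pool.Agent.Y675.TC.Core
import Pool.Agent.TH423.SH.PSUb
import Pool.Agent.Helper112.Bilinear

/-!
Project CH (helper843): Chen's theorem, uniformly in the shift and inside arbitrary sifted sets.

Every `St_X` below is the statement of one task; the doc comment is its complete proof. The file of a task is
`Pool/Agent/Y<yourseat>/CH/<Name>.lean`, the theorem has the name given in the comment.
-/

set_option autoImplicit false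

namespace Pool.Agent.Y843.CH

open Finset Filter Pool.Agent.W23.DC Pool.Agent.Y660.RP

/-- The hypotheses on the densities: at most `κ / (p - 1)` for the primes `p > z`, and exactly
`1 / (p - 1)` (or `0` if `p ∣ h`) for the primes `p ≥ w`. -/
def Dg (κ z : ℕ) (w : ℝ) (h : ℕ) (g : ℕ → ℝ) : Prop :=
  (∀ p : ℕ, p.Prime → z < p → 0 ≤ g p ∧ g p ≤ κ / ((p : ℝ) - 1)) ∧
  ∀ p : ℕ, p.Prime → w ≤ (p : ℝ) → g p = if p ∣ h then 0 else 1 / ((p : ℝ) - 1)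

/-- The constant of the lower bound, `0.19763...` -/
noncomputable def LBc : ℝ := Real.log (374 / 125) - 1 / 2 * Real.log (667 * 748 / (331 * 250))

open Classical in
/-- **CORE** (theorem `core : St_CORE`): the two sieve bounds of Chen's theorem.

Proof. Copy and adapt `Pool.Agent.Y675.TC.core4` (file `Y675/TC/Core.lean`, 400 lines) for the first part and the
second half of `Pool.Agent.Y660.RP.core` (`Y660/RP/SV5.lean`) for the second part; all auxiliary lemmas of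
`Y660/RP/SV1`-`SV5` can be imported. The changes are:
(0) the preliminary sieve (`fund4`) uses `Pool.Agent.H20R2.fLem κ` instead of `fLem 4`; take `C0 ≥ κ + 2` so that
`g p ≤ 1` for `p > z` and `∏ (1 - g p) ≥ 0`.
(1) constants: `ε = 1 / (2000 C0 b)`, so `2 ε C0 b = 1 / 1000` (versions of `exb` and `exJ` with `1 / 1000` in place of
`1 / 100`: `(2 ^ 2 ^ J) ^ (C0 b) ≤ N ^ (1 / 1000)`); the level is `τ = 998 / 1000` in place of `98 / 100` (total level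
`N ^ (999 / 1000)`), `Q = pr N (1 / 4) (667 / 1000)`, the weight `cq N q` is the constant `1 / 2`, `tq N q = 998 / 1000 -
tt N q`, which lies in `[331 / 1000, 748 / 1000]`, and `zq = 1 / 4` (so `tq / zq ∈ [1, 3]` and `F3` applies).
(2) `Mer (pr N ε (1 / 4)) (tt N) g ε (1 / 4) ηM` and also `Mer (pr N (1 / 4) (667 / 1000)) (tt N) g (1 / 4) (667 / 1000) η₂`
follow from `Dg` as in `Pool.Agent.Y660.RP.merg` (`mer_of Pool.Agent.W378.DC.MP`; there `S ≤ N`, here `h ≤ N ^ 3`: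
at most `3 / ε` primes `≥ N ^ ε` divide `h`).
(3) first term: `HM'` with `τ = 998 / 1000`, `ζ = 1 / 4`: `ε / ζ * f (τ / ζ) = ε A0 (1000 / 998) log (374 / 125)` by `hS.f4`
(`τ / ζ - 1 = 374 / 125`).
(4) the terms with `q`: `MM ≤ ε A0 / tq + ε (η / 16)`, and `∑_{q ∈ Q} g q / (998 / 1000 - tt N q) ≤
∫ x in 1/4..667/1000, 1 / ((998/1000 - x) x) + η₃` by `Pool.Agent.W505.DC.MI` (`W23.DC.St_MI` with `h x = 1 / (998/1000 - x)`);
the integral is `1000 / 998 * log (667 * 748 / (331 * 250))` (`1 / (x (τ - x)) = (1 / τ) (1 / x + 1 / (τ - x))`,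
antiderivative `(log x - log (τ - x)) / τ`). So the main terms give
`ε x A0 (1000 / 998) (log (374 / 125) - 1 / 2 log (...)) = ε x A0 (1000 / 998) LBc`.
(5) second part: as the upper bound part of `Y660.RP.core`, but with the primes `pr N ε (7 / 20)` (the lemmas of
`SV2`-`SV3` are for a general upper end `w`), `τ = 998 / 1000`, `ζ = 7 / 20` (so `τ / ζ = 2.85... ≤ 3`, `F3` applies) and
`Mer (pr N ε (7 / 20)) (tt N) g ε (7 / 20) ηM`: `MM ≤ ε / ζ * F (τ / ζ) + .. = ε A0 (1000 / 998) + ε (η / 16)`. -/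
def St_CORE : Prop := ∀ κ : ℕ, 1 ≤ κ → ∃ (A0 : ℝ) (C0 : ℕ), 0 < A0 ∧ ∀ z : ℕ, C0 ≤ z → ∀ η : ℝ, 0 < η →
  ∃ ε₁ : ℝ, 0 < ε₁ ∧ ε₁ ≤ 1 / 8 ∧ ∃ N0 : ℕ, 2 ≤ N0 ∧ ∀ N : ℕ, N0 ≤ N → (z : ℝ) < (N : ℝ) ^ ε₁ ∧
  ∀ (ι : Type) (Ω : Finset ι) (v : ι → ℕ) (g : ℕ → ℝ) (A : ℝ) (h : ℕ), 0 ≤ A → h ≠ 0 → h ≤ N ^ 3 →
  Dg κ z ((N : ℝ) ^ ε₁) h g →
  (ε₁ * (A * ∏ p ∈ P1 N z ε₁, (1 - g p)) * (A0 * (1000 / 998 * LBc) - η) -
      Real.log N * ∑ q ∈ Lv' z ((N : ℝ) ^ (999 / 1000 : ℝ)), Rr Ω v g A q ≤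
    ∑ i ∈ Ω.filter (fun i => ∀ p ∈ P1 N z ε₁, ¬ p ∣ v i), II N ε₁ (v i) *
      (1 - 1 / 2 * ∑ q ∈ pr N (1 / 4) (667 / 1000), (if q ∣ v i then 1 else 0))) ∧
  ((Ω.filter (fun i => (∀ p ∈ P1 N z ε₁, ¬ p ∣ v i) ∧ ∀ p ∈ pr N ε₁ (7 / 20), ¬ p ∣ v i)).card : ℝ) ≤
    ε₁ * (A * ∏ p ∈ P1 N z ε₁, (1 - g p)) * (1000 / 998 * A0 + η) +
      Real.log N * ∑ q ∈ Lv' z ((N : ℝ) ^ (999 / 1000 : ℝ)), Rr Ω v g A q

/-- **BVW** (theorem `bvw : St_BVW`): Bombieri-Vinogradov, level `v ^ 0.4995`.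

Proof. Adapt `bvU` and `wsum` of `Pool/Agent/TH423/SH/PSUb.lean` (level `v ^ (1 / 3)`): there the large values of `u` are
`u ≥ v ^ (3 / 4)`; here take `u ≥ v ^ (9995 / 10000)`: then `Q ^ 2 ≤ m₀ ^ 2 v ^ (999 / 1000) ≤ u / log u ^ Bv` and
`primes_of (U + 1) (unsmoothed (U + 3))` applies; for `u ≤ v ^ (9995 / 10000)` the trivial bound `ee_le` suffices. The
weights are put in by Cauchy-Schwarz exactly as in `wsum`. -/
def St_BVW : Prop := ∀ m₀ κ U : ℕ, 1 ≤ κ → ∃ X₀ : ℕ, ∀ v : ℕ, X₀ ≤ v → ∀ u : ℕ, u ≤ v → ∀ Q : ℕ,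
  (Q : ℝ) ≤ m₀ * (v : ℝ) ^ (4995 / 10000 : ℝ) →
  ∑ q ∈ Icc 1 Q, (κ : ℝ) ^ q.primeFactors.card * Pool.Agent.TH423.SH.PSUa.ee u q ≤ v / Real.log v ^ U

open Classical in
/-- **BLV** (theorem `blv : St_BLV`): Bombieri-Vinogradov for products of a prime of an interval and an
element of an arbitrary set.

Proof. `α` = indicator of the primes of `(M₀, M₁]`, `β` = indicator of `T`, `Q = ⌊m₀ X ^ 0.4995⌋`. For a modulus `d` let
`E d = |∑_b ∑_c α b β c ([b c ≡ r d] - [(b c, d) = 1] / φ(d))|` and `E' d` the quantity of the statement.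
(1) Each `k ≤ 5 X` has at most `9` prime factors (with multiplicity) `≥ X ^ (1 / 9)` (`X` large), so it is at most `9`
times a product `b c` (`b` prime `> M₀ ≥ X ^ (1 / 9)`). Hence `E d, E' d ≤ 9 (5 X / d + 1) + 45 X / φ(d) ≤ 100 X / φ(d)` (`d ≤ Q ≤ X`),
and the number of pairs with `(b c, d) > 1` is at most `∑ over the at most 9 primes p ∣ d, p ≥ X ^ (1/9)` of
`9 * 5 X / p`, at most `405 X ^ (8 / 9)`; so `|E d - E' d| ≤ 405 X ^ (8 / 9) / φ(d)`.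
(2) `Pool.Agent.Helper112.BLB.step12` : `E d ≤ ∑_{f ∣ d, f ≠ 1} (1 / φ(d)) P M₁ Y (res (d / f) α) (res (d / f) β) f`
(take `X := M₁`, `Y := Y` there). With `d = f g` (`d` squarefree, `φ(d) = φ(f) φ(g)`), summing over `d ≤ Q`:
`∑_d E d ≤ ∑_{g ≤ Q} (1 / φ(g)) ∑_{2 ≤ f ≤ Q} (1 / φ(f)) P M₁ Y (res g α) (res g β) f`.
(3) The `f ≥ F0 = ⌈log X ^ C⌉`: `BLB.step45` gives `≤ 12 (1 + log Q) (√(M₁ Y) / F0 + √M₁ + √Y + Q) √M₁ √Y`
(`∑ α² ≤ M₁`, `∑ β² ≤ Y`), with `M₁ Y ≤ 5 X`, `√M₁ ≤ X ^ (1/5)`, `√Y √(M₁ Y) ≤ 5 X / √M₁ ≤ 5 X ^ (17/18)`, `Q √(5 X) ≤ 3 m₀ X ^ 0.9995`: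
`≤ X / log X ^ (C - 2)`; see also the proof of `Helper112.bilinear_bound`. Sum over `g`: `∑ 1 / φ(g) ≤ C' log X`
(`Pool.Agent.H398R2.BV.sum_pow_omega_div_totient`).
(4) `2 ≤ f < F0` (Siegel-Walfisz): for primitive `ψ` mod `f`, `∑_{a mod f} ψ a = 0`, so
`|∑_{M₀ < p ≤ M₁} ψ(p)| ≤ ∑_{a coprime to f} |π(M₁; f, a) - π(M₁) / φ(f) - (same at M₀)| ≤ 2 f M₁ / log M₁ ^ U'`: by
`Pool.Agent.TH423.SH.PSUb.bvU 1 U'` each term `ee u q`, `q ^ 3 ≤ v`, `u ≤ v`, is `≤ v / log v ^ U'` (`v = M₁`), and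
`FF_le_ee`. `res g` removes at most `9` primes. So `(1 / φ(f)) P ≤ (2 f M₁ / log M₁ ^ U' + 9) Y` (at most `φ(f)` characters,
`‖A Y β‖ ≤ Y`), `M₁ Y ≤ 5 X`, `Y ≤ 5 X ^ (8 / 9)`; sum over `f < F0` and `g`.
(5) So `∑_d E' d ≤ X / log X ^ U''` for any `U''`; the weights `κ ^ ω(d)` by Cauchy-Schwarz,
`∑ κ^ω E' ≤ √(∑ κ^(2ω) E') √(∑ E')`, with `∑ κ^(2ω) E' ≤ 100 X ∑ κ^(2ω) / φ ≤ X log X ^ K`, exactly as in `PSUb.wsum`. -/
def St_BLV : Prop := ∀ m₀ κ U : ℕ, 1 ≤ m₀ → 1 ≤ κ → ∃ X₀ : ℕ, ∀ X : ℕ, X₀ ≤ X → ∀ M₀ M₁ Y : ℕ,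
  (X : ℝ) ^ (1 / 9 : ℝ) ≤ M₀ → M₀ ≤ M₁ → (M₁ : ℝ) ≤ (X : ℝ) ^ (2 / 5 : ℝ) → M₁ * Y ≤ 5 * X →
  ∀ T : Finset ℕ, (∀ n ∈ T, 1 ≤ n ∧ n ≤ Y ∧ ∀ p ∈ n.primeFactors, (X : ℝ) ^ (1 / 9 : ℝ) ≤ (p : ℝ)) →
  ∀ r : ℕ → ℕ,
    ∑ d ∈ (Icc 1 ⌊m₀ * (X : ℝ) ^ (4995 / 10000 : ℝ)⌋₊).filter (fun d => Squarefree d ∧ (r d).Coprime d),
      (κ : ℝ) ^ d.primeFactors.card *
      |(((((Ioc M₀ M₁).filter Nat.Prime) ×ˢ T).filter (fun x => x.1 * x.2 ≡ r d [MOD d])).card : ℝ) -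
        ((((Ioc M₀ M₁).filter Nat.Prime).card : ℝ) * T.card) / (Nat.totient d : ℝ)| ≤ X / Real.log X ^ U

open Classical in
/-- **MASS** (theorem `mass : St_MASS`): the number of the products `p₁ p₂ p₃`.

Proof. Write `y = 667 / 1000`, `t_i = tt N p_i`, `L = log N`, `Λ = log b / L` (so `|Λ - 2| ≤ C_η / L`). Let `η' > 0` be small
(depending on `η`), all statements for `N ≥ N₀`. For `a = b` (or generally) everything is an upper bound.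
(1) Prime number theorem (`π(x) log x / x → 1`; e.g. `Pool.Agent.Helper923.PNT`, or `PNTLog`; search the tree for
`primeCounting`/`pi1` and `Asymptotics`): for `x ≥ N ^ y`-ish large and `0 ≤ x' ≤ x`,
`π(x) - π(x') ≤ ((x - x') + η' x) / log x` (`π(x') ≥ (1 - η'/4) x' / log x' ≥ (1 - η'/4) x' / log x` for large `x'`, and
`π(x') ≥ 0 ≥ x' / log x - η' x / (4 log x)` for small `x'`).
(2) For fixed `p₁, p₂` the number of the `p₃ ≥ p₂` with `a < p₁ p₂ p₃ ≤ b` is `0` unless `p₁ p₂² ≤ b`, i.e. `t₂ ≤ λ / 2` with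
`λ = Λ - t₁`, and at most `(b - a + η' b) / (p₁ p₂ log (b / (p₁ p₂)))`, `log (b / (p₁ p₂)) = (λ - t₂) L`.
(3) Sum over `p₂` (`y ≤ t₂ ≤ λ / 2`, `y ≤ λ / 2` or else the sum is empty; `1 / p₂ ≤ 1 / (p₂ - 1)`): by `St_MP`
(`Pool.Agent.W378.DC.MP`, `mer_of`) and `St_MI` (`Pool.Agent.W505.DC.MI`) with `h x = 1 / (λ - x)` on `[y, λ / 2 + tiny]`
(`λ - x ≥ 1 / 2`: uniform modulus of continuity) the sum of `1 / ((p₂ - 1) (λ - t₂))` is at most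
`∫ x in y..λ/2, 1 / (x (λ - x)) + η' = (1 / λ) log ((λ - y) / y) + η' ≤ 442 / 1000 - 5751 / 10000 (2 - λ) + η'`
by `St_NUM` (2) (`λ ∈ [1.333, 1.76]`: `2 y = 1.334 ≤ λ ≤ 2 - 1/4 + small`). The same bound `0 ≤ 442/1000 - 0.5751 (2 - λ) + η'` holds
trivially if the sum is empty (`2 - λ ≤ 667/1000 + small`). So the sum is at most
`442 / 1000 - 5751 / 10000 t₁ + 2 η'`.
(4) Sum over `p₁`: `∑_{p₁ ∈ pr N (1/4) y} (442/1000 + 2 η' - 5751/10000 t₁) / (p₁ - 1) ≤ ∫ x in 1/4..y, (442/1000 - 0.5751 x) / x + C η'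
= 442/1000 log (667/250) - 0.5751 (y - 1/4) + C η' ≤ 194 / 1000 + C η'` (MI again, `St_NUM` (3)).
(5) Total `≤ (b - a + η' b) (194 / 1000 + C η') / L ≤ (195 / 1000 (b - a) + η N²) / L`. You may take `(hN : St_NUM)` as a
hypothesis of your theorem: `theorem mass (hN : St_NUM) : St_MASS`. -/
def St_MASS : Prop := ∀ η : ℝ, 0 < η → ∃ N₀ : ℕ, ∀ N : ℕ, N₀ ≤ N → ∀ a b : ℝ, 0 ≤ a → a ≤ b →
  η * (N : ℝ) ^ 2 ≤ b → b ≤ 4 * (N : ℝ) ^ 2 →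
  ∑ p₁ ∈ pr N (1 / 4) (667 / 1000),
    (((Icc 1 ⌊b⌋₊ ×ˢ Icc 1 ⌊b⌋₊).filter (fun x : ℕ × ℕ => x.1.Prime ∧ x.2.Prime ∧
      (N : ℝ) ^ (667 / 1000 : ℝ) ≤ (x.1 : ℝ) ∧ x.1 ≤ x.2 ∧ a < (p₁ : ℝ) * x.1 * x.2 ∧
      (p₁ : ℝ) * x.1 * x.2 ≤ b)).card : ℝ) ≤
    (195 / 1000 * (b - a) + η * (N : ℝ) ^ 2) / Real.log N

/-- **NUM** (theorem `num : St_NUM`): numerical facts.

Proof. The first is `0.19763.. ≥ 0.197`, the third `0.19393.. ≤ 0.194`: rational bounds for the logarithms to `10 ^ (-4)`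
(`Real.log_two_gt_d9`, `Real.log_two_lt_d9`, `Real.log_div_le_sum_range_add`, `Real.le_log_of_...`, or comparison of powers; see how
`St_NU` was proved in `Pool/Agent/W120/DC/NU.lean`). The second: `log u ≤ log u₀ + (u - u₀) / u₀` with `u = (t - 0.667) / 0.667`,
`u₀ = (1.575 - 0.667) / 0.667 = 908 / 667`, so the left side is at most `(1 / t) (log (908 / 667) - 1 + (t - 0.667) / 0.908)`, `log (908/667) =
0.30845..`, and `t (442/1000 - 0.5751 (2 - t)) - (log (908/667) - 1 + (t - 0.667) / 0.908)` is a quadratic polynomial in `t` with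
positive leading coefficient and minimum about `0.0027 > 0` near `t = 1.575` (the margin on the left side of the statement is `0.0017`). -/
def St_NUM : Prop := 197 / 1000 ≤ LBc ∧
  (∀ t : ℝ, 1333 / 1000 ≤ t → t ≤ 176 / 100 →
    1 / t * Real.log ((t - 667 / 1000) / (667 / 1000)) ≤ 442 / 1000 - 5751 / 10000 * (2 - t)) ∧
  442 / 1000 * Real.log (667 / 250) - 5751 / 10000 * (667 / 1000 - 1 / 4) ≤ 194 / 1000

open Classical in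
/-- **WT** (theorem `wt : St_WT`): Chen's weights.

Proof. `N` so large that `3 N² < N ^ 2.001 = (N ^ 0.667) ^ 3` and `N ^ 0.667 ≤ N`. Let `k` be the number of the `q ∈ pr N (1/4) 0.667`
dividing `n`; suppose `k ≤ 1`. The prime factors of `n` are `≥ N ^ (1/4)`; those `< N ^ 0.667` are the elements of `pr N (1/4) 0.667` dividing
`n` (`le_tt_iff`, `tt_lt_iff` in `Y660/RP/SV2`), and each has multiplicity one by the last hypothesis. If `k = 0` all the prime factors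
are `≥ N ^ 0.667`, three of them would give `n ≥ N ^ 2.001 > 3 N²`, so `length ≤ 2`. If `k = 1`, `n = p₁ m` with all prime factors of `m`
`≥ N ^ 0.667`, so `m` has at most two prime factors (with multiplicity); if it has two, `m = p₂ p₃`, `p₂ ≤ p₃`, we are in the last case,
otherwise `length ≤ 2`. -/
def St_WT : Prop := ∃ N₀ : ℕ, ∀ N : ℕ, N₀ ≤ N → ∀ n : ℕ, 1 ≤ n → n ≤ 3 * N ^ 2 →
  (∀ p : ℕ, p.Prime → p ∣ n → (N : ℝ) ^ (1 / 4 : ℝ) ≤ p) →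
  (∀ p : ℕ, p.Prime → p ^ 2 ∣ n → (N : ℝ) ^ (667 / 1000 : ℝ) ≤ p) →
  n.primeFactorsList.length ≤ 2 ∨ 2 ≤ ((pr N (1 / 4) (667 / 1000)).filter (fun q => q ∣ n)).card ∨
  (((pr N (1 / 4) (667 / 1000)).filter (fun q => q ∣ n)).card = 1 ∧
    ∃ p₁ p₂ p₃ : ℕ, p₁ ∈ pr N (1 / 4) (667 / 1000) ∧ p₂.Prime ∧ p₃.Prime ∧
      (N : ℝ) ^ (667 / 1000 : ℝ) ≤ p₂ ∧ p₂ ≤ p₃ ∧ n = p₁ * (p₂ * p₃))

end Pool.Agent.Y843.CH
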