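import Pool.Agent.Y843.CH.Cls
import Pool.Agent.Y843.CH.Stm
import Pool.Agent.Y843.QD.Srv

/-!
# The remainders of the encoded sieve problems
-/

set_option autoImplicit false

namespace Pool.Agent.Y843.CH

open Finset Filter Pool.Agent.W23.DC Pool.Agent.Y660.RP
open Pool.Agent.Y843.HS (Pr Pr_mem Pr_prime)
open Pool.Agent.Y843.QD (vZ dvd_vZ)

/-- the density -/
noncomputable def gC (cl : ℕ → Finset ℕ) (q : ℕ) : ℝ := ((cl q).card : ℝ) / ((q : ℝ) - 1)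

theorem dvd_vZ_sq {Z : ℕ → Finset ℕ} {z X n d : ℕ} (hd : Squarefree d)
    (hp : ∀ p ∈ d.primeFactors, p ∈ Pr z X) :
    d ∣ vZ Z z X n ↔ ∀ p ∈ d.primeFactors, n % p ∈ Z p := by
  constructor
  · intro h p hpd
    have h1 := (Nat.dvd_of_mem_primeFactors hpd).trans h
    exact ((dvd_vZ (Nat.prime_of_mem_primeFactors hpd)).1 h1).2
  · intro h
    rw [← Nat.prod_primeFactors_of_squarefree hd, prod_dvd fun p hp => Nat.prime_of_mem_primeFactors hp]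
    intro p hpd
    exact (dvd_vZ (Nat.prime_of_mem_primeFactors hpd)).2 ⟨hp p hpd, h p hpd⟩

open Classical in
theorem rr_one {ι : Type} (Ω : Finset ι) (w : ι → ℕ) (z N m₀ a : ℕ) (cl : ℕ → Finset ℕ)
    (hcl : ∀ p ∈ Pr z N, ∀ c ∈ cl p, c < p ∧ c ≠ 0) (hm₀ : 0 < m₀)
    (ha : a.Coprime m₀) (hcop : ∀ p ∈ Pr z N, ¬ p ∣ m₀) (T E : ℝ) (d : ℕ) (hd : Squarefree d)
    (hdp : ∀ p ∈ d.primeFactors, p ∈ Pr z N)
    (hE : ∀ c : ℕ, c < m₀ * d → c.Coprime (m₀ * d) →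
      |((Ω.filter (fun i => w i ≡ c [MOD (m₀ * d)])).card : ℝ) -
        T / (Nat.totient (m₀ * d) : ℝ)| ≤ E) :
    Rr (Ω.filter (fun i => w i ≡ a [MOD m₀])) (fun i => vZ cl z N (w i)) (gC cl)
      (T / (Nat.totient m₀ : ℝ)) d ≤ (∏ p ∈ d.primeFactors, ((cl p).card : ℝ)) * E := by
  have h := cls Ω w d.primeFactors (fun p hp => Nat.prime_of_mem_primeFactors hp) cl
    (fun p hp => hcl p (hdp p hp)) m₀ a hm₀ ha (fun p hp => hcop p (hdp p hp)) T E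
  rw [Nat.prod_primeFactors_of_squarefree hd] at h
  have h1 := h hE
  unfold Rr
  rw [filter_filter]
  have e : (Ω.filter (fun i => w i ≡ a [MOD m₀] ∧ d ∣ vZ cl z N (w i))) =
      (Ω.filter (fun i => w i ≡ a [MOD m₀] ∧ ∀ p ∈ d.primeFactors, w i % p ∈ cl p)) := by
    apply filter_congr
    intro i _
    rw [dvd_vZ_sq hd hdp]
  rw [e]
  exact h1

open Classical in
/-- the sum of the remainders -/
theorem rr_sum {ι : Type} (Ω : Finset ι) (w : ι → ℕ) (κ z N m₀ a : ℕ) (hκ : 1 ≤ κ)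
    (cl : ℕ → Finset ℕ) (hclκ : ∀ p ∈ Pr z N, (cl p).card ≤ κ)
    (hcl : ∀ p ∈ Pr z N, ∀ c ∈ cl p, c < p ∧ c ≠ 0) (hm₀ : 0 < m₀) (hm₀s : Squarefree m₀)
    (ha : a.Coprime m₀) (hcop : ∀ p ∈ Pr z N, ¬ p ∣ m₀) (T : ℝ) (E : ℕ → ℝ)
    (hE0 : ∀ d, 0 ≤ E d) (D : ℝ) (hD0 : 0 ≤ D) (hD : D ≤ N)
    (hE : ∀ d : ℕ, 1 ≤ d → (d : ℝ) ≤ m₀ * D → Squarefree d → ∀ c : ℕ, c < d → c.Coprime d →
      |((Ω.filter (fun i => w i ≡ c [MOD d])).card : ℝ) - T / (Nat.totient d : ℝ)| ≤ E d) :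
    ∑ d ∈ Lv' z D, Rr (Ω.filter (fun i => w i ≡ a [MOD m₀])) (fun i => vZ cl z N (w i)) (gC cl)
      (T / (Nat.totient m₀ : ℝ)) d ≤
    ∑ d ∈ (Icc 1 ⌊m₀ * D⌋₊).filter Squarefree, (κ : ℝ) ^ d.primeFactors.card * E d := by
  have hκr : (1 : ℝ) ≤ κ := by exact_mod_cast hκ
  have hmem : ∀ d ∈ Lv' z D, (1 ≤ d ∧ (d : ℝ) ≤ D) ∧ Squarefree d ∧ ∀ p ∈ d.primeFactors, p ∈ Pr z N := by
    intro d hd
    unfold Lv' at hd
    rw [mem_filter, mem_Icc] at hd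
    have h1 : (d : ℝ) ≤ D := (Nat.le_floor_iff hD0).1 hd.1.2
    refine ⟨⟨hd.1.1, h1⟩, hd.2.1, fun p hp => ?_⟩
    rw [Pr_mem]
    refine ⟨⟨hd.2.2 p hp, ?_⟩, Nat.prime_of_mem_primeFactors hp⟩
    have h2 : p ≤ d := Nat.le_of_mem_primeFactors hp
    have h3 : (p : ℝ) ≤ N := by
      have : (p : ℝ) ≤ d := by exact_mod_cast h2
      linarith
    exact_mod_cast h3
  have hcopd : ∀ d ∈ Lv' z D, Nat.Coprime m₀ d := by
    intro d hd
    obtain ⟨⟨h1, h2⟩, h3, h4⟩ := hmem d hd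
    rw [← Nat.prod_primeFactors_of_squarefree h3]
    apply Nat.Coprime.prod_right
    intro p hp
    exact ((Nat.prime_of_mem_primeFactors hp).coprime_iff_not_dvd.2 (hcop p (h4 p hp))).symm
  have hmem2 : ∀ d ∈ Lv' z D, m₀ * d ∈ (Icc 1 ⌊m₀ * D⌋₊).filter Squarefree := by
    intro d hd
    obtain ⟨⟨h1, h2⟩, h3, h4⟩ := hmem d hd
    rw [mem_filter, mem_Icc]
    refine ⟨⟨Nat.mul_pos hm₀ h1, Nat.le_floor ?_⟩, (Nat.squarefree_mul (hcopd d hd)).2 ⟨hm₀s, h3⟩⟩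
    push_cast
    gcongr
  have hstep : ∀ d ∈ Lv' z D, Rr (Ω.filter (fun i => w i ≡ a [MOD m₀])) (fun i => vZ cl z N (w i)) (gC cl)
      (T / (Nat.totient m₀ : ℝ)) d ≤ (κ : ℝ) ^ (m₀ * d).primeFactors.card * E (m₀ * d) := by
    intro d hd
    obtain ⟨⟨h1, h2⟩, h3, h4⟩ := hmem d hd
    have h5 := mem_filter.1 (hmem2 d hd)
    have h6 := mem_Icc.1 h5.1
    have h7 := rr_one Ω w z N m₀ a cl hcl hm₀ ha hcop T (E (m₀ * d)) d h3 h4
      (hE (m₀ * d) h6.1 (by push_cast; gcongr) h5.2)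
    refine h7.trans ?_
    apply mul_le_mul_of_nonneg_right _ (hE0 _)
    calc ∏ p ∈ d.primeFactors, ((cl p).card : ℝ) ≤ ∏ p ∈ d.primeFactors, (κ : ℝ) := by
          apply Finset.prod_le_prod
          · intro p _
            positivity
          · intro p hp
            exact_mod_cast hclκ p (h4 p hp)
      _ = (κ : ℝ) ^ d.primeFactors.card := by rw [prod_const]
      _ ≤ (κ : ℝ) ^ (m₀ * d).primeFactors.card := by
          apply pow_le_pow_right₀ hκr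
          apply card_le_card
          rw [Nat.primeFactors_mul hm₀.ne' (by omega)]
          exact subset_union_right
  refine (sum_le_sum hstep).trans ?_
  rw [← sum_image (f := fun d => (κ : ℝ) ^ d.primeFactors.card * E d) (g := fun d => m₀ * d)
    (fun d _ d' _ h => Nat.eq_of_mul_eq_mul_left hm₀ h)]
  apply sum_le_sum_of_subset_of_nonneg
  · intro d hd
    rw [mem_image] at hd
    obtain ⟨e, he, rfl⟩ := hd
    exact hmem2 e he
  · intro d _ _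
    exact mul_nonneg (by positivity) (hE0 d)

end Pool.Agent.Y843.CH
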