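import Pool.Agent.Y843.CH.Prod

/-!
# The upper bound for the primes of the critical type
-/

set_option autoImplicit false

namespace Pool.Agent.Y843.CH

open Finset Filter Pool.Agent.W23.DC Pool.Agent.Y660.RP
open Pool.Agent.Y843.HS (Pr VV Pr_mem Pr_prime VV_split)
open Pool.Agent.Y843.HG (Adm Z0 SP V1 V1_bounds log_floor)
open Pool.Agent.Y843.QD (vZ dvd_vZ)

theorem St.cop {r N X z Y m₀ a : ℕ} {ε : ℝ} {h : ℤ} {Om : ℕ → Finset ℕ}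
    (S : St r N X z Y m₀ a ε h Om) (hm₀ : 0 < m₀) (hmz : ∀ q : ℕ, q.Prime → q ∣ m₀ → q ≤ z)
    {s : ℤ} (hs : s = 1 ∨ s = -1) : (hr (s * ((a : ℤ) - h)) m₀).Coprime m₀ := by
  apply Nat.Coprime.symm
  rw [Nat.coprime_iff_gcd_eq_one]
  by_contra hcon
  obtain ⟨q, hq, hqd⟩ := Nat.exists_prime_and_dvd hcon
  have h1 : q ∣ m₀ := hqd.trans (Nat.gcd_dvd_left _ _)
  have h2 : q ∣ hr (s * ((a : ℤ) - h)) m₀ := hqd.trans (Nat.gcd_dvd_right _ _)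
  have h3 : (q : ℤ) ∣ s * ((a : ℤ) - h) := by
    have h4 : (q : ℤ) ∣ ((hr (s * ((a : ℤ) - h)) m₀ : ℕ) : ℤ) := Int.natCast_dvd_natCast.2 h2
    rw [hr_cast _ hm₀] at h4
    have h5 : ((m₀ : ℕ) : ℤ) ∣ s * ((a : ℤ) - h) - (s * ((a : ℤ) - h)) % m₀ :=
      Int.dvd_self_sub_emod
    have h6 := (Int.natCast_dvd_natCast.2 h1).trans h5
    have h7 := dvd_add h6 h4
    rwa [sub_add_cancel] at h7
  have h4 : (q : ℤ) ∣ (a : ℤ) - h := by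
    rcases hs with rfl | rfl
    · simpa using h3
    · have := h3
      rw [neg_one_mul] at this
      exact (Int.dvd_neg).1 this
  have hqz : q ∈ Pr 0 z := Pr_mem.2 ⟨⟨hq.pos, hmz q hq h1⟩, hq⟩
  have h5 : hr h q = a % q := by
    rw [← hr_nat a hq.pos, hr_eq_iff _ _ hq.pos, Int.modEq_iff_dvd]
    exact h4
  apply S.a q hqz
  rw [← h5]
  apply S.D.hm
  rw [Pr_mem] at hqz ⊢
  exact ⟨⟨hqz.1.1, by have := S.zY; omega⟩, hqz.2⟩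

theorem St.cop_a {r N X z Y m₀ a : ℕ} {ε : ℝ} {h : ℤ} {Om : ℕ → Finset ℕ}
    (S : St r N X z Y m₀ a ε h Om) (hmz : ∀ q : ℕ, q.Prime → q ∣ m₀ → q ≤ z) : a.Coprime m₀ := by
  rw [Nat.coprime_iff_gcd_eq_one]
  by_contra hcon
  obtain ⟨q, hq, hqd⟩ := Nat.exists_prime_and_dvd hcon
  have h1 : q ∣ m₀ := hqd.trans (Nat.gcd_dvd_right _ _)
  have h2 : q ∣ a := hqd.trans (Nat.gcd_dvd_left _ _)
  apply S.a q (Pr_mem.2 ⟨⟨hq.pos, hmz q hq h1⟩, hq⟩)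
  rw [Nat.mod_eq_zero_of_dvd h2]
  exact mem_insert_self _ _

theorem St.aS_le {r N X z Y m₀ a : ℕ} {ε : ℝ} {h : ℤ} {Om : ℕ → Finset ℕ}
    (S : St r N X z Y m₀ a ε h Om) (s : ℤ) : 0 ≤ aS h s ∧ aS h s ≤ bS X h s ∧ aS h s ≤ X ∧
    bS X h s ≤ 2 * X := by
  have h1 : (|h| : ℤ) ≤ X := by
    have := S.hX
    rw [Int.abs_eq_natAbs]
    exact_mod_cast this
  have h2 : |(h : ℝ)| ≤ X := by exact_mod_cast h1
  rw [abs_le] at h2
  unfold aS bS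
  split_ifs
  · refine ⟨le_max_right _ _, max_le (by linarith) (by linarith), max_le (by linarith) (by linarith),
      by linarith⟩
  · exact ⟨le_rfl, le_max_right _ _, by linarith, max_le (by linarith) (by linarith)⟩

theorem ab_sum (X : ℕ) (h : ℤ) : (bS X h 1 - aS h 1) + (bS X h (-1) - aS h (-1)) = X := by
  unfold aS bS
  rw [if_pos rfl, if_pos rfl, if_neg (by norm_num), if_neg (by norm_num)]
  rcases le_total (h : ℝ) 0 with h1 | h1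
  · rw [max_eq_left (by linarith), max_eq_right h1]
    ring
  · rw [max_eq_right (by linarith), max_eq_left h1]
    ring

/-- the mass of the block `(s, j)` -/
noncomputable def ms (N X J : ℕ) (h s : ℤ) (j : ℕ) : ℝ :=
  (((Ioc (lo N (uj J j)) (lo N (uj J (j + 1)))).filter Nat.Prime).card : ℝ) *
    ((NN N (aS h s / (N : ℝ) ^ uj J (j + 1)) ((bS X h s + 1 / 4000 * X) / (N : ℝ) ^ uj J j)).card : ℝ)

/-- the bounds for one value of `N` supplied by `MASS` -/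
def MB (N : ℕ) : Prop := ∀ a b : ℝ, 0 ≤ a → a ≤ b →
  1 / 4000 * (N : ℝ) ^ 2 ≤ b → b ≤ 4 * (N : ℝ) ^ 2 →
  ∑ p₁ ∈ pr N (1 / 4) (667 / 1000),
    (((Icc 1 ⌊b⌋₊ ×ˢ Icc 1 ⌊b⌋₊).filter (fun x : ℕ × ℕ => x.1.Prime ∧ x.2.Prime ∧
      (N : ℝ) ^ (667 / 1000 : ℝ) ≤ (x.1 : ℝ) ∧ x.1 ≤ x.2 ∧ a < (p₁ : ℝ) * x.1 * x.2 ∧
      (p₁ : ℝ) * x.1 * x.2 ≤ b)).card : ℝ) ≤
    (195 / 1000 * (b - a) + 1 / 4000 * (N : ℝ) ^ 2) / Real.log N

theorem uj_le_one {J j : ℕ} (hJ : 1 ≤ J) (hj : j < J) : uj J (j + 1) ≤ 1 := by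
  have := uj_mono (J := J) (show j + 1 ≤ J by omega)
  rw [uj_last hJ] at this
  linarith

theorem St.mass {r N X z Y m₀ a : ℕ} {ε : ℝ} {h : ℤ} {Om : ℕ → Finset ℕ}
    (S : St r N X z Y m₀ a ε h Om) (hN4 : 4000 ≤ N) (hMB : MB N) {J : ℕ} (hJ : 1 ≤ J)
    (hlam : (N : ℝ) ^ (417 / 1000 / (J : ℝ)) ≤ 1 + 1 / 4000) (s : ℤ) :
    ∑ j ∈ range J, ms N X J h s j ≤
      (195 / 1000 * ((bS X h s - aS h s) + 5 / 4000 * X) + 1 / 4000 * X) / Real.log N := by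
  have hN2 : 2 ≤ N := by omega
  have hNr : (4000 : ℝ) ≤ N := by exact_mod_cast hN4
  have hNX : (N : ℝ) ^ 2 ≤ X := by exact_mod_cast S.NX
  have hXN : (X : ℝ) < ((N : ℝ) + 1) ^ 2 := by exact_mod_cast S.XN
  have hL : 0 < Real.log N := Real.log_pos (by linarith)
  set lam := (N : ℝ) ^ (417 / 1000 / (J : ℝ)) with hlamd
  have hlam1 : 1 ≤ lam := Real.one_le_rpow (by linarith) (by positivity)
  have hlam0 : 0 < lam := by linarith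
  obtain ⟨h1, h2, h3, h4⟩ := S.aS_le s
  have hX0 : (0 : ℝ) ≤ X := Nat.cast_nonneg _
  have hX0' : (0 : ℝ) < X := by nlinarith
  have hb0 : 0 ≤ bS X h s + 1 / 4000 * X := by linarith
  have e1 : ∑ j ∈ range J, ms N X J h s j =
      ∑ j ∈ range J, ((pr N (uj J j) (uj J (j + 1))).card : ℝ) *
      ((NN N (aS h s / (N : ℝ) ^ uj J (j + 1)) ((bS X h s + 1 / 4000 * X) / (N : ℝ) ^ uj J j)).card : ℝ) := by
    apply Finset.sum_congr rfl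
    intro j hj
    unfold ms
    rw [block_eq hN2 (uj_le_one hJ (mem_range.1 hj))]
  rw [e1]
  refine (mass_blocks hN2 hJ (aS h s) (bS X h s + 1 / 4000 * X) h1).trans ?_
  rw [← hlamd]
  have ha : aS h s / lam ≤ aS h s := div_le_self h1 hlam1
  have hinv : aS h s - aS h s / 4000 ≤ aS h s / lam := by
    rw [le_div_iff₀ hlam0]
    nlinarith
  have hbl : bS X h s + 1 / 4000 * X ≤ (bS X h s + 1 / 4000 * X) * lam := le_mul_of_one_le_right hb0 hlam1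
  have hbu : (bS X h s + 1 / 4000 * X) * lam ≤ (bS X h s + 1 / 4000 * X) * (1 + 1 / 4000) :=
    mul_le_mul_of_nonneg_left hlam hb0
  refine (hMB (aS h s / lam) ((bS X h s + 1 / 4000 * X) * lam) (by positivity) (by linarith)
    (by nlinarith) (by nlinarith)).trans ?_
  apply div_le_div_of_nonneg_right _ hL.le
  nlinarith

theorem St.mass2 {r N X z Y m₀ a : ℕ} {ε : ℝ} {h : ℤ} {Om : ℕ → Finset ℕ}
    (S : St r N X z Y m₀ a ε h Om) (hN4 : 4000 ≤ N) (hMB : MB N) {J : ℕ} (hJ : 1 ≤ J)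
    (hlam : (N : ℝ) ^ (417 / 1000 / (J : ℝ)) ≤ 1 + 1 / 4000) :
    ∑ j ∈ range J, ms N X J h 1 j + ∑ j ∈ range J, ms N X J h (-1) j ≤ 196 / 1000 * (X / Real.log N) := by
  have h1 := S.mass hN4 hMB hJ hlam 1
  have h2 := S.mass hN4 hMB hJ hlam (-1)
  have h3 := ab_sum X h
  have hL : 0 < Real.log N := Real.log_pos (by
    have : (4000 : ℝ) ≤ N := by exact_mod_cast hN4
    linarith)
  have hX0 : (0 : ℝ) ≤ X := Nat.cast_nonneg _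
  have h4 : (195 / 1000 * ((bS X h 1 - aS h 1) + 5 / 4000 * X) + 1 / 4000 * X) / Real.log N +
      (195 / 1000 * ((bS X h (-1) - aS h (-1)) + 5 / 4000 * X) + 1 / 4000 * X) / Real.log N ≤
      196 / 1000 * (X / Real.log N) := by
    rw [← add_div, mul_div_assoc']
    apply div_le_div_of_nonneg_right _ hL.le
    have e : 195 / 1000 * (bS X h 1 - aS h 1 + 5 / 4000 * X) + 1 / 4000 * X +
        (195 / 1000 * (bS X h (-1) - aS h (-1) + 5 / 4000 * X) + 1 / 4000 * X) =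
        195 / 1000 * ((bS X h 1 - aS h 1) + (bS X h (-1) - aS h (-1))) + (195 / 1000 * (10 / 4000) + 2 / 4000) * X := by
      ring
    rw [e, h3]
    nlinarith
  linarith

/-- the bounds for the remainders supplied by `TER` -/
def TE (m₀ κ U N X : ℕ) : Prop := ∀ (z a : ℕ) (cl : ℕ → Finset ℕ), Cl κ z N cl → a.Coprime m₀ →
    (∀ p ∈ Pr z N, ¬ p ∣ m₀) → ∀ M₀ M₁ Y : ℕ,
    (X : ℝ) ^ (1 / 9 : ℝ) ≤ M₀ → M₀ ≤ M₁ → (M₁ : ℝ) ≤ (X : ℝ) ^ (2 / 5 : ℝ) → M₁ * Y ≤ 5 * X →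
    ∀ T : Finset ℕ, (∀ n ∈ T, 1 ≤ n ∧ n ≤ Y ∧ ∀ p ∈ n.primeFactors, (X : ℝ) ^ (1 / 9 : ℝ) ≤ (p : ℝ)) →
    ∑ d ∈ Lv' z ((N : ℝ) ^ (999 / 1000 : ℝ)), Rr ((MN M₀ M₁ T).filter (fun x => x.1 * x.2 ≡ a [MOD m₀]))
      (fun x => vZ cl z N (x.1 * x.2)) (gC cl)
      ((((Ioc M₀ M₁).filter Nat.Prime).card * T.card : ℝ) / (Nat.totient m₀ : ℝ)) d ≤ X / Real.log X ^ U

open Classical in
/-- the sieve bounds for one value of `N` supplied by `CORE` -/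
def CB (κ z N : ℕ) (ε A0 η : ℝ) : Prop :=
  ∀ (ι : Type) (Ω : Finset ι) (v : ι → ℕ) (g : ℕ → ℝ) (A : ℝ) (h : ℕ), 0 ≤ A → h ≠ 0 → h ≤ N ^ 3 →
  Dg κ z ((N : ℝ) ^ ε) h g →
  (ε * (A * ∏ p ∈ P1 N z ε, (1 - g p)) * (A0 * (1000 / 998 * LBc) - η) -
      Real.log N * ∑ q ∈ Lv' z ((N : ℝ) ^ (999 / 1000 : ℝ)), Rr Ω v g A q ≤
    ∑ i ∈ Ω.filter (fun i => ∀ p ∈ P1 N z ε, ¬ p ∣ v i), II N ε (v i) *
      (1 - 1 / 2 * ∑ q ∈ pr N (1 / 4) (667 / 1000), (if q ∣ v i then 1 else 0))) ∧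
  ((Ω.filter (fun i => (∀ p ∈ P1 N z ε, ¬ p ∣ v i) ∧ ∀ p ∈ pr N ε (7 / 20), ¬ p ∣ v i)).card : ℝ) ≤
    ε * (A * ∏ p ∈ P1 N z ε, (1 - g p)) * (1000 / 998 * A0 + η) +
      Real.log N * ∑ q ∈ Lv' z ((N : ℝ) ^ (999 / 1000 : ℝ)), Rr Ω v g A q

/-- size conditions -/
structure Sz (N X : ℕ) : Prop where
  a : (X : ℝ) ^ (1 / 9 : ℝ) + 1 ≤ (N : ℝ) ^ (1 / 4 : ℝ)
  b : (N : ℝ) ^ (667 / 1000 : ℝ) ≤ (X : ℝ) ^ (2 / 5 : ℝ)

open Classical in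
theorem St.block {r N X z Y m₀ a U : ℕ} {ε A0 η : ℝ} {h : ℤ} {Om : ℕ → Finset ℕ}
    (S : St r N X z Y m₀ a ε h Om) (hh : h ≠ 0) (hm₀ : 0 < m₀)
    (hmz : ∀ q : ℕ, q.Prime → q ∣ m₀ → q ≤ z) (hN4 : 4000 ≤ N) (hSz : Sz N X)
    (hCB : CB (r + 1) z N ε A0 η) (hTE : TE m₀ (r + 1) U N X) {J : ℕ} (hJ : 1 ≤ J)
    (hlam : (N : ℝ) ^ (417 / 1000 / (J : ℝ)) ≤ 1 + 1 / 4000) {s : ℤ} (hs : s = 1 ∨ s = -1)
    {j : ℕ} (hj : j < J) :
    ((FT N X J z Y m₀ a ε (1 / 4000) h Om s j).card : ℝ) ≤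
      ε * (ms N X J h s j / (Nat.totient m₀ : ℝ) * ∏ p ∈ P1 N z ε, (1 - gC (ZA h Y Om) p)) *
        (1000 / 998 * A0 + η) + Real.log N * (X / Real.log X ^ U) := by
  have hN2 : 2 ≤ N := by omega
  have hNr : (4000 : ℝ) ≤ N := by exact_mod_cast hN4
  have hNX : (N : ℝ) ^ 2 ≤ X := by exact_mod_cast S.NX
  have hXN : (X : ℝ) < ((N : ℝ) + 1) ^ 2 := by exact_mod_cast S.XN
  have hN0 : (0 : ℝ) < N := by linarith
  have hL : 0 < Real.log N := Real.log_pos (by linarith)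
  have hX0 : (0 : ℝ) ≤ X := Nat.cast_nonneg _
  set lam := (N : ℝ) ^ (417 / 1000 / (J : ℝ)) with hlamd
  have hpj : 0 < (N : ℝ) ^ uj J j := Real.rpow_pos_of_pos hN0 _
  have he : (N : ℝ) ^ uj J (j + 1) = (N : ℝ) ^ uj J j * lam := by
    rw [uj_succ, Real.rpow_add hN0]
  obtain ⟨h1, h2, h3, h4⟩ := S.aS_le s
  have hb0 : 0 ≤ bS X h s + 1 / 4000 * X := by linarith
  -- the sizes
  have hnotdvd : ∀ p ∈ Pr z N, ¬ p ∣ m₀ := by
    intro p hp hd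
    have := hmz p (Pr_prime hp) hd
    have := (Pr_mem.1 hp).1.1
    omega
  have hlo : ∀ u : ℝ, (lo N u : ℝ) < (N : ℝ) ^ u := by
    intro u
    have h5 : ¬ lo N u < lo N u := lt_irrefl _
    rw [lo_lt_iff (by omega), not_le] at h5
    exact h5
  have hlo2 : ∀ u : ℝ, (N : ℝ) ^ u ≤ (lo N u : ℝ) + 1 := by
    intro u
    have h5 := (lo_lt_iff (by omega : 1 ≤ N) u (lo N u + 1)).1 (Nat.lt_succ_self _)
    push_cast at h5
    exact h5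
  have hM0 : (X : ℝ) ^ (1 / 9 : ℝ) ≤ lo N (uj J j) := by
    have h5 := hlo2 (uj J j)
    have h6 : (N : ℝ) ^ (1 / 4 : ℝ) ≤ (N : ℝ) ^ uj J j := by
      apply Real.rpow_le_rpow_of_exponent_le (by linarith)
      rw [← uj_zero J]
      exact uj_mono (Nat.zero_le _)
    linarith [hSz.a]
  have hM01 : lo N (uj J j) ≤ lo N (uj J (j + 1)) := by
    have h5 : (N : ℝ) ^ uj J j ≤ (N : ℝ) ^ uj J (j + 1) :=
      Real.rpow_le_rpow_of_exponent_le (by linarith) (uj_mono (Nat.le_succ _))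
    by_contra hcon
    rw [not_le, lo_lt_iff (by omega)] at hcon
    have h6 := hlo (uj J j)
    linarith
  have hM1 : (lo N (uj J (j + 1)) : ℝ) ≤ (X : ℝ) ^ (2 / 5 : ℝ) := by
    refine (hlo _).le.trans (le_trans ?_ hSz.b)
    apply Real.rpow_le_rpow_of_exponent_le (by linarith)
    rw [← uj_last hJ]
    exact uj_mono (by omega)
  have hMY : lo N (uj J (j + 1)) * ⌊(bS X h s + 1 / 4000 * X) / (N : ℝ) ^ uj J j⌋₊ ≤ 5 * X := by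
    have h5 : ((lo N (uj J (j + 1)) * ⌊(bS X h s + 1 / 4000 * X) / (N : ℝ) ^ uj J j⌋₊ : ℕ) : ℝ) ≤ 5 * X := by
      push_cast
      calc (lo N (uj J (j + 1)) : ℝ) * (⌊(bS X h s + 1 / 4000 * X) / (N : ℝ) ^ uj J j⌋₊ : ℝ) ≤
            ((N : ℝ) ^ uj J j * lam) * ((bS X h s + 1 / 4000 * X) / (N : ℝ) ^ uj J j) := by
            rw [← he]
            exact mul_le_mul (hlo _).le (Nat.floor_le (by positivity)) (by positivity) (by positivity)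
        _ = lam * (bS X h s + 1 / 4000 * X) := by
            field_simp
        _ ≤ (1 + 1 / 4000) * (bS X h s + 1 / 4000 * X) := mul_le_mul_of_nonneg_right hlam hb0
        _ ≤ 5 * X := by nlinarith
    exact_mod_cast h5
  have hTT : ∀ n ∈ NN N (aS h s / (N : ℝ) ^ uj J (j + 1)) ((bS X h s + 1 / 4000 * X) / (N : ℝ) ^ uj J j),
      1 ≤ n ∧ n ≤ ⌊(bS X h s + 1 / 4000 * X) / (N : ℝ) ^ uj J j⌋₊ ∧
      ∀ p ∈ n.primeFactors, (X : ℝ) ^ (1 / 9 : ℝ) ≤ (p : ℝ) := by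
    intro n hn
    obtain ⟨g1, g2, g3⟩ := NN_mem hn
    refine ⟨g1, g2, fun p hp => ?_⟩
    have h5 := g3 p hp
    have h6 : (N : ℝ) ^ (1 / 4 : ℝ) ≤ (N : ℝ) ^ (667 / 1000 : ℝ) :=
      Real.rpow_le_rpow_of_exponent_le (by linarith) (by norm_num)
    linarith [hSz.a]
  have hter := hTE z (hr (s * ((a : ℤ) - h)) m₀) (ZT h s Y Om) (S.D.clT hs z N) (S.cop hm₀ hmz hs)
    hnotdvd _ _ _ hM0 hM01 hM1 hMY _ hTT
  have hh0 : h.natAbs ≠ 0 := Int.natAbs_ne_zero.2 hh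
  have hhN : h.natAbs ≤ N ^ 3 := by
    have h5 := S.hX
    have h6 := S.XN
    have h7 : (N + 1) ^ 2 ≤ N ^ 3 := by nlinarith
    omega
  have hms0 : 0 ≤ ms N X J h s j := by
    unfold ms
    positivity
  have hcb := (hCB (ℕ × ℕ) ((TB N X J (1 / 4000) h s j).filter
    (fun x => x.1 * x.2 ≡ hr (s * ((a : ℤ) - h)) m₀ [MOD m₀])) (fun x => vZ (ZT h s Y Om) z N (x.1 * x.2))
    (gC (ZT h s Y Om)) (ms N X J h s j / (Nat.totient m₀ : ℝ)) h.natAbs (by positivity) hh0 hhN (by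
      have h5 := S.D.dgT hs z S.Yw
      push_cast at h5 ⊢
      exact h5)).2
  have hprod : ∏ p ∈ P1 N z ε, (1 - gC (ZT h s Y Om) p) = ∏ p ∈ P1 N z ε, (1 - gC (ZA h Y Om) p) := by
    apply Finset.prod_congr rfl
    intro p hp
    rw [S.D.gT hs (mem_P1.1 hp).2.1]
  rw [hprod] at hcb
  refine le_trans (le_of_eq ?_) (hcb.trans ?_)
  · unfold FT
    congr!
  have h9 : Real.log N * ∑ q ∈ Lv' z ((N : ℝ) ^ (999 / 1000 : ℝ)),
      Rr ((TB N X J (1 / 4000) h s j).filter (fun x => x.1 * x.2 ≡ hr (s * ((a : ℤ) - h)) m₀ [MOD m₀]))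
      (fun x => vZ (ZT h s Y Om) z N (x.1 * x.2)) (gC (ZT h s Y Om))
      (ms N X J h s j / (Nat.totient m₀ : ℝ)) q ≤ Real.log N * (X / Real.log X ^ U) := by
    apply mul_le_mul_of_nonneg_left _ hL.le
    exact hter
  linarith

end Pool.Agent.Y843.CH
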