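import Pool.Agent.Y843.CH.Asy

/-!
# Chen's theorem in sifted sets
-/

set_option autoImplicit false

namespace Pool.Agent.Y843.CH

open Finset Filter Pool.Agent.W23.DC Pool.Agent.Y660.RP
open Pool.Agent.Y843.HS (Pr VV Pr_mem Pr_prime VV_split card_res)
open Pool.Agent.Y843.HG (Adm Z0 SP V1 V1_bounds log_floor VV_low)
open Pool.Agent.Y843.QD (vZ dvd_vZ)

/-- all the conditions on the size of `N` -/
theorem sizes (ε : ℝ) (hε : 0 < ε) (t : ℕ) (ht : 4 / ε ≤ t) (K : ℕ) (c : ℝ) (hc : 0 < c) (b : ℕ) :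
    ∃ N₀ : ℕ, ∀ N : ℕ, N₀ ≤ N → ∀ X : ℕ, N ^ 2 ≤ X → X < (N + 1) ^ 2 →
      b ≤ N ∧ (2 : ℝ) < (N : ℝ) ^ (1 / 4 : ℝ) ∧ 2 ≤ lo N (1 / 4) ∧ lo N (1 / 4) ≤ N ∧
      (b : ℝ) ≤ (X : ℝ) ^ (1 / (t : ℝ)) ∧ (X : ℝ) ^ (1 / (t : ℝ)) < (N : ℝ) ^ ε ∧ Sz N X ∧
      (X : ℝ) / lo N (1 / 4) + N ≤ c * X / Real.log X ^ K ∧ b * Real.log X ^ K ≤ c * Real.log X ^ (K + 2) := by
  have ht0 : (0 : ℝ) < t := lt_of_lt_of_le (by positivity) ht
  have hte : 1 / (t : ℝ) ≤ ε / 4 := by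
    rw [div_le_div_iff₀ ht0 (by norm_num)]
    rw [div_le_iff₀ hε] at ht
    linarith
  -- conditions on the real number `N`
  have e1 : ∀ᶠ x : ℝ in atTop, (4 : ℝ) ≤ x ^ (1 / 4 : ℝ) :=
    (tendsto_rpow_atTop (by norm_num)).eventually (eventually_ge_atTop _)
  have e2 : ∀ᶠ x : ℝ in atTop, (b : ℝ) ≤ x ^ (1 / (t : ℝ)) :=
    (tendsto_rpow_atTop (by positivity)).eventually (eventually_ge_atTop _)
  have e3 : ∀ᶠ x : ℝ in atTop, (2 : ℝ) ^ (ε / 4) + 1 ≤ x ^ (ε / 2) :=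
    (tendsto_rpow_atTop (by positivity)).eventually (eventually_ge_atTop _)
  have e4 : ∀ᶠ x : ℝ in atTop, (4 : ℝ) ≤ x ^ (1 / 36 : ℝ) :=
    (tendsto_rpow_atTop (by norm_num)).eventually (eventually_ge_atTop _)
  have e5 : ∀ᶠ x : ℝ in atTop, ‖Real.log x‖ ≤ 1 * ‖x ^ (1 / (8 * (K + 1)) : ℝ)‖ :=
    (isLittleO_log_rpow_atTop (by positivity)).bound one_pos
  have e6 : ∀ᶠ x : ℝ in atTop, 3 ^ (K + 1) * (3 / c) ≤ x ^ (1 / 8 : ℝ) :=
    (tendsto_rpow_atTop (by norm_num)).eventually (eventually_ge_atTop _)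
  have e7 : ∀ᶠ x : ℝ in atTop, max 1 (b / c) ≤ Real.log x :=
    Real.tendsto_log_atTop.eventually (eventually_ge_atTop _)
  have e8 := (tendsto_natCast_atTop_atTop (R := ℝ)).eventually
    (e1.and (e2.and (e3.and (e4.and (e5.and (e6.and (e7.and (eventually_ge_atTop (max (b : ℝ) 4)))))))))
  obtain ⟨N₀, hN₀⟩ := eventually_atTop.1 e8
  refine ⟨N₀, ?_⟩
  intro N hN X h1 h2
  obtain ⟨f1, f2, f3, f4, f5, f6, f7, f8⟩ := hN₀ N hN
  have hN4r : (4 : ℝ) ≤ N := (le_max_right _ _).trans f8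
  have hbN : (b : ℝ) ≤ N := (le_max_left _ _).trans f8
  have hN4 : 4 ≤ N := by exact_mod_cast hN4r
  have hN0 : (0 : ℝ) < N := by linarith
  have hN1 : (1 : ℝ) ≤ N := by linarith
  have hL1 : 1 ≤ Real.log N := (le_max_left _ _).trans f7
  obtain ⟨g1, g2⟩ := log_sq hN4 h1 h2
  have hNX : (N : ℝ) ^ 2 ≤ X := by exact_mod_cast h1
  have hXN : (X : ℝ) ≤ 2 * (N : ℝ) ^ 2 := by
    have : X ≤ 2 * N ^ 2 := by nlinarith
    exact_mod_cast this
  have hNleX : (N : ℝ) ≤ X := by nlinarith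
  have hX0 : (0 : ℝ) < X := by linarith
  have hX1 : (1 : ℝ) ≤ X := by linarith
  have hlX1 : 1 ≤ Real.log X := by linarith
  -- `lo`
  have hlo1 : (N : ℝ) ^ (1 / 4 : ℝ) ≤ (lo N (1 / 4) : ℝ) + 1 := by
    have h5 := (lo_lt_iff (by omega : 1 ≤ N) (1 / 4) (lo N (1 / 4) + 1)).1 (Nat.lt_succ_self _)
    push_cast at h5
    exact h5
  have hlo2 : (lo N (1 / 4) : ℝ) < (N : ℝ) ^ (1 / 4 : ℝ) := by
    have h5 : ¬ lo N (1 / 4) < lo N (1 / 4) := lt_irrefl _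
    rw [lo_lt_iff (by omega), not_le] at h5
    exact h5
  have hq : (N : ℝ) ^ (1 / 4 : ℝ) ≤ N := by
    calc (N : ℝ) ^ (1 / 4 : ℝ) ≤ (N : ℝ) ^ (1 : ℝ) := Real.rpow_le_rpow_of_exponent_le hN1 (by norm_num)
      _ = N := Real.rpow_one _
  refine ⟨by exact_mod_cast hbN, by linarith, ?_, ?_, ?_, ?_, ⟨?_, ?_⟩, ?_, ?_⟩
  · have : (2 : ℝ) ≤ lo N (1 / 4) := by linarith
    exact_mod_cast this
  · have : (lo N (1 / 4) : ℝ) ≤ N := by linarith
    exact_mod_cast this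
  · exact f2.trans (Real.rpow_le_rpow hN0.le hNleX (by positivity))
  · calc (X : ℝ) ^ (1 / (t : ℝ)) ≤ (X : ℝ) ^ (ε / 4) := Real.rpow_le_rpow_of_exponent_le hX1 hte
      _ ≤ (2 * (N : ℝ) ^ 2) ^ (ε / 4) := Real.rpow_le_rpow hX0.le hXN (by positivity)
      _ = (2 : ℝ) ^ (ε / 4) * (N : ℝ) ^ (ε / 2) := by
          rw [Real.mul_rpow (by norm_num) (by positivity), ← Real.rpow_natCast, ← Real.rpow_mul hN0.le]
          congr 2
          push_cast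
          ring
      _ < (N : ℝ) ^ (ε / 2) * (N : ℝ) ^ (ε / 2) := by
          apply mul_lt_mul_of_pos_right _ (Real.rpow_pos_of_pos hN0 _)
          linarith
      _ = (N : ℝ) ^ ε := by
          rw [← Real.rpow_add hN0]
          congr 1
          ring
  · have h3 : (X : ℝ) ^ (1 / 9 : ℝ) ≤ 2 * (N : ℝ) ^ (2 / 9 : ℝ) := by
      calc (X : ℝ) ^ (1 / 9 : ℝ) ≤ (2 * (N : ℝ) ^ 2) ^ (1 / 9 : ℝ) := Real.rpow_le_rpow hX0.le hXN (by norm_num)
        _ = (2 : ℝ) ^ (1 / 9 : ℝ) * (N : ℝ) ^ (2 / 9 : ℝ) := by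
          rw [Real.mul_rpow (by norm_num) (by positivity), ← Real.rpow_natCast, ← Real.rpow_mul hN0.le]
          congr 2
          push_cast
          ring
        _ ≤ 2 * (N : ℝ) ^ (2 / 9 : ℝ) := by
          apply mul_le_mul_of_nonneg_right _ (by positivity)
          calc (2 : ℝ) ^ (1 / 9 : ℝ) ≤ (2 : ℝ) ^ (1 : ℝ) :=
                Real.rpow_le_rpow_of_exponent_le (by norm_num) (by norm_num)
            _ = 2 := Real.rpow_one _
    have h4 : (N : ℝ) ^ (1 / 4 : ℝ) = (N : ℝ) ^ (2 / 9 : ℝ) * (N : ℝ) ^ (1 / 36 : ℝ) := by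
      rw [← Real.rpow_add hN0]
      norm_num
    have h5 : 1 ≤ (N : ℝ) ^ (2 / 9 : ℝ) := Real.one_le_rpow hN1 (by norm_num)
    rw [h4]
    nlinarith
  · calc (N : ℝ) ^ (667 / 1000 : ℝ) ≤ (N : ℝ) ^ (4 / 5 : ℝ) :=
          Real.rpow_le_rpow_of_exponent_le hN1 (by norm_num)
      _ = ((N : ℝ) ^ 2) ^ (2 / 5 : ℝ) := by
          rw [← Real.rpow_natCast, ← Real.rpow_mul hN0.le]
          norm_num
      _ ≤ (X : ℝ) ^ (2 / 5 : ℝ) := Real.rpow_le_rpow (by positivity) hNX (by norm_num)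
  · -- the bad primes
    have h3 : (X : ℝ) / lo N (1 / 4) ≤ 2 * X / (N : ℝ) ^ (1 / 4 : ℝ) := by
      rw [div_le_div_iff₀ (by linarith) (by linarith)]
      nlinarith
    have h4 : (N : ℝ) ≤ X / (N : ℝ) ^ (1 / 4 : ℝ) := by
      rw [le_div_iff₀ (by linarith)]
      nlinarith
    have h5 : (X : ℝ) / lo N (1 / 4) + N ≤ 3 * X / (N : ℝ) ^ (1 / 4 : ℝ) := by
      have : 3 * (X : ℝ) / (N : ℝ) ^ (1 / 4 : ℝ) = 2 * X / (N : ℝ) ^ (1 / 4 : ℝ) + X / (N : ℝ) ^ (1 / 4 : ℝ) := by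
        ring
      linarith
    refine h5.trans ?_
    rw [div_le_div_iff₀ (by linarith) (by positivity)]
    have h6 : Real.log X ^ K ≤ 3 ^ (K + 1) * (N : ℝ) ^ (1 / 8 : ℝ) := by
      have h7 : Real.log X ≤ 3 * Real.log N := by linarith
      have h8 : Real.log N ≤ (N : ℝ) ^ (1 / (8 * (K + 1)) : ℝ) := by
        rw [one_mul, Real.norm_of_nonneg (by linarith), Real.norm_of_nonneg (by positivity)] at f5
        exact f5
      calc Real.log X ^ K ≤ (3 * Real.log N) ^ K := pow_le_pow_left₀ (by linarith) h7 K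
        _ ≤ (3 * Real.log N) ^ (K + 1) := pow_le_pow_right₀ (by linarith) (Nat.le_succ _)
        _ = 3 ^ (K + 1) * Real.log N ^ (K + 1) := by rw [mul_pow]
        _ ≤ 3 ^ (K + 1) * ((N : ℝ) ^ (1 / (8 * (K + 1)) : ℝ)) ^ (K + 1) := by
            apply mul_le_mul_of_nonneg_left _ (by positivity)
            exact pow_le_pow_left₀ (by linarith) h8 _
        _ = 3 ^ (K + 1) * (N : ℝ) ^ (1 / 8 : ℝ) := by
            rw [← Real.rpow_natCast ((N : ℝ) ^ (1 / (8 * (K + 1)) : ℝ)), ← Real.rpow_mul hN0.le]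
            congr 2
            push_cast
            field_simp
    have h9 : (N : ℝ) ^ (1 / 4 : ℝ) = (N : ℝ) ^ (1 / 8 : ℝ) * (N : ℝ) ^ (1 / 8 : ℝ) := by
      rw [← Real.rpow_add hN0]
      norm_num
    rw [h9]
    have h10 : 3 * (X : ℝ) * Real.log X ^ K ≤ 3 * X * (3 ^ (K + 1) * (N : ℝ) ^ (1 / 8 : ℝ)) :=
      mul_le_mul_of_nonneg_left h6 (by positivity)
    refine h10.trans ?_
    have h11 : 3 ^ (K + 1) * 3 ≤ c * (N : ℝ) ^ (1 / 8 : ℝ) := by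
      rw [mul_div_assoc', div_le_iff₀ hc] at f6
      linarith
    have h12 : (0 : ℝ) ≤ X * (N : ℝ) ^ (1 / 8 : ℝ) := by positivity
    nlinarith
  · -- the power of the logarithm
    have h3 : (b : ℝ) ≤ c * Real.log X := by
      have h4 := (le_max_right _ _).trans f7
      rw [div_le_iff₀ hc] at h4
      nlinarith
    have h5 : 0 < Real.log X ^ K := by positivity
    rw [pow_add]
    have h6 : c * Real.log X ≤ c * Real.log X ^ 2 := by
      apply mul_le_mul_of_nonneg_left _ hc.le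
      nlinarith
    calc (b : ℝ) * Real.log X ^ K ≤ (c * Real.log X ^ 2) * Real.log X ^ K :=
          mul_le_mul_of_nonneg_right (h3.trans h6) h5.le
      _ = _ := by ring

theorem lam_le (N J : ℕ) (hN : 4 ≤ N) (hJ : J = ⌈417 / 1000 * Real.log N / Real.log (1 + 1 / 4000)⌉₊) :
    1 ≤ J ∧ (N : ℝ) ^ (417 / 1000 / (J : ℝ)) ≤ 1 + 1 / 4000 ∧
      (J : ℝ) ≤ 1 / Real.log (1 + 1 / 4000) * Real.log N + 1 := by
  have hN0 : (1 : ℝ) < N := by exact_mod_cast (by omega : 1 < N)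
  have hL : 0 < Real.log N := Real.log_pos hN0
  have hl : 0 < Real.log (1 + 1 / 4000 : ℝ) := Real.log_pos (by norm_num)
  have h0 : 0 < 417 / 1000 * Real.log N / Real.log (1 + 1 / 4000) := by positivity
  have hJ1 : 1 ≤ J := by
    rw [hJ]
    exact Nat.one_le_iff_ne_zero.2 (Nat.ceil_pos.2 h0).ne'
  have hJr : (1 : ℝ) ≤ J := by exact_mod_cast hJ1
  refine ⟨hJ1, ?_, ?_⟩
  · rw [← Real.log_le_log_iff (Real.rpow_pos_of_pos (by linarith) _) (by norm_num),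
      Real.log_rpow (by linarith), div_mul_eq_mul_div, div_le_iff₀ (by linarith)]
    have h1 := Nat.le_ceil (417 / 1000 * Real.log N / Real.log (1 + 1 / 4000))
    rw [← hJ, div_le_iff₀ hl] at h1
    linarith
  · have h1 := Nat.ceil_lt_add_one h0.le
    rw [← hJ] at h1
    have h2 : 417 / 1000 * Real.log N / Real.log (1 + 1 / 4000) ≤ 1 / Real.log (1 + 1 / 4000) * Real.log N := by
      have e : 1 / Real.log (1 + 1 / 4000) * Real.log (N : ℝ) = Real.log N / Real.log (1 + 1 / 4000) := by ring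
      rw [e]
      apply div_le_div_of_nonneg_right _ hl.le
      linarith
    linarith

end Pool.Agent.Y843.CH
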