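import Pool.Agent.Y843.CH.Fin2

/-!
# Chen's theorem in sifted sets: assembly
-/

set_option autoImplicit false

namespace Pool.Agent.Y843.CH

open Finset Filter Pool.Agent.W23.DC Pool.Agent.Y660.RP
open Pool.Agent.Y843.HS (Pr VV Pr_mem Pr_prime VV_split card_res)
open Pool.Agent.Y843.HG (Adm Z0 SP V1 V1_bounds log_floor VV_low)
open Pool.Agent.Y843.QD (vZ dvd_vZ)

theorem exists_a {r Y z : ℕ} {Om : ℕ → Finset ℕ} (hOm : Adm r Y Om) (hzY : z ≤ Y) :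
    ∃ a : ℕ, ∀ p ∈ Pr 0 z, a % p ∉ Z0 Om p := by
  classical
  have hsub : ∀ p ∈ Pr 0 z, p ∈ Pr 0 Y := by
    intro p hp
    rw [Pr_mem] at hp ⊢
    exact ⟨⟨hp.1.1, by omega⟩, hp.2⟩
  have h1 := card_res (Pr 0 z) (fun p hp => Pr_prime hp) (fun p => (range p).filter (fun c => c ∉ Z0 Om p))
    (fun p _ c hc => mem_range.1 (mem_filter.1 hc).1)
  have h2 : 0 < ∏ p ∈ Pr 0 z, ((range p).filter (fun c => c ∉ Z0 Om p)).card := by
    apply prod_pos
    intro p hp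
    rw [card_pos]
    by_contra hcon
    rw [not_nonempty_iff_eq_empty, filter_eq_empty_iff] at hcon
    have h3 : range p ⊆ Z0 Om p := fun c hc => not_not.1 (hcon hc)
    have h4 := card_le_card h3
    rw [card_range, hOm.card (hsub p hp)] at h4
    have := (hOm p (hsub p hp)).2.1
    omega
  rw [← h1, card_pos] at h2
  obtain ⟨a, ha⟩ := h2
  rw [mem_filter] at ha
  exact ⟨a, fun p hp => (mem_filter.1 (ha.2 p hp)).2⟩

theorem VV_nonneg {r Y : ℕ} {Om : ℕ → Finset ℕ} (hOm : Adm r Y Om) : 0 ≤ VV (Z0 Om) 0 Y := by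
  unfold VV
  apply Finset.prod_nonneg
  intro p hp
  have h2 : (0 : ℝ) < p := by exact_mod_cast (Pr_prime hp).pos
  rw [sub_nonneg, div_le_one h2, hOm.card hp]
  exact_mod_cast (hOm p hp).2.1.le

theorem errs_le {L lX X c EB lo N J CJ b : ℝ} {K : ℕ} (hL : 0 < L) (hLX : L ≤ lX) (hlX : 1 ≤ lX)
    (hX : 0 ≤ X) (hJ : J ≤ CJ * L + 1) (hJ0 : 0 ≤ J) (hCJ : 0 ≤ CJ) (hb : CJ + 2 ≤ b)
    (h1 : b * lX ^ K ≤ c * lX ^ (K + 2)) (hE : EB ≤ X / lX ^ (K + 4)) (hE0 : 0 ≤ EB)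
    (h2 : lo + N ≤ c * X / lX ^ K) :
    L * EB + 1 / 2 * (2 * (J * (L * EB))) + (lo + N) ≤ 2 * c * (X / lX ^ K) := by
  have hlX0 : 0 < lX := by linarith
  have e1 : L * EB + 1 / 2 * (2 * (J * (L * EB))) = (1 + J) * L * EB := by ring
  have e2 : (1 + J) * L ≤ b * lX ^ 2 := by
    have a1 : 1 + J ≤ b * lX := by
      calc 1 + J ≤ CJ * L + 2 := by linarith
        _ ≤ CJ * lX + 2 * lX := by
            have := mul_le_mul_of_nonneg_left hLX hCJ
            linarith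
        _ = (CJ + 2) * lX := by ring
        _ ≤ b * lX := mul_le_mul_of_nonneg_right hb hlX0.le
    have hb0 : 0 ≤ b * lX := by linarith
    calc (1 + J) * L ≤ (b * lX) * lX := mul_le_mul a1 hLX hL.le hb0
      _ = _ := by ring
  have e3 : (1 + J) * L * EB ≤ b * lX ^ 2 * (X / lX ^ (K + 4)) := by
    apply mul_le_mul e2 hE hE0
    have : 0 ≤ b := by linarith
    positivity
  have e4 : b * lX ^ 2 * (X / lX ^ (K + 4)) ≤ c * X / lX ^ K := by
    rw [mul_div_assoc', div_le_div_iff₀ (by positivity) (by positivity)]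
    have : b * lX ^ 2 * X * lX ^ K = (b * lX ^ K) * (X * lX ^ 2) := by ring
    rw [this]
    have h3 : c * X * lX ^ (K + 4) = (c * lX ^ (K + 2)) * (X * lX ^ 2) := by
      rw [pow_add lX K 4, pow_add lX K 2]
      ring
    rw [h3]
    exact mul_le_mul_of_nonneg_right h1 (by positivity)
  rw [e1]
  have e5 : 2 * c * (X / lX ^ K) = c * X / lX ^ K + c * X / lX ^ K := by ring
  linarith

theorem main_low {A0 ε V φ X L lX k Q : ℝ} (hA0 : 0 < A0) (hε : 0 < ε) (hφ : 0 < φ) (hX : 0 ≤ X)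
    (hL : 0 < L) (h2 : 2 * L ≤ lX) (hk : 0 < k) (hQ : 0 ≤ Q) (hV : Q * (k * lX) ≤ V) :
    4 / 10000 * A0 * ε * k / φ * X * Q ≤ 2 / 10000 * A0 * (ε * (V / φ)) * (X / L) := by
  have h3 : 2 * k * Q ≤ V / L := by
    rw [le_div_iff₀ hL]
    calc 2 * k * Q * L = (Q * k) * (2 * L) := by ring
      _ ≤ (Q * k) * lX := mul_le_mul_of_nonneg_left h2 (by positivity)
      _ = Q * (k * lX) := by ring
      _ ≤ V := hV
  have h4 : 4 / 10000 * A0 * ε * k / φ * X * Q = (2 / 10000 * A0 * ε / φ * X) * (2 * k * Q) := by ring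
  have h5 : 2 / 10000 * A0 * (ε * (V / φ)) * (X / L) = (2 / 10000 * A0 * ε / φ * X) * (V / L) := by ring
  rw [h4, h5]
  exact mul_le_mul_of_nonneg_left h3 (by positivity)

theorem kfac {Q Vz VY VN C1 c1 t lY lX L V : ℝ} (hQ : 0 ≤ Q) (hVz : 0 < Vz) (hVY : 0 < VY)
    (hVN : 0 < VN) (hC1 : 0 < C1) (hc1 : 0 < c1) (ht : 0 < t) (hlX : 0 < lX) (hL : 0 < L)
    (hlY : lX / (2 * t) ≤ lY) (h2 : 2 * L ≤ lX) (hY : VY ≤ C1 / lY) (hN : c1 / L ≤ VN)
    (hV : Q * (Vz / VY) * (VN / VY) ^ 2 ≤ V) :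
    Q * (Vz / (2 * t * C1) * (c1 / (t * C1)) ^ 2 * lX) ≤ V := by
  have hlY0 : 0 < lY := lt_of_lt_of_le (by positivity) hlY
  refine le_trans ?_ hV
  have e1 : Vz / (2 * t * C1) * lX ≤ Vz / VY := by
    rw [div_mul_eq_mul_div, div_le_div_iff₀ (by positivity) hVY]
    rw [le_div_iff₀ hlY0] at hY
    rw [div_le_iff₀ (by positivity)] at hlY
    calc Vz * lX * VY ≤ Vz * (lY * (2 * t)) * VY := by gcongr
      _ = Vz * (2 * t) * (VY * lY) := by ring
      _ ≤ Vz * (2 * t) * C1 := by gcongr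
      _ = Vz * (2 * t * C1) := by ring
  have e2 : c1 / (t * C1) ≤ VN / VY := by
    rw [div_le_div_iff₀ (by positivity) hVY]
    rw [le_div_iff₀ hlY0] at hY
    rw [div_le_iff₀ hL] at hN
    rw [div_le_iff₀ (by positivity)] at hlY
    have h3 : L ≤ lY * t := by nlinarith
    calc c1 * VY ≤ (VN * L) * VY := by gcongr
      _ ≤ (VN * (lY * t)) * VY := by gcongr
      _ = VN * t * (VY * lY) := by ring
      _ ≤ VN * t * C1 := by gcongr
      _ = VN * (t * C1) := by ring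
  have e3 : (c1 / (t * C1)) ^ 2 ≤ (VN / VY) ^ 2 := pow_le_pow_left₀ (by positivity) e2 2
  calc Q * (Vz / (2 * t * C1) * (c1 / (t * C1)) ^ 2 * lX) =
        Q * (Vz / (2 * t * C1) * lX) * (c1 / (t * C1)) ^ 2 := by ring
    _ ≤ Q * (Vz / VY) * (VN / VY) ^ 2 := by gcongr

theorem le_sqrt_aux {A X : ℕ} (h : (A + 1) ^ 2 ≤ X) : A ≤ Nat.sqrt X := by
  rw [Nat.le_sqrt']
  exact (Nat.pow_le_pow_left (Nat.le_succ A) 2).trans h

theorem le_of_sq_le {A N X : ℕ} (h : A ≤ N) (h2 : N ^ 2 ≤ X) : A ≤ X := by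
  have h3 : N ≤ N ^ 2 := Nat.le_self_pow (by norm_num) N
  exact h.trans (h3.trans h2)

theorem sq_le_cube {N : ℕ} (h : 4 ≤ N) : (N + 1) ^ 2 ≤ N ^ 3 := by
  have h1 : (N + 1) ^ 2 = N ^ 2 + 2 * N + 1 := by ring
  have h2 : N ^ 3 = N ^ 2 * N := by ring
  have h3 : N ^ 2 * 4 ≤ N ^ 2 * N := Nat.mul_le_mul_left _ h
  have h4 : N * 4 ≤ N ^ 2 := by rw [pow_two]; exact Nat.mul_le_mul_left _ h
  omega

/-- **Chen's theorem, uniformly in the shift and inside sifted sets** -/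
theorem chen_of' (hC : St_CORE) (hB : St_BVW) (hLv : St_BLV) (hM : St_MASS) (hNm : St_NUM) (hW : St_WT)
    (r : ℕ) : ∃ t : ℕ, 32 ≤ t ∧ ∃ c : ℝ, 0 < c ∧ ∃ X₀ : ℕ, ∀ X : ℕ, X₀ ≤ X → ∀ h : ℤ, h ≠ 0 →
      h.natAbs ≤ X → ∀ Om : ℕ → Finset ℕ, Dat r ⌊(X : ℝ) ^ (1 / (t : ℝ))⌋₊ h Om →
      c * X * VV (Z0 Om) 0 ⌊(X : ℝ) ^ (1 / (t : ℝ))⌋₊ ≤
        ((GD (Nat.sqrt X) X ⌊(X : ℝ) ^ (1 / (t : ℝ))⌋₊ h Om).card : ℝ) := by
  classical
  obtain ⟨A0, C0, hA0, hcore⟩ := hC (r + 1) (by omega)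
  set z := max C0 (r + 5) with hz
  have hzC : C0 ≤ z := le_max_left _ _
  have hzr : r + 5 ≤ z := le_max_right _ _
  obtain ⟨ε, hε, hε8, N0, hN02, hN0⟩ := hcore z hzC (A0 / 10000) (by positivity)
  set t := ⌈4 / ε⌉₊ with ht
  have ht4 : 4 / ε ≤ t := Nat.le_ceil _
  have ht1 : 1 ≤ t := Nat.one_le_iff_ne_zero.2 (Nat.ceil_pos.2 (by positivity)).ne'
  have ht32 : 32 ≤ t := by
    have h1 : (32 : ℝ) ≤ 4 / ε := by
      rw [le_div_iff₀ hε]
      linarith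
    exact_mod_cast h1.trans ht4
  have ht0 : (0 : ℝ) < t := by exact_mod_cast ht1
  set m₀ := ∏ p ∈ Pr 0 z, p with hm₀
  have hm₀p : ∀ p ∈ Pr 0 z, p.Prime := fun p hp => Pr_prime hp
  have hm₀1 : 0 < m₀ := prod_pos fun p hp => (Pr_prime hp).pos
  have hm₀s : Squarefree m₀ := by
    rw [hm₀]
    exact Finset.squarefree_prod_of_pairwise_isCoprime (fun p hp q hq hpq => by
      exact Nat.coprime_iff_isRelPrime.1
        ((Nat.coprime_primes (Pr_prime hp) (Pr_prime hq)).2 hpq))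
      (fun p h => (Pr_prime h).prime.squarefree)
  have hm₀z : ∀ q : ℕ, q.Prime → q ∣ m₀ → q ≤ z := by
    intro p hp h
    rw [hm₀, hp.prime.dvd_finsetProd_iff] at h
    obtain ⟨q, hq, hpq⟩ := h
    rw [(Nat.prime_dvd_prime_iff_eq hp (Pr_prime hq)).1 hpq]
    exact (Pr_mem.1 hq).1.2
  set K := 2 * (r + 1) with hK
  obtain ⟨X1, hX1⟩ := aer hB m₀ (r + 1) (K + 4) (by omega) hm₀s
  obtain ⟨X2, hX2⟩ := ter hLv m₀ (r + 1) (K + 4) (by omega) hm₀s
  obtain ⟨N3, hN3⟩ := hM (1 / 4000) (by norm_num)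
  obtain ⟨N4, hN4⟩ := hW
  obtain ⟨N5, hN5⟩ := pnt_sq
  obtain ⟨cV, hcV, hV⟩ := VV_low (r + 1)
  obtain ⟨c1, C1, hc1, hC1, hVb⟩ := V1_bounds
  obtain ⟨X6, hX6⟩ := log_floor t ht1
  have hφ0 : (0 : ℝ) < m₀.totient := by exact_mod_cast Nat.totient_pos.2 hm₀1
  have hVz := V1_pos z
  set k := V1 z / (2 * t * C1) * (c1 / (t * C1)) ^ 2 with hk
  have hk0 : 0 < k := by positivity
  set cm := 4 / 10000 * A0 * ε * k / m₀.totient with hcm
  have hcm0 : 0 < cm := by positivity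
  set CJ := 1 / Real.log (1 + 1 / 4000 : ℝ) with hCJ
  have hCJ0 : 0 < CJ := by
    have : 0 < Real.log (1 + 1 / 4000 : ℝ) := Real.log_pos (by norm_num)
    positivity
  set b := max (max ⌈CJ + 2⌉₊ (z + 5)) (max (2 * (r + 1) + 5) (max 8 4000)) with hb
  have hb1 : CJ + 2 ≤ b := by
    have h1 : ((⌈CJ + 2⌉₊ : ℕ) : ℝ) ≤ b := by
      exact_mod_cast (le_max_left _ _).trans (le_max_left _ _)
    exact (Nat.le_ceil _).trans h1
  have hb2 : z + 5 ≤ b := (le_max_right _ _).trans (le_max_left _ _)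
  have hb3 : 2 * (r + 1) + 5 ≤ b := (le_max_left _ _).trans (le_max_right _ _)
  have hb4 : 4000 ≤ b := (le_max_right _ _).trans ((le_max_right _ _).trans (le_max_right _ _))
  obtain ⟨N7, hN7⟩ := sizes ε hε t ht4 K (cm * cV / 4) (by positivity) b
  set NM := max (max (max N0 N3) (max N4 N5)) N7 with hNM
  refine ⟨t, ht32, cm / 2, by positivity, max (max X1 X2) (max X6 ((NM + 1) ^ 2)), ?_⟩
  intro X hX h hh hhX Om D
  have hXX1 : X1 ≤ X := ((le_max_left _ _).trans (le_max_left _ _)).trans hX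
  have hXX2 : X2 ≤ X := ((le_max_right _ _).trans (le_max_left _ _)).trans hX
  have hXX6 : X6 ≤ X := ((le_max_left _ _).trans (le_max_right _ _)).trans hX
  have hXX7 : (NM + 1) ^ 2 ≤ X := ((le_max_right _ _).trans (le_max_right _ _)).trans hX
  set N := Nat.sqrt X with hN
  have hNX : N ^ 2 ≤ X := Nat.sqrt_le' X
  have hXN : X < (N + 1) ^ 2 := Nat.lt_succ_sqrt' X
  have hNMN : NM ≤ N := by
    exact le_sqrt_aux hXX7
  have hNN0 : N0 ≤ N := ((le_max_left _ _).trans ((le_max_left _ _).trans (le_max_left _ _))).trans hNMN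
  have hNN3 : N3 ≤ N := ((le_max_right _ _).trans ((le_max_left _ _).trans (le_max_left _ _))).trans hNMN
  have hNN4 : N4 ≤ N := ((le_max_left _ _).trans ((le_max_right _ _).trans (le_max_left _ _))).trans hNMN
  have hNN5 : N5 ≤ N := ((le_max_right _ _).trans ((le_max_right _ _).trans (le_max_left _ _))).trans hNMN
  have hNN7 : N7 ≤ N := (le_max_right _ _).trans hNMN
  obtain ⟨s1, s2, s3, s4, s5, s6, s7, s8, s9⟩ := hN7 N hNN7 X hNX hXN
  obtain ⟨y1, y2⟩ := hX6 X hXX6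
  set w := (X : ℝ) ^ (1 / (t : ℝ)) with hw
  set Y := ⌊w⌋₊ with hY
  have hw0 : 0 ≤ w := by positivity
  have hYw : (Y : ℝ) ≤ w := Nat.floor_le hw0
  have hbY : b ≤ Y := Nat.le_floor s5
  have hN4000 : 4000 ≤ N := hb4.trans s1
  have hNr : (4000 : ℝ) ≤ N := by exact_mod_cast hN4000
  have hX4 : 4000 ≤ X := le_of_sq_le hN4000 hNX
  have hXr : (4000 : ℝ) ≤ X := by exact_mod_cast hX4
  obtain ⟨a, ha⟩ := exists_a D.adm (show z ≤ Y by omega)
  have S : St r N X z Y m₀ a ε h Om :=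
    ⟨D, by omega, s2, hNX, hXN, hhX, by omega, lt_of_le_of_lt hYw s6, hε, hε8,
      fun q hq => dvd_prod_of_mem _ hq, ha⟩
  have hL : 0 < Real.log N := Real.log_pos (by linarith)
  obtain ⟨g1, g2⟩ := log_sq (show 4 ≤ N by omega) hNX hXN
  have hlX : 0 < Real.log X := by linarith
  have hL1 : 1 ≤ Real.log N := by
    have h1 : Real.exp 1 ≤ N := by linarith [Real.exp_one_lt_d9]
    rw [← Real.log_exp 1]
    exact Real.log_le_log (Real.exp_pos 1) h1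
  have hlX1 : 1 ≤ Real.log X := by linarith
  -- the number of blocks
  obtain ⟨J, hJd⟩ : ∃ J : ℕ, J = ⌈417 / 1000 * Real.log N / Real.log (1 + 1 / 4000)⌉₊ := ⟨_, rfl⟩
  obtain ⟨hJ1, hlam, hJ2⟩ := lam_le N J (by omega) hJd
  rw [← hCJ] at hJ2
  -- the inputs for this `N`
  have hCB : CB (r + 1) z N ε A0 (A0 / 10000) := (hN0 N hNN0).2
  have hTE : TE m₀ (r + 1) (K + 4) N X := hX2 X hXX2 N (by omega) hNX
  have hMB : MB N := hN3 N hNN3
  have hnotdvd : ∀ p ∈ Pr z N, ¬ p ∣ m₀ := by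
    intro p hp hd
    have := hm₀z p (Pr_prime hp) hd
    have := (Pr_mem.1 hp).1.1
    omega
  have hEA := hX1 X hXX1 N (by omega) hNX z a (ZA h Y Om) (D.clA z N) (S.cop_a hm₀z) hnotdvd
  have hh0 : h.natAbs ≠ 0 := Int.natAbs_ne_zero.2 hh
  have hhN : h.natAbs ≤ N ^ 3 := by
    have h7 : (N + 1) ^ 2 ≤ N ^ 3 := sq_le_cube (le_trans (by norm_num) hN4000)
    omega
  set V := ∏ p ∈ P1 N z ε, (1 - gC (ZA h Y Om) p) with hVd
  have hEX : (0 : ℝ) ≤ X / Real.log X ^ (K + 4) := by positivity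
  -- the lower bound
  have hlow := (hCB ℕ ((PNX N X).filter (fun p => p ≡ a [MOD m₀])) (fun p => vZ (ZA h Y Om) z N p)
    (gC (ZA h Y Om)) ((PNX N X).card / (Nat.totient m₀ : ℝ)) h.natAbs (by positivity) hh0 hhN (by
      have h5 := S.D.dg z S.Yw
      exact h5)).1
  rw [← hVd] at hlow
  have hsum := S.sum (hN4 N hNN4)
  have hlow2 : ε * ((PNX N X).card / (Nat.totient m₀ : ℝ) * V) * (A0 * (1000 / 998 * LBc) - A0 / 10000) -
      Real.log N * (X / Real.log X ^ (K + 4)) ≤ ((GD N X Y h Om).card : ℝ) +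
      1 / 2 * ((TY N X z Y m₀ a h Om).card : ℝ) + ((BD N X h).card : ℝ) := by
    refine le_trans ?_ hsum
    refine le_trans ?_ hlow
    have := mul_le_mul_of_nonneg_left hEA hL.le
    linarith
  -- the upper bound
  have hty := typ_le (N := N) (X := X) (J := J) (z := z) (Y := Y) (m₀ := m₀) (a := a) (ε := ε)
    (δ := 1 / 4000) (h := h) (Om := Om) (by omega) hJ1 (by norm_num) hm₀1
  have hbl : ∀ s : ℤ, (s = 1 ∨ s = -1) → ∑ j ∈ range J, ((FT N X J z Y m₀ a ε (1 / 4000) h Om s j).card : ℝ) ≤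
      ε * ((∑ j ∈ range J, ms N X J h s j) / (Nat.totient m₀ : ℝ) * V) * (1000 / 998 * A0 + A0 / 10000) +
        J * (Real.log N * (X / Real.log X ^ (K + 4))) := by
    intro s hs
    have h1 : ∀ j ∈ range J, ((FT N X J z Y m₀ a ε (1 / 4000) h Om s j).card : ℝ) ≤
        ε * (ms N X J h s j / (Nat.totient m₀ : ℝ) * V) * (1000 / 998 * A0 + A0 / 10000) +
          Real.log N * (X / Real.log X ^ (K + 4)) := fun j hj =>
      S.block hh hm₀1 hm₀z hN4000 s7 hCB hTE hJ1 hlam hs (mem_range.1 hj)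
    refine (Finset.sum_le_sum h1).trans (le_of_eq ?_)
    rw [Finset.sum_add_distrib, Finset.sum_const, card_range, nsmul_eq_mul]
    congr 1
    rw [Finset.sum_div, Finset.sum_mul, Finset.mul_sum, Finset.sum_mul]
  have hup : ((TY N X z Y m₀ a h Om).card : ℝ) ≤
      ε * ((∑ j ∈ range J, ms N X J h 1 j + ∑ j ∈ range J, ms N X J h (-1) j) / (Nat.totient m₀ : ℝ) * V) *
        (1000 / 998 * A0 + A0 / 10000) + 2 * (J * (Real.log N * (X / Real.log X ^ (K + 4)))) := by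
    have h1 := hbl 1 (Or.inl rfl)
    have h2 := hbl (-1) (Or.inr rfl)
    have h3 : ((TY N X z Y m₀ a h Om).card : ℝ) ≤
        ∑ j ∈ range J, ((FT N X J z Y m₀ a ε (1 / 4000) h Om 1 j).card : ℝ) +
        ∑ j ∈ range J, ((FT N X J z Y m₀ a ε (1 / 4000) h Om (-1) j).card : ℝ) := by
      exact_mod_cast hty
    have h4 : ε * ((∑ j ∈ range J, ms N X J h 1 j + ∑ j ∈ range J, ms N X J h (-1) j) /
        (Nat.totient m₀ : ℝ) * V) * (1000 / 998 * A0 + A0 / 10000) =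
        ε * ((∑ j ∈ range J, ms N X J h 1 j) / (Nat.totient m₀ : ℝ) * V) * (1000 / 998 * A0 + A0 / 10000) +
        ε * ((∑ j ∈ range J, ms N X J h (-1) j) / (Nat.totient m₀ : ℝ) * V) *
          (1000 / 998 * A0 + A0 / 10000) := by
      ring
    linarith
  -- the combination
  have hpl := S.prod_low (by omega) (by omega) (by omega)
  rw [← hVd] at hpl
  have hQ := VV_nonneg D.adm
  have hVY := V1_pos Y
  have hVN := V1_pos N
  have hV0 : 0 ≤ V := le_trans (by positivity) hpl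
  have hW0 : (0 : ℝ) ≤ X / Real.log N := by positivity
  obtain ⟨p1, p2⟩ := hN5 N hNN5 X hNX hXN
  have hM2 := S.mass2 hN4000 hMB hJ1 hlam
  have hfin := arith_final hε hV0 hφ0 hA0 hNm.1 hW0 p1 p2 hM2 hlow2 hup
  have hBD := BD_card (X := X) (h := h) s3 s4
  have hkf := kfac hQ hVz hVY hVN hC1 hc1 ht0 hlX hL y2 g1 (hVb Y (by omega)).2 (hVb N (by omega)).1 hpl
  rw [← hk] at hkf
  have hml := main_low hA0 hε hφ0 (Nat.cast_nonneg X) hL g1 hk0 hQ hkf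
  rw [← hcm] at hml
  have hEr := errs_le (K := K) (c := cm * cV / 4) (CJ := CJ) (b := b) hL (by linarith) hlX1
    (Nat.cast_nonneg X) hJ2 (Nat.cast_nonneg J) hCJ0.le hb1 s9 le_rfl hEX s8
  -- the lower bound for the product
  have hVVl := hV Y (by omega) (Z0 Om) (by
    intro p hp
    refine ⟨?_, ?_, D.adm.lt hp⟩
    · rw [D.adm.card hp]
      have := (D.adm p hp).1
      omega
    · rw [D.adm.card hp]
      exact (D.adm p hp).2.1)
  have hYX : (Y : ℝ) ≤ X := by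
    have h1 : w ≤ X := by
      calc w ≤ (X : ℝ) ^ (1 : ℝ) := by
            apply Real.rpow_le_rpow_of_exponent_le (by linarith)
            rw [div_le_one ht0]
            exact_mod_cast ht1
        _ = X := Real.rpow_one _
    linarith
  have hlYX : Real.log Y ≤ Real.log X :=
    Real.log_le_log (by exact_mod_cast (show 0 < Y by omega)) hYX
  have hlY0 : 0 < Real.log Y := Real.log_pos (by exact_mod_cast (show 1 < Y by omega))
  have hVX : cV / Real.log X ^ K ≤ VV (Z0 Om) 0 Y := by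
    refine le_trans ?_ hVVl
    apply div_le_div_of_nonneg_left hcV.le (by positivity)
    exact pow_le_pow_left₀ hlY0.le hlYX _
  have hE2 : 2 * (cm * cV / 4) * (X / Real.log X ^ K) ≤ cm / 2 * X * VV (Z0 Om) 0 Y := by
    have h1 : 2 * (cm * cV / 4) * (X / Real.log X ^ K) = cm / 2 * X * (cV / Real.log X ^ K) := by ring
    rw [h1]
    exact mul_le_mul_of_nonneg_left hVX (by positivity)
  linarith

theorem chen_of (hC : St_CORE) (hB : St_BVW) (hLv : St_BLV) (hM : St_MASS) (hNm : St_NUM) (hW : St_WT)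
    (r : ℕ) : ∃ t : ℕ, 1 ≤ t ∧ ∃ c : ℝ, 0 < c ∧ ∃ X₀ : ℕ, ∀ X : ℕ, X₀ ≤ X → ∀ h : ℤ, h ≠ 0 →
      h.natAbs ≤ X → ∀ Om : ℕ → Finset ℕ, Dat r ⌊(X : ℝ) ^ (1 / (t : ℝ))⌋₊ h Om →
      c * X * VV (Z0 Om) 0 ⌊(X : ℝ) ^ (1 / (t : ℝ))⌋₊ ≤
        ((GD (Nat.sqrt X) X ⌊(X : ℝ) ^ (1 / (t : ℝ))⌋₊ h Om).card : ℝ) := by
  obtain ⟨t, ht, h⟩ := chen_of' hC hB hLv hM hNm hW r
  exact ⟨t, le_trans (by norm_num) ht, h⟩

end Pool.Agent.Y843.CH
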