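import Pool.Agent.Y843.CH.Typ

/-!
# Chen's weights: from the weighted sum to the number of the good primes
-/

set_option autoImplicit false

namespace Pool.Agent.Y843.CH

open Finset Filter Pool.Agent.W23.DC Pool.Agent.Y660.RP
open Pool.Agent.Y843.HS (Pr Pr_mem Pr_prime)
open Pool.Agent.Y843.QD (vZ dvd_vZ)
open Pool.Agent.Y843.HG (Adm Z0 SP)

open Classical in
/-- the good primes -/
noncomputable def GD (N X Y : ℕ) (h : ℤ) (Om : ℕ → Finset ℕ) : Finset ℕ :=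
  (SP Om X Y).filter (fun p => h ≠ p ∧ (h - p).natAbs.primeFactorsList.length ≤ 2 ∧
    ∀ q : ℕ, q.Prime → q ∣ (h - p).natAbs → (N : ℝ) ^ (1 / 4 : ℝ) ≤ q)

open Classical in
/-- the bad primes -/
noncomputable def BD (N X : ℕ) (h : ℤ) : Finset ℕ :=
  (PNX N X).filter (fun p => ∃ q : ℕ, q ∈ Ioc (lo N (1 / 4)) N ∧ q ^ 2 ∣ (h - p).natAbs)

theorem natAbs_dvd_iff (h : ℤ) (p q : ℕ) (hq : 0 < q) : q ∣ (h - p).natAbs ↔ hr h q = p % q := by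
  rw [← Int.natCast_dvd, ← hr_nat p hq, hr_eq_iff _ _ hq, Int.modEq_iff_dvd, ← Int.dvd_neg]
  have : -(h - (p : ℤ)) = (p : ℤ) - h := by ring
  rw [this]

theorem BD_card {N X : ℕ} {h : ℤ} (hN : 2 ≤ lo N (1 / 4)) (hN2 : lo N (1 / 4) ≤ N) :
    ((BD N X h).card : ℝ) ≤ X / lo N (1 / 4) + N := by
  classical
  set k := lo N (1 / 4) with hk
  have hsub : BD N X h ⊆ (Ioc k N).biUnion (fun q => (Ioc 0 (0 + X)).filter (fun p => p ≡ hr h (q ^ 2) [MOD (q ^ 2)])) := by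
    intro p hp
    unfold BD PNX at hp
    rw [mem_filter, mem_filter, mem_Ioc] at hp
    obtain ⟨⟨⟨h1, h2⟩, h3⟩, q, hq, hd⟩ := hp
    rw [mem_biUnion]
    refine ⟨q, hq, ?_⟩
    rw [mem_filter, mem_Ioc]
    refine ⟨⟨h3.pos, by omega⟩, ?_⟩
    have hq0 : 0 < q ^ 2 := by
      rw [mem_Ioc] at hq
      have : 0 < q := by omega
      positivity
    rw [natAbs_dvd_iff h p _ hq0] at hd
    unfold Nat.ModEq
    rw [hd, Nat.mod_mod]
  have h1 : ((BD N X h).card : ℝ) ≤ ∑ q ∈ Ioc k N,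
      ((((Ioc 0 (0 + X)).filter (fun p => p ≡ hr h (q ^ 2) [MOD (q ^ 2)])).card : ℕ) : ℝ) := by
    have := (card_le_card hsub).trans card_biUnion_le
    exact_mod_cast this
  refine h1.trans ?_
  have h2 : ∀ q ∈ Ioc k N, ((((Ioc 0 (0 + X)).filter (fun p => p ≡ hr h (q ^ 2) [MOD (q ^ 2)])).card : ℕ) : ℝ) ≤
      X * ((q : ℝ) ^ 2)⁻¹ + 1 := by
    intro q hq
    rw [mem_Ioc] at hq
    have hq0 : 0 < q ^ 2 := by
      have : 0 < q := by omega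
      positivity
    have h3 := Pool.Agent.Y843.QD.card_class 0 X (q ^ 2) (hr h (q ^ 2)) hq0
    have h4 := (abs_le.1 h3).2
    push_cast at h4
    rw [div_eq_mul_inv] at h4
    linarith
  refine (sum_le_sum h2).trans ?_
  rw [sum_add_distrib, ← mul_sum, sum_const, Nat.card_Ioc, nsmul_eq_mul, mul_one]
  have h3 := sum_Ioc_inv_sq_le_sub (α := ℝ) (k := k) (n := N) (by omega) hN2
  have h4 : (0 : ℝ) ≤ (N : ℝ)⁻¹ := by positivity
  have h5 : (X : ℝ) * ∑ i ∈ Ioc k N, ((i : ℝ) ^ 2)⁻¹ ≤ X * (k : ℝ)⁻¹ := by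
    apply mul_le_mul_of_nonneg_left _ (Nat.cast_nonneg _)
    linarith
  have h6 : ((N - k : ℕ) : ℝ) ≤ N := by exact_mod_cast Nat.sub_le _ _
  rw [div_eq_mul_inv]
  linarith

/-- the setting -/
structure St (r N X z Y m₀ a : ℕ) (ε : ℝ) (h : ℤ) (Om : ℕ → Finset ℕ) : Prop where
  D : Dat r Y h Om
  N8 : 8 ≤ N
  N4 : (2 : ℝ) < (N : ℝ) ^ (1 / 4 : ℝ)
  NX : N ^ 2 ≤ X
  XN : X < (N + 1) ^ 2
  hX : h.natAbs ≤ X
  zY : z ≤ Y
  Yw : (Y : ℝ) < (N : ℝ) ^ ε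
  e0 : 0 < ε
  e1 : ε ≤ 1 / 8
  m : ∀ q ∈ Pr 0 z, q ∣ m₀
  a : ∀ q ∈ Pr 0 z, a % q ∉ Z0 Om q

open Classical in
/-- the primes of the sieve -/
noncomputable def O1 (N X z Y m₀ a : ℕ) (ε : ℝ) (h : ℤ) (Om : ℕ → Finset ℕ) : Finset ℕ :=
  ((PNX N X).filter (fun p => p ≡ a [MOD m₀])).filter
    (fun p => ∀ q ∈ P1 N z ε, ¬ q ∣ vZ (ZA h Y Om) z N p)

theorem St.lt_N {r N X z Y m₀ a : ℕ} {ε : ℝ} {h : ℤ} {Om : ℕ → Finset ℕ}
    (S : St r N X z Y m₀ a ε h Om) {u : ℝ} (hu : u ≤ 1) {q : ℕ} (hq : (q : ℝ) < (N : ℝ) ^ u) : q ≤ N := by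
  have hN1 : (1 : ℝ) ≤ N := by exact_mod_cast (by have := S.N8; omega : 1 ≤ N)
  have h1 : (N : ℝ) ^ u ≤ N := by
    calc (N : ℝ) ^ u ≤ (N : ℝ) ^ (1 : ℝ) := Real.rpow_le_rpow_of_exponent_le hN1 hu
      _ = N := Real.rpow_one _
  have h2 : (q : ℝ) < N := lt_of_lt_of_le hq h1
  have : q < N := by exact_mod_cast h2
  omega

theorem St.mod_ne {r N X z Y m₀ a : ℕ} {ε : ℝ} {h : ℤ} {Om : ℕ → Finset ℕ}
    (S : St r N X z Y m₀ a ε h Om) {p q : ℕ} (hp : p ∈ PNX N X) (hq : q.Prime) (hqN : q ≤ N) : p % q ≠ 0 := by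
  intro h0
  unfold PNX at hp
  rw [mem_filter, mem_Ioc] at hp
  have h7 := (Nat.prime_dvd_prime_iff_eq hq hp.2).1 (Nat.dvd_of_mod_eq_zero h0)
  omega

theorem St.F1 {r N X z Y m₀ a : ℕ} {ε : ℝ} {h : ℤ} {Om : ℕ → Finset ℕ}
    (S : St r N X z Y m₀ a ε h Om) {p : ℕ} (hp : p ∈ O1 N X z Y m₀ a ε h Om) :
    ∀ q ∈ Pr 0 Y, p % q ∉ Z0 Om q := by
  classical
  intro q hq
  unfold O1 at hp
  rw [mem_filter, mem_filter] at hp
  obtain ⟨⟨hp1, hp2⟩, hp3⟩ := hp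
  have hqp := Pr_prime hq
  rcases Nat.lt_or_ge z q with h1 | h1
  · have hqw : (q : ℝ) < (N : ℝ) ^ ε := by
      have : (q : ℝ) ≤ Y := by exact_mod_cast (Pr_mem.1 hq).1.2
      exact lt_of_le_of_lt this S.Yw
    have hqN := S.lt_N (by have := S.e1; linarith) hqw
    have h2 := hp3 q (mem_P1.2 ⟨⟨h1, hqN⟩, hqp, hqw⟩)
    rw [dvd_vZ hqp] at h2
    have h3 : p % q ∉ ZA h Y Om q := fun h3 => h2 ⟨Pr_mem.2 ⟨⟨h1, hqN⟩, hqp⟩, h3⟩
    unfold ZA at h3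
    rw [if_pos (Pr_mem.1 hq).1.2] at h3
    unfold Z0
    rw [mem_insert, not_or]
    exact ⟨S.mod_ne hp1 hqp hqN, h3⟩
  · have h2 := Pr_mem.2 ⟨⟨hqp.pos, h1⟩, hqp⟩
    have h3 : p % q = a % q := hp2.of_dvd (S.m q h2)
    rw [h3]
    exact S.a q h2

theorem St.F2 {r N X z Y m₀ a : ℕ} {ε : ℝ} {h : ℤ} {Om : ℕ → Finset ℕ}
    (S : St r N X z Y m₀ a ε h Om) {p : ℕ} (hp : p ∈ O1 N X z Y m₀ a ε h Om)
    (hI : ∀ q ∈ pr N ε (1 / 4), ¬ q ∣ vZ (ZA h Y Om) z N p) :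
    ∀ q : ℕ, q.Prime → q ∣ (h - p).natAbs → (N : ℝ) ^ (1 / 4 : ℝ) ≤ q := by
  classical
  intro q hqp hd
  by_contra hcon
  rw [not_le] at hcon
  have hN2 : 2 ≤ N := by have := S.N8; omega
  have hqN := S.lt_N (by norm_num) hcon
  have F1 := S.F1 hp
  have hp' := hp
  unfold O1 at hp
  rw [mem_filter, mem_filter] at hp
  obtain ⟨⟨hp1, hp2⟩, hp3⟩ := hp
  rw [natAbs_dvd_iff h p q hqp.pos] at hd
  rcases Nat.lt_or_ge Y q with h1 | h1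
  · have hzq : z < q := lt_of_le_of_lt S.zY h1
    have hnd : ¬ q ∣ vZ (ZA h Y Om) z N p := by
      rcases lt_or_ge (q : ℝ) ((N : ℝ) ^ ε) with h2 | h2
      · exact hp3 q (mem_P1.2 ⟨⟨hzq, hqN⟩, hqp, h2⟩)
      · exact hI q (mem_pr.2 ⟨⟨hqp.one_lt.le, hqN⟩, hqp, (le_tt_iff hN2 hqp _).2 h2,
          (tt_lt_iff hN2 hqp _).2 hcon⟩)
    apply hnd
    rw [dvd_vZ hqp]
    refine ⟨Pr_mem.2 ⟨⟨hzq, hqN⟩, hqp⟩, ?_⟩
    unfold ZA
    rw [if_neg (by omega), mem_erase, mem_singleton]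
    exact ⟨S.mod_ne hp1 hqp hqN, hd.symm⟩
  · have h2 := Pr_mem.2 ⟨⟨hqp.pos, h1⟩, hqp⟩
    apply F1 q h2
    rw [← hd]
    exact S.D.hm q h2

theorem St.F3 {r N X z Y m₀ a : ℕ} {ε : ℝ} {h : ℤ} {Om : ℕ → Finset ℕ}
    (S : St r N X z Y m₀ a ε h Om) {p : ℕ} (hp : p ∈ O1 N X z Y m₀ a ε h Om)
    {q : ℕ} (hq : q ∈ pr N (1 / 4) (667 / 1000)) :
    q ∣ vZ (ZA h Y Om) z N p ↔ q ∣ (h - p).natAbs := by
  classical
  have hN2 : 2 ≤ N := by have := S.N8; omega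
  have hN1 : (1 : ℝ) ≤ N := by exact_mod_cast (by omega : 1 ≤ N)
  unfold O1 at hp
  rw [mem_filter, mem_filter] at hp
  obtain ⟨⟨hp1, hp2⟩, hp3⟩ := hp
  have hqp := (mem_pr.1 hq).2.1
  have hqN := (mem_pr.1 hq).1.2
  have h1 := (le_tt_iff hN2 hqp _).1 (mem_pr.1 hq).2.2.1
  have h2 : (Y : ℝ) < q := by
    calc (Y : ℝ) < (N : ℝ) ^ ε := S.Yw
      _ ≤ (N : ℝ) ^ (1 / 4 : ℝ) :=
          Real.rpow_le_rpow_of_exponent_le hN1 (by have := S.e1; linarith)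
      _ ≤ q := h1
  have h3 : Y < q := by exact_mod_cast h2
  rw [natAbs_dvd_iff h p q hqp.pos, dvd_vZ hqp]
  unfold ZA
  rw [if_neg (by omega), mem_erase, mem_singleton]
  constructor
  · rintro ⟨-, -, h4⟩
    exact h4.symm
  · intro h4
    exact ⟨Pr_mem.2 ⟨⟨by have := S.zY; omega, hqN⟩, hqp⟩, S.mod_ne hp1 hqp hqN, h4.symm⟩

open Classical in
theorem St.point {r N X z Y m₀ a : ℕ} {ε : ℝ} {h : ℤ} {Om : ℕ → Finset ℕ}
    (S : St r N X z Y m₀ a ε h Om)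
    (hW : ∀ n : ℕ, 1 ≤ n → n ≤ 3 * N ^ 2 →
      (∀ p : ℕ, p.Prime → p ∣ n → (N : ℝ) ^ (1 / 4 : ℝ) ≤ p) →
      (∀ p : ℕ, p.Prime → p ^ 2 ∣ n → (N : ℝ) ^ (667 / 1000 : ℝ) ≤ p) →
      n.primeFactorsList.length ≤ 2 ∨ 2 ≤ ((pr N (1 / 4) (667 / 1000)).filter (fun q => q ∣ n)).card ∨
      (((pr N (1 / 4) (667 / 1000)).filter (fun q => q ∣ n)).card = 1 ∧ Ty N n))
    {p : ℕ} (hp : p ∈ O1 N X z Y m₀ a ε h Om) :
    II N ε (vZ (ZA h Y Om) z N p) *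
      (1 - 1 / 2 * ∑ q ∈ pr N (1 / 4) (667 / 1000), (if q ∣ vZ (ZA h Y Om) z N p then 1 else 0)) ≤
    (if p ∈ GD N X Y h Om then (1 : ℝ) else 0) + 1 / 2 * (if p ∈ TY N X z Y m₀ a h Om then (1 : ℝ) else 0) +
      (if p ∈ BD N X h then (1 : ℝ) else 0) := by
  have hN2 : 2 ≤ N := by have := S.N8; omega
  have hrhs : (0 : ℝ) ≤ (if p ∈ GD N X Y h Om then (1 : ℝ) else 0) +
      1 / 2 * (if p ∈ TY N X z Y m₀ a h Om then (1 : ℝ) else 0) +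
      (if p ∈ BD N X h then (1 : ℝ) else 0) := by
    split_ifs <;> norm_num
  by_cases hI : ∀ q ∈ pr N ε (1 / 4), ¬ q ∣ vZ (ZA h Y Om) z N p
  swap
  · unfold II
    rw [if_neg hI, zero_mul]
    exact hrhs
  have hI1 : II N ε (vZ (ZA h Y Om) z N p) = 1 := by
    unfold II
    rw [if_pos hI]
  have F1 := S.F1 hp
  have F2 := S.F2 hp hI
  have hp' := hp
  unfold O1 at hp'
  rw [mem_filter, mem_filter] at hp'
  obtain ⟨⟨hp1, hp2⟩, hp3⟩ := hp'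
  have hp1' := hp1
  unfold PNX at hp1'
  rw [mem_filter, mem_Ioc] at hp1'
  set n := (h - (p : ℤ)).natAbs with hn
  have hsum : ∑ q ∈ pr N (1 / 4) (667 / 1000), (if q ∣ vZ (ZA h Y Om) z N p then (1 : ℝ) else 0) =
      (((pr N (1 / 4) (667 / 1000)).filter (fun q => q ∣ n)).card : ℝ) := by
    rw [← Finset.sum_boole]
    apply Finset.sum_congr rfl
    intro q hq
    rw [if_congr (S.F3 hp hq) rfl rfl]
  rw [hI1, one_mul, hsum]
  have h2n : ¬ 2 ∣ n := by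
    intro hd
    have := F2 2 Nat.prime_two hd
    have h4 := S.N4
    push_cast at this
    linarith
  have hn0 : 1 ≤ n := by
    rcases Nat.eq_zero_or_pos n with h0 | h0
    · rw [h0] at h2n
      exact absurd (dvd_zero 2) h2n
    · exact h0
  have hn3 : n ≤ 3 * N ^ 2 := by
    have h1 := S.XN
    have h2 := S.hX
    have h3 := S.N8
    have h4 : n ≤ h.natAbs + p := by omega
    nlinarith [hp1'.1.2]
  have hne : h ≠ p := by
    intro h0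
    rw [hn, h0] at hn0
    simp at hn0
  have hcard0 : (0 : ℝ) ≤ (((pr N (1 / 4) (667 / 1000)).filter (fun q => q ∣ n)).card : ℝ) := Nat.cast_nonneg _
  by_cases hB : p ∈ BD N X h
  · rw [if_pos hB]
    have h5 : (0 : ℝ) ≤ (if p ∈ GD N X Y h Om then (1 : ℝ) else 0) +
      1 / 2 * (if p ∈ TY N X z Y m₀ a h Om then (1 : ℝ) else 0) := by split_ifs <;> norm_num
    linarith
  · have hsq : ∀ q : ℕ, q.Prime → q ^ 2 ∣ n → (N : ℝ) ^ (667 / 1000 : ℝ) ≤ q := by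
      intro q hq hd
      by_contra hcon
      rw [not_le] at hcon
      apply hB
      unfold BD
      rw [mem_filter]
      refine ⟨hp1, q, ?_, hd⟩
      rw [mem_Ioc, lo_lt_iff (by omega)]
      exact ⟨F2 q hq ((dvd_pow_self q two_ne_zero).trans hd), S.lt_N (by norm_num) hcon⟩
    rcases hW n hn0 hn3 F2 hsq with h6 | h6 | ⟨h6, h7⟩
    · have hG : p ∈ GD N X Y h Om := by
        unfold GD SP
        rw [mem_filter, mem_filter, mem_Ioc]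
        exact ⟨⟨⟨hp1'.2.pos, hp1'.1.2⟩, hp1'.2, F1⟩, hne, h6, F2⟩
      rw [if_pos hG]
      have h5 : (0 : ℝ) ≤ 1 / 2 * (if p ∈ TY N X z Y m₀ a h Om then (1 : ℝ) else 0) +
        (if p ∈ BD N X h then (1 : ℝ) else 0) := by split_ifs <;> norm_num
      linarith
    · have h8 : (2 : ℝ) ≤ (((pr N (1 / 4) (667 / 1000)).filter (fun q => q ∣ n)).card : ℝ) := by
        exact_mod_cast h6
      linarith
    · have hT : p ∈ TY N X z Y m₀ a h Om := by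
        unfold TY
        rw [mem_filter]
        refine ⟨hp1, hp2, fun q hq => F1 q ?_, h7⟩
        rw [Pr_mem] at hq ⊢
        exact ⟨⟨hq.2.pos, hq.1.2⟩, hq.2⟩
      rw [if_pos hT, h6]
      have h5 : (0 : ℝ) ≤ (if p ∈ GD N X Y h Om then (1 : ℝ) else 0) +
        (if p ∈ BD N X h then (1 : ℝ) else 0) := by split_ifs <;> norm_num
      push_cast
      linarith

open Classical in
theorem St.sum {r N X z Y m₀ a : ℕ} {ε : ℝ} {h : ℤ} {Om : ℕ → Finset ℕ}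
    (S : St r N X z Y m₀ a ε h Om)
    (hW : ∀ n : ℕ, 1 ≤ n → n ≤ 3 * N ^ 2 →
      (∀ p : ℕ, p.Prime → p ∣ n → (N : ℝ) ^ (1 / 4 : ℝ) ≤ p) →
      (∀ p : ℕ, p.Prime → p ^ 2 ∣ n → (N : ℝ) ^ (667 / 1000 : ℝ) ≤ p) →
      n.primeFactorsList.length ≤ 2 ∨ 2 ≤ ((pr N (1 / 4) (667 / 1000)).filter (fun q => q ∣ n)).card ∨
      (((pr N (1 / 4) (667 / 1000)).filter (fun q => q ∣ n)).card = 1 ∧ Ty N n)) :
    ∑ p ∈ O1 N X z Y m₀ a ε h Om, II N ε (vZ (ZA h Y Om) z N p) *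
      (1 - 1 / 2 * ∑ q ∈ pr N (1 / 4) (667 / 1000), (if q ∣ vZ (ZA h Y Om) z N p then 1 else 0)) ≤
    ((GD N X Y h Om).card : ℝ) + 1 / 2 * ((TY N X z Y m₀ a h Om).card : ℝ) + ((BD N X h).card : ℝ) := by
  refine (Finset.sum_le_sum fun p hp => S.point hW hp).trans ?_
  rw [Finset.sum_add_distrib, Finset.sum_add_distrib, ← Finset.mul_sum]
  have key : ∀ T : Finset ℕ, ∑ p ∈ O1 N X z Y m₀ a ε h Om, (if p ∈ T then (1 : ℝ) else 0) ≤ T.card := by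
    intro T
    rw [Finset.sum_boole]
    apply Nat.cast_le.2
    apply card_le_card
    intro p hp
    exact (mem_filter.1 hp).2
  have h1 := key (GD N X Y h Om)
  have h2 := key (TY N X z Y m₀ a h Om)
  have h3 := key (BD N X h)
  linarith

end Pool.Agent.Y843.CH
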