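import Pool.Agent.Y843.CH.Pos

/-!
# The products of the local densities
-/

set_option autoImplicit false

namespace Pool.Agent.Y843.CH

open Finset Filter Pool.Agent.W23.DC Pool.Agent.Y660.RP
open Pool.Agent.Y843.HS (Pr VV Pr_mem Pr_prime VV_split)
open Pool.Agent.Y843.HG (Adm Z0 SP V1 V1_bounds log_floor)

theorem V1_pos (y : ℕ) : 0 < V1 y := by
  unfold V1
  apply prod_pos
  intro p hp
  have h1 : (1 : ℝ) < p := by exact_mod_cast (Pr_prime hp).one_lt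
  rw [sub_pos, div_lt_one (by linarith)]
  exact h1

theorem Pr_split_prod (f : ℕ → ℝ) {a b c : ℕ} (hab : a ≤ b) (hbc : b ≤ c) :
    (∏ p ∈ Pr a b, f p) * ∏ p ∈ Pr b c, f p = ∏ p ∈ Pr a c, f p := by
  rw [← prod_union]
  · apply prod_congr _ fun _ _ => rfl
    ext p
    rw [mem_union, Pr_mem, Pr_mem, Pr_mem]
    constructor
    · rintro (⟨⟨h1, h2⟩, h3⟩ | ⟨⟨h1, h2⟩, h3⟩)
      · exact ⟨⟨h1, by omega⟩, h3⟩
      · exact ⟨⟨by omega, h2⟩, h3⟩
    · rintro ⟨⟨h1, h2⟩, h3⟩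
      rcases Nat.lt_or_ge b p with h | h
      · exact Or.inr ⟨⟨h, h2⟩, h3⟩
      · exact Or.inl ⟨⟨h1, h⟩, h3⟩
  · rw [disjoint_left]
    intro p hp hp'
    rw [Pr_mem] at hp hp'
    omega

theorem arith_p {k p : ℝ} (hp : 1 < p) : 1 - (k + 1) / p = (1 - k / (p - 1)) * (1 - 1 / p) := by
  have h3 : p - 1 ≠ 0 := by linarith
  have h4 : p ≠ 0 := by linarith
  field_simp
  ring

theorem arith_q2 {p : ℝ} (hp : 3 ≤ p) : (1 - 1 / p) ^ 2 ≤ 1 - 1 / (p - 1) := by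
  have h3 : p - 1 ≠ 0 := by linarith
  have h4 : p ≠ 0 := by linarith
  have h5 : (1 - 1 / p) ^ 2 = (p - 1) ^ 2 / p ^ 2 := by
    field_simp
  have h6 : 1 - 1 / (p - 1) = (p - 2) / (p - 1) := by
    field_simp
    ring
  rw [h5, h6, div_le_div_iff₀ (by positivity) (by linarith)]
  nlinarith [sq_nonneg (p - 3)]

theorem St.prod_low {r N X z Y m₀ a : ℕ} {ε : ℝ} {h : ℤ} {Om : ℕ → Finset ℕ}
    (S : St r N X z Y m₀ a ε h Om) (hz : r + 2 ≤ z) (hY2 : 2 ≤ Y) (hzY : 3 ≤ Y) :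
    VV (Z0 Om) 0 Y * (V1 z / V1 Y) * (V1 N / V1 Y) ^ 2 ≤ ∏ p ∈ P1 N z ε, (1 - gC (ZA h Y Om) p) := by
  classical
  have hYN : Y ≤ N := S.lt_N (by have := S.e1; linarith) S.Yw
  have hN1 : (1 : ℝ) ≤ N := by exact_mod_cast (by have := S.N8; omega : 1 ≤ N)
  -- the factors
  have hfac : ∀ p, p.Prime → z < p → 0 ≤ 1 - gC (ZA h Y Om) p ∧ 1 - gC (ZA h Y Om) p ≤ 1 := by
    intro p hp hzp
    have h1 := (S.D.cA hp).1
    have h2 : (0 : ℝ) < (p : ℝ) - 1 := by
      have : (1 : ℝ) < p := by exact_mod_cast hp.one_lt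
      linarith
    unfold gC
    constructor
    · rw [sub_nonneg, div_le_one h2]
      have h3 : (ZA h Y Om p).card + 1 ≤ p := by omega
      have h4 : (((ZA h Y Om p).card : ℝ)) + 1 ≤ p := by exact_mod_cast h3
      linarith
    · have : 0 ≤ ((ZA h Y Om p).card : ℝ) / ((p : ℝ) - 1) := by positivity
      linarith
  have hsplit : P1 N z ε = Pr z Y ∪ (P1 N z ε).filter (fun p => Y < p) := by
    ext p
    rw [mem_union, mem_filter, mem_P1, Pr_mem]
    constructor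
    · rintro ⟨⟨h1, h2⟩, h3, h4⟩
      rcases Nat.lt_or_ge Y p with h | h
      · exact Or.inr ⟨⟨⟨h1, h2⟩, h3, h4⟩, h⟩
      · exact Or.inl ⟨⟨h1, h⟩, h3⟩
    · rintro (⟨⟨h1, h2⟩, h3⟩ | ⟨h1, -⟩)
      · refine ⟨⟨h1, by omega⟩, h3, ?_⟩
        have : (p : ℝ) ≤ Y := by exact_mod_cast h2
        exact lt_of_le_of_lt this S.Yw
      · exact h1
  have hdisj : Disjoint (Pr z Y) ((P1 N z ε).filter (fun p => Y < p)) := by
    rw [disjoint_left]
    intro p hp hp'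
    rw [Pr_mem] at hp
    rw [mem_filter] at hp'
    omega
  rw [hsplit, prod_union hdisj]
  -- the first product
  have hVz := V1_pos z
  have hVY := V1_pos Y
  have hVN := V1_pos N
  have hr1 : (∏ p ∈ Pr z Y, (1 - 1 / (p : ℝ))) = V1 Y / V1 z := by
    rw [eq_div_iff hVz.ne', mul_comm]
    unfold V1
    exact Pr_split_prod _ (Nat.zero_le _) S.zY
  have h0 : ∀ p ∈ Pr 0 Y, 0 ≤ 1 - ((Z0 Om p).card : ℝ) / p ∧ 1 - ((Z0 Om p).card : ℝ) / p ≤ 1 := by
    intro p hp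
    have h2 : (0 : ℝ) < p := by exact_mod_cast (Pr_prime hp).pos
    have h3 := S.D.adm.card hp
    have h4 := (S.D.adm p hp).2.1
    constructor
    · rw [sub_nonneg, div_le_one h2, h3]
      exact_mod_cast h4.le
    · have : 0 ≤ ((Z0 Om p).card : ℝ) / p := div_nonneg (Nat.cast_nonneg _) h2.le
      linarith
  have hA : VV (Z0 Om) 0 Y ≤ (∏ p ∈ Pr z Y, (1 - gC (ZA h Y Om) p)) * (V1 Y / V1 z) := by
    rw [← hr1, ← prod_mul_distrib]
    unfold VV
    rw [← Pr_split_prod (fun p => 1 - ((Z0 Om p).card : ℝ) / p) (Nat.zero_le z) S.zY]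
    have hsub : ∀ p ∈ Pr z Y, p ∈ Pr 0 Y := by
      intro p hp
      rw [Pr_mem] at hp ⊢
      exact ⟨⟨hp.2.pos, hp.1.2⟩, hp.2⟩
    have e1 : ∏ p ∈ Pr z Y, (1 - ((Z0 Om p).card : ℝ) / p) =
        ∏ p ∈ Pr z Y, ((1 - gC (ZA h Y Om) p) * (1 - 1 / (p : ℝ))) := by
      apply prod_congr rfl
      intro p hp
      have h2 : (1 : ℝ) < p := by exact_mod_cast (Pr_prime hp).one_lt
      rw [S.D.adm.card (hsub p hp)]
      unfold gC ZA
      rw [if_pos (Pr_mem.1 hp).1.2]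
      push_cast
      exact arith_p h2
    rw [← e1]
    have e2 : ∏ p ∈ Pr 0 z, (1 - ((Z0 Om p).card : ℝ) / p) ≤ 1 := by
      apply Finset.prod_le_one
      · intro p hp
        refine (h0 p ?_).1
        rw [Pr_mem] at hp ⊢
        exact ⟨⟨hp.1.1, by have := S.zY; omega⟩, hp.2⟩
      · intro p hp
        refine (h0 p ?_).2
        rw [Pr_mem] at hp ⊢
        exact ⟨⟨hp.1.1, by have := S.zY; omega⟩, hp.2⟩
    have e3 : 0 ≤ ∏ p ∈ Pr z Y, (1 - ((Z0 Om p).card : ℝ) / p) :=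
      Finset.prod_nonneg fun p hp => (h0 p (hsub p hp)).1
    nlinarith
  -- the second product
  have hB : (V1 N / V1 Y) ^ 2 ≤ ∏ p ∈ (P1 N z ε).filter (fun p => Y < p), (1 - gC (ZA h Y Om) p) := by
    have hr2 : (∏ p ∈ Pr Y N, (1 - 1 / (p : ℝ))) = V1 N / V1 Y := by
      rw [eq_div_iff hVY.ne', mul_comm]
      unfold V1
      exact Pr_split_prod _ (Nat.zero_le _) hYN
    rw [← hr2, ← Finset.prod_pow]
    have hsub : (P1 N z ε).filter (fun p => Y < p) ⊆ Pr Y N := by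
      intro p hp
      rw [mem_filter, mem_P1] at hp
      exact Pr_mem.2 ⟨⟨hp.2, hp.1.1.2⟩, hp.1.2.1⟩
    have hle : ∏ p ∈ Pr Y N, (1 - 1 / (p : ℝ)) ^ 2 ≤
        ∏ p ∈ (P1 N z ε).filter (fun p => Y < p), (1 - 1 / (p : ℝ)) ^ 2 := by
      rw [← Finset.prod_sdiff hsub]
      have e1 : ∏ p ∈ Pr Y N \ (P1 N z ε).filter (fun p => Y < p), (1 - 1 / (p : ℝ)) ^ 2 ≤ 1 := by
        apply Finset.prod_le_one
        · intro p _
          positivity
        · intro p hp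
          have h1 : (1 : ℝ) < p := by exact_mod_cast (Pr_prime (mem_sdiff.1 hp).1).one_lt
          have h2 : 1 / (p : ℝ) ≤ 1 := by
            rw [div_le_one (by linarith)]
            linarith
          have h3 : 0 ≤ 1 / (p : ℝ) := by positivity
          nlinarith
      have e2 : 0 ≤ ∏ p ∈ (P1 N z ε).filter (fun p => Y < p), (1 - 1 / (p : ℝ)) ^ 2 :=
        Finset.prod_nonneg fun p _ => by positivity
      nlinarith
    refine hle.trans ?_
    apply Finset.prod_le_prod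
    · intro p _
      positivity
    · intro p hp
      have hp' := Pr_mem.1 (hsub hp)
      have hpp := hp'.2
      have h1 : (3 : ℝ) ≤ p := by exact_mod_cast (show 3 ≤ p by omega)
      have h2 : ((ZA h Y Om p).card : ℝ) ≤ 1 := by
        unfold ZA
        rw [if_neg (by omega)]
        have := card_le_card (erase_subset 0 ({hr h p} : Finset ℕ))
        rw [card_singleton] at this
        exact_mod_cast this
      have h3 : gC (ZA h Y Om) p ≤ 1 / ((p : ℝ) - 1) := by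
        unfold gC
        apply div_le_div_of_nonneg_right h2
        linarith
      have h4 := arith_q2 h1
      linarith
  have hC : 0 ≤ VV (Z0 Om) 0 Y := by
    unfold VV
    exact Finset.prod_nonneg fun p hp => (h0 p hp).1
  have hD : 0 ≤ ∏ p ∈ Pr z Y, (1 - gC (ZA h Y Om) p) :=
    Finset.prod_nonneg fun p hp => (hfac p (Pr_prime hp) (Pr_mem.1 hp).1.1).1
  have hE : VV (Z0 Om) 0 Y * (V1 z / V1 Y) ≤ ∏ p ∈ Pr z Y, (1 - gC (ZA h Y Om) p) := by
    have h5 : VV (Z0 Om) 0 Y * (V1 z / V1 Y) ≤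
        (∏ p ∈ Pr z Y, (1 - gC (ZA h Y Om) p)) * (V1 Y / V1 z) * (V1 z / V1 Y) :=
      mul_le_mul_of_nonneg_right hA (by positivity)
    have h6 : (∏ p ∈ Pr z Y, (1 - gC (ZA h Y Om) p)) * (V1 Y / V1 z) * (V1 z / V1 Y) =
        ∏ p ∈ Pr z Y, (1 - gC (ZA h Y Om) p) := by
      field_simp
    linarith
  exact mul_le_mul hE hB (by positivity) hD

end Pool.Agent.Y843.CH
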