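import Pool.Agent.Y843.CH.Fin3
import Pool.Agent.Y261.CH.Core
import Pool.Agent.Y261.CH.Blv
import Pool.Agent.Y932.CH.Bvw
import Pool.Agent.Y48.CH.Mass
import Pool.Agent.Y484.CH.Num
import Pool.Agent.Y73.CH.Wt

/-!
# Chen's theorem, uniformly in the shift and inside sifted sets: all inputs put together
-/

set_option autoImplicit false

namespace Pool.Agent.Y843.CH

open Pool.Agent.Y843.HS (VV)
open Pool.Agent.Y843.HG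

/-- **Chen's theorem**, with the expected order of magnitude, uniformly in the shift `h`, and inside
the primes that avoid further residue classes modulo the primes up to `Y = X ^ (1/t)` -/
theorem chen (r : ℕ) : ∃ t : ℕ, 1 ≤ t ∧ ∃ c : ℝ, 0 < c ∧ ∃ X₀ : ℕ, ∀ X : ℕ, X₀ ≤ X → ∀ h : ℤ, h ≠ 0 →
      h.natAbs ≤ X → ∀ Om : ℕ → Finset ℕ, Dat r ⌊(X : ℝ) ^ (1 / (t : ℝ))⌋₊ h Om →
      c * X * VV (Z0 Om) 0 ⌊(X : ℝ) ^ (1 / (t : ℝ))⌋₊ ≤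
        ((GD (Nat.sqrt X) X ⌊(X : ℝ) ^ (1 / (t : ℝ))⌋₊ h Om).card : ℝ) :=
  chen_of Pool.Agent.Y261.CH.core Pool.Agent.Y932.CH.bvw Pool.Agent.Y261.CH.blv
    (Pool.Agent.Y48.CH.mass Pool.Agent.Y484.CH.num) Pool.Agent.Y484.CH.num Pool.Agent.Y73.CH.wt r

/-- the same, with `t ≥ 32` -/
theorem chen' (r : ℕ) : ∃ t : ℕ, 32 ≤ t ∧ ∃ c : ℝ, 0 < c ∧ ∃ X₀ : ℕ, ∀ X : ℕ, X₀ ≤ X → ∀ h : ℤ, h ≠ 0 →
      h.natAbs ≤ X → ∀ Om : ℕ → Finset ℕ, Dat r ⌊(X : ℝ) ^ (1 / (t : ℝ))⌋₊ h Om →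
      c * X * VV (Z0 Om) 0 ⌊(X : ℝ) ^ (1 / (t : ℝ))⌋₊ ≤
        ((GD (Nat.sqrt X) X ⌊(X : ℝ) ^ (1 / (t : ℝ))⌋₊ h Om).card : ℝ) :=
  chen_of' Pool.Agent.Y261.CH.core Pool.Agent.Y932.CH.bvw Pool.Agent.Y261.CH.blv
    (Pool.Agent.Y48.CH.mass Pool.Agent.Y484.CH.num) Pool.Agent.Y484.CH.num Pool.Agent.Y73.CH.wt r

end Pool.Agent.Y843.CH
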