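import Pool.Agent.Y843.CH.Blk

/-!
# The primes `p` for which `h - p` is a product of three primes
-/

set_option autoImplicit false

namespace Pool.Agent.Y843.CH

open Finset Filter Pool.Agent.W23.DC Pool.Agent.Y660.RP
open Pool.Agent.Y843.HS (Pr Pr_mem Pr_prime)
open Pool.Agent.Y843.QD (vZ dvd_vZ)
open Pool.Agent.Y843.HG (Adm Z0)

/-- the interval of the products -/
noncomputable def aS (h s : ℤ) : ℝ := if s = 1 then max (-(h : ℝ)) 0 else 0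
noncomputable def bS (X : ℕ) (h s : ℤ) : ℝ := if s = 1 then (X : ℝ) - h else max (h : ℝ) 0

open Classical in
/-- the block `(s, j)` -/
noncomputable def TB (N X J : ℕ) (δ : ℝ) (h s : ℤ) (j : ℕ) : Finset (ℕ × ℕ) :=
  MN (lo N (uj J j)) (lo N (uj J (j + 1)))
    (NN N (aS h s / (N : ℝ) ^ uj J (j + 1)) ((bS X h s + δ * X) / (N : ℝ) ^ uj J j))

open Classical in
/-- the sifted block -/
noncomputable def FT (N X J z Y m₀ a : ℕ) (ε δ : ℝ) (h : ℤ) (Om : ℕ → Finset ℕ) (s : ℤ) (j : ℕ) :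
    Finset (ℕ × ℕ) :=
  ((TB N X J δ h s j).filter (fun x => x.1 * x.2 ≡ hr (s * ((a : ℤ) - h)) m₀ [MOD m₀])).filter
    (fun x => (∀ p ∈ P1 N z ε, ¬ p ∣ vZ (ZT h s Y Om) z N (x.1 * x.2)) ∧
      ∀ p ∈ pr N ε (7 / 20), ¬ p ∣ vZ (ZT h s Y Om) z N (x.1 * x.2))

/-- `n` is a product of three primes in the critical ranges -/
def Ty (N n : ℕ) : Prop := ∃ p₁ p₂ p₃ : ℕ, p₁ ∈ pr N (1 / 4) (667 / 1000) ∧ p₂.Prime ∧ p₃.Prime ∧
  (N : ℝ) ^ (667 / 1000 : ℝ) ≤ p₂ ∧ p₂ ≤ p₃ ∧ n = p₁ * (p₂ * p₃)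

open Classical in
/-- the primes of the critical type -/
noncomputable def TY (N X z Y m₀ a : ℕ) (h : ℤ) (Om : ℕ → Finset ℕ) : Finset ℕ :=
  (PNX N X).filter (fun p => p ≡ a [MOD m₀] ∧ (∀ q ∈ Pr z Y, p % q ∉ Z0 Om q) ∧ Ty N (h - p).natAbs)

theorem typ_mem {N X J z Y m₀ a : ℕ} {ε δ : ℝ} {h : ℤ} {Om : ℕ → Finset ℕ} (hN : 2 ≤ N) (hJ : 1 ≤ J)
    (hδ : 0 ≤ δ) (hm₀ : 0 < m₀) {p : ℕ} (hp : p ∈ TY N X z Y m₀ a h Om) :
    ∃ s : ℤ, (s = 1 ∨ s = -1) ∧ ∃ j < J, ∃ x ∈ FT N X J z Y m₀ a ε δ h Om s j,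
      (p : ℤ) = h + s * ((x.1 * x.2 : ℕ) : ℤ) := by
  classical
  unfold TY at hp
  rw [mem_filter] at hp
  obtain ⟨hpN, hpa, hpq, p₁, p₂, p₃, h1, h2, h3, h4, h5, h6⟩ := hp
  unfold PNX at hpN
  rw [mem_filter, mem_Ioc] at hpN
  obtain ⟨⟨hpN, hpX⟩, hpp⟩ := hpN
  have hNr : (1 : ℝ) < N := by exact_mod_cast (by omega : 1 < N)
  have hN0 : (0 : ℝ) < N := by linarith
  have h1p := (mem_pr.1 h1).2.1
  set n := p₁ * (p₂ * p₃) with hn
  have hn0 : 0 < n := Nat.mul_pos h1p.pos (Nat.mul_pos h2.pos h3.pos)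
  obtain ⟨s, hs, hps, hsa, hsb⟩ : ∃ s : ℤ, (s = 1 ∨ s = -1) ∧ (p : ℤ) = h + s * (n : ℤ) ∧
      aS h s < n ∧ (n : ℝ) ≤ bS X h s := by
    rcases lt_or_ge (p : ℤ) h with hlt | hge
    · refine ⟨-1, Or.inr rfl, by omega, ?_, ?_⟩
      · unfold aS
        rw [if_neg (by norm_num)]
        exact_mod_cast hn0
      · unfold bS
        rw [if_neg (by norm_num)]
        refine le_max_of_le_left ?_
        have : (n : ℤ) ≤ h := by omega
        exact_mod_cast this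
    · refine ⟨1, Or.inl rfl, by omega, ?_, ?_⟩
      · unfold aS
        rw [if_pos rfl]
        apply max_lt
        · have : -h < (n : ℤ) := by
            have := hpp.pos
            omega
          exact_mod_cast this
        · exact_mod_cast hn0
      · unfold bS
        rw [if_pos rfl]
        have : (n : ℤ) ≤ X - h := by omega
        exact_mod_cast this
  obtain ⟨j, hj, hj1, hj2⟩ := exists_block hJ (mem_pr.1 h1).2.2.1 (mem_pr.1 h1).2.2.2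
  refine ⟨s, hs, j, hj, (p₁, p₂ * p₃), ?_, hps⟩
  have hu1 : uj J (j + 1) ≤ 1 := by
    have := uj_mono (J := J) (show j + 1 ≤ J by omega)
    rw [uj_last hJ] at this
    linarith
  have g1 := (le_tt_iff hN h1p _).1 hj1
  have g2 := (tt_lt_iff hN h1p _).1 hj2
  have hpj : 0 < (N : ℝ) ^ uj J j := Real.rpow_pos_of_pos hN0 _
  have hpj1 : 0 < (N : ℝ) ^ uj J (j + 1) := Real.rpow_pos_of_pos hN0 _
  have h23 : (0 : ℝ) < (p₂ : ℝ) * p₃ := by
    have e1 : (0 : ℝ) < p₂ := by exact_mod_cast h2.pos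
    have e2 : (0 : ℝ) < p₃ := by exact_mod_cast h3.pos
    positivity
  have hnr : (n : ℝ) = (p₁ : ℝ) * ((p₂ : ℝ) * p₃) := by rw [hn]; push_cast; ring
  have hlow : aS h s / (N : ℝ) ^ uj J (j + 1) < (p₂ : ℝ) * p₃ := by
    rw [div_lt_iff₀ hpj1]
    calc aS h s < n := hsa
      _ = (p₁ : ℝ) * ((p₂ : ℝ) * p₃) := hnr
      _ ≤ (N : ℝ) ^ uj J (j + 1) * ((p₂ : ℝ) * p₃) := by gcongr
      _ = _ := by ring
  have hupp : (p₂ : ℝ) * p₃ ≤ (bS X h s + δ * X) / (N : ℝ) ^ uj J j := by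
    rw [le_div_iff₀ hpj]
    calc (p₂ : ℝ) * p₃ * (N : ℝ) ^ uj J j ≤ (p₂ : ℝ) * p₃ * p₁ := by gcongr
      _ = n := by rw [hnr]; ring
      _ ≤ bS X h s + δ * X := by
          have : 0 ≤ δ * X := by positivity
          linarith
  have hmul : (p₁ * (p₂ * p₃) : ℕ) = n := rfl
  have hfl : ∀ k : ℕ, k ≤ p₂ * p₃ → k ≤ ⌊(bS X h s + δ * X) / (N : ℝ) ^ uj J j⌋₊ := by
    intro k hk
    apply Nat.le_floor
    refine le_trans ?_ hupp
    exact_mod_cast hk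
  unfold FT
  rw [mem_filter, mem_filter]
  refine ⟨⟨?_, ?_⟩, ?_, ?_⟩
  · unfold TB MN
    rw [mem_product, block_eq hN hu1]
    refine ⟨mem_pr.2 ⟨(mem_pr.1 h1).1, h1p, hj1, hj2⟩, ?_⟩
    unfold NN PP
    rw [mem_image]
    refine ⟨(p₂, p₃), ?_, rfl⟩
    rw [mem_filter, mem_product, mem_Icc, mem_Icc]
    exact ⟨⟨⟨h2.pos, hfl _ (Nat.le_mul_of_pos_right _ h3.pos)⟩,
      h3.pos, hfl _ (Nat.le_mul_of_pos_left _ h2.pos)⟩, h2, h3, h4, h5, hlow, hupp⟩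
  · simp only
    rw [hmul]
    have e1 : s * s = 1 := by
      rcases hs with rfl | rfl <;> norm_num
    have e2 : ((n : ℕ) : ℤ) ≡ s * ((a : ℤ) - h) [ZMOD m₀] := by
      have e3 : (p : ℤ) ≡ a [ZMOD m₀] := Int.natCast_modEq_iff.2 hpa
      have e4 : s * ((p : ℤ) - h) ≡ s * ((a : ℤ) - h) [ZMOD m₀] := (e3.sub_right h).mul_left s
      have e5 : s * ((p : ℤ) - h) = n := by
        rw [hps]
        calc s * (h + s * (n : ℤ) - h) = (s * s) * n := by ring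
          _ = n := by rw [e1, one_mul]
      rw [e5] at e4
      exact e4
    have e6 : hr (n : ℤ) m₀ = hr (s * ((a : ℤ) - h)) m₀ := (hr_eq_iff _ _ hm₀).2 e2
    rw [hr_nat n hm₀] at e6
    unfold Nat.ModEq
    rw [← e6, Nat.mod_mod]
  all_goals
    intro q hq hdv
    simp only at hdv
    rw [hmul] at hdv
    have hqp : q.Prime := by
      first
      | exact (mem_P1.1 hq).2.1
      | exact (mem_pr.1 hq).2.1
    obtain ⟨hqz, hqm⟩ := (dvd_vZ hqp).1 hdv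
    unfold ZT at hqm
    rw [mem_filter, hr_add h s n hqp.pos, ← hps, hr_nat p hqp.pos] at hqm
    have hqm2 := hqm.2
    unfold ZTp at hqm2
    split_ifs at hqm2 with hY
    · exact hpq q (Pr_mem.2 ⟨⟨(Pr_mem.1 hqz).1.1, hY⟩, hqp⟩) hqm2
    · rw [mem_singleton] at hqm2
      have h7 := (Nat.prime_dvd_prime_iff_eq hqp hpp).1 (Nat.dvd_of_mod_eq_zero hqm2)
      have h8 := (Pr_mem.1 hqz).1.2
      omega

theorem typ_le {N X J z Y m₀ a : ℕ} {ε δ : ℝ} {h : ℤ} {Om : ℕ → Finset ℕ} (hN : 2 ≤ N) (hJ : 1 ≤ J)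
    (hδ : 0 ≤ δ) (hm₀ : 0 < m₀) :
    (TY N X z Y m₀ a h Om).card ≤ ∑ j ∈ range J, (FT N X J z Y m₀ a ε δ h Om 1 j).card +
      ∑ j ∈ range J, (FT N X J z Y m₀ a ε δ h Om (-1) j).card := by
  classical
  set f : ℤ → ℕ × ℕ → ℕ := fun s x => (h + s * ((x.1 * x.2 : ℕ) : ℤ)).toNat with hf
  have hsub : TY N X z Y m₀ a h Om ⊆
      ((range J).biUnion (fun j => (FT N X J z Y m₀ a ε δ h Om 1 j).image (f 1))) ∪
      ((range J).biUnion (fun j => (FT N X J z Y m₀ a ε δ h Om (-1) j).image (f (-1)))) := by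
    intro p hp
    obtain ⟨s, hs, j, hj, x, hx, hpx⟩ := typ_mem (ε := ε) (δ := δ) hN hJ hδ hm₀ hp
    have hfp : f s x = p := by
      rw [hf]
      simp only
      rw [← hpx]
      exact Int.toNat_natCast p
    rw [mem_union]
    rcases hs with rfl | rfl
    · left
      rw [mem_biUnion]
      exact ⟨j, mem_range.2 hj, mem_image.2 ⟨x, hx, hfp⟩⟩
    · right
      rw [mem_biUnion]
      exact ⟨j, mem_range.2 hj, mem_image.2 ⟨x, hx, hfp⟩⟩
  refine (card_le_card hsub).trans ((card_union_le _ _).trans ?_)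
  exact add_le_add (card_biUnion_le.trans (sum_le_sum fun j _ => card_image_le))
    (card_biUnion_le.trans (sum_le_sum fun j _ => card_image_le))

end Pool.Agent.Y843.CH
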