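import Pool.Agent.Y843.CH.Use

/-!
# Chen's theorem for vectors of shifts, with progressions: the general form
-/

set_option autoImplicit false

namespace Pool.Agent.Y843.CH

open Finset Filter
open Pool.Agent.Y843.HS (VV Pr Pr_mem Pr_prime)
open Pool.Agent.Y843.HG

/-- no local obstruction -/
def Psb {s : ℕ} (h : ℤ) (a : Fin s → ℤ) : Prop :=
  ∀ q : ℕ, q.Prime → ∃ u : ℕ, ¬ q ∣ u ∧ ¬ (q : ℤ) ∣ h - u ∧ ∀ j, ¬ (q : ℤ) ∣ a j - u

open Classical in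
/-- the residues `0`, `h` and `a j` modulo `q` -/
noncomputable def vcls {s : ℕ} (h : ℤ) (a : Fin s → ℤ) (q : ℕ) : Finset ℕ :=
  (range q).filter (fun c => c = 0 ∨ (q : ℤ) ∣ h - c ∨ ∃ j, (q : ℤ) ∣ a j - c)

open Classical in
/-- the primes -/
noncomputable def GV {s : ℕ} (t X : ℕ) (h : ℤ) (a : Fin s → ℤ) : Finset ℕ :=
  (Ioc 0 X).filter (fun p => p.Prime ∧ (X : ℝ) ^ (1 / 9 : ℝ) < p ∧ h ≠ 2 * p ∧
    1 ≤ (h - p).natAbs.primeFactorsList.length ∧ (h - p).natAbs.primeFactorsList.length ≤ 2 ∧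
    (∀ q : ℕ, q.Prime → q ∣ (h - p).natAbs → (X : ℝ) ^ (1 / 9 : ℝ) < q) ∧
    ∀ q : ℕ, q.Prime → (q : ℝ) ≤ (X : ℝ) ^ (1 / (t : ℝ)) → ∀ j, ¬ (q : ℤ) ∣ a j - p)

theorem shift_dvd (b : ℤ) (p q : ℕ) : (q : ℤ) ∣ b - ((p % q : ℕ) : ℤ) ↔ (q : ℤ) ∣ b - p := by
  have h2 : ((p % q : ℕ) : ℤ) ≡ p [ZMOD q] := (Int.natCast_modEq_iff).2 (Nat.mod_modEq p q)
  exact Int.ModEq.dvd_iff ((Int.ModEq.refl b).sub h2)

theorem vcls_mod {s : ℕ} (h : ℤ) (a : Fin s → ℤ) {p q : ℕ} (hq : 0 < q) :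
    p % q ∈ vcls h a q ↔ q ∣ p ∨ (q : ℤ) ∣ h - p ∨ ∃ j, (q : ℤ) ∣ a j - p := by
  classical
  unfold vcls
  rw [mem_filter, mem_range]
  simp only [shift_dvd]
  rw [← Nat.dvd_iff_mod_eq_zero]
  exact ⟨fun h => h.2, fun h => ⟨Nat.mod_lt _ hq, h⟩⟩

theorem vcls_zero {s : ℕ} (h : ℤ) (a : Fin s → ℤ) {q : ℕ} (hq : 0 < q) : 0 ∈ vcls h a q := by
  classical
  unfold vcls
  rw [mem_filter, mem_range]
  exact ⟨hq, Or.inl rfl⟩

theorem vcls_ok {s : ℕ} (h : ℤ) (a : Fin s → ℤ) (hP : Psb h a) (q : ℕ) (hq : q.Prime) :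
    (vcls h a q).card ≤ s + 2 ∧ (vcls h a q).card < q ∧ ∀ c ∈ vcls h a q, c < q := by
  classical
  refine ⟨?_, ?_, ?_⟩
  · have h1 : vcls h a q ⊆ insert 0 (insert (hr h q) (univ.image (fun j => hr (a j) q))) := by
      intro c hc
      unfold vcls at hc
      rw [mem_filter, mem_range] at hc
      have key : ∀ b : ℤ, (q : ℤ) ∣ b - c → c = hr b q := by
        intro b hb
        have h2 : hr (c : ℤ) q = hr b q := (hr_eq_iff _ _ hq.pos).2 ((Int.modEq_iff_dvd).2 hb)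
        rw [hr_nat c hq.pos, Nat.mod_eq_of_lt hc.1] at h2
        exact h2
      rcases hc.2 with h2 | h2 | ⟨j, hj⟩
      · rw [h2]
        exact mem_insert_self _ _
      · rw [mem_insert, mem_insert]
        exact Or.inr (Or.inl (key h h2))
      · rw [mem_insert, mem_insert, mem_image]
        exact Or.inr (Or.inr ⟨j, mem_univ _, (key _ hj).symm⟩)
    refine (card_le_card h1).trans ((card_insert_le _ _).trans ?_)
    have h2 := card_insert_le (hr h q) (univ.image (fun j => hr (a j) q))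
    have h3 := card_image_le (s := (univ : Finset (Fin s))) (f := fun j => hr (a j) q)
    rw [card_univ, Fintype.card_fin] at h3
    omega
  · obtain ⟨u, hu1, hu2, hu3⟩ := hP q hq
    have h1 : u % q ∉ vcls h a q := by
      rw [vcls_mod h a hq.pos]
      rintro (h | h | ⟨j, hj⟩)
      · exact hu1 h
      · exact hu2 h
      · exact hu3 j hj
    have h2 : vcls h a q ⊂ range q := by
      rw [Finset.ssubset_iff_subset_ne]
      refine ⟨filter_subset _ _, ?_⟩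
      intro h
      apply h1
      rw [h, mem_range]
      exact Nat.mod_lt _ hq.pos
    have := card_lt_card h2
    rwa [card_range] at this
  · intro c hc
    unfold vcls at hc
    rw [mem_filter, mem_range] at hc
    exact hc.1

theorem vcls_Z0 {s : ℕ} (h : ℤ) (a : Fin s → ℤ) {q : ℕ} (hq : 0 < q) :
    Z0 (fun q => (vcls h a q).erase 0) q = vcls h a q := insert_erase (vcls_zero h a hq)

theorem vcls_dat {s : ℕ} (h : ℤ) (a : Fin s → ℤ) (hP : Psb h a) (Y : ℕ) :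
    Dat (s + 1) Y h (fun q => (vcls h a q).erase 0) := by
  classical
  refine ⟨?_, ?_⟩
  · intro q hq
    have hqp := Pr_prime hq
    obtain ⟨h1, h2, h3⟩ := vcls_ok h a hP q hqp
    have h4 := card_erase_add_one (vcls_zero h a hqp.pos)
    refine ⟨?_, ?_, ?_, ?_⟩
    · simp only
      omega
    · simp only
      omega
    · exact notMem_erase _ _
    · intro c hc
      exact h3 c (mem_of_mem_erase hc)
  · intro q hq
    have hqp := Pr_prime hq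
    rw [vcls_Z0 h a hqp.pos]
    unfold vcls
    rw [mem_filter, mem_range]
    refine ⟨hr_lt h hqp.pos, Or.inr (Or.inl ?_)⟩
    rw [hr_cast h hqp.pos]
    exact Int.dvd_self_sub_emod

theorem GV_avoid {s : ℕ} {t X : ℕ} (ht : 9 ≤ t) (hX : 1 ≤ X) {h : ℤ} {a : Fin s → ℤ} {S : Finset ℕ}
    (hS : S ⊆ GV t X h a) :
    ∀ p ∈ S, ∀ q : ℕ, q.Prime → (q : ℝ) ≤ (X : ℝ) ^ (1 / (t : ℝ)) → p % q ∉ vcls h a q := by
  classical
  intro p hp q hq hqX hmem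
  obtain ⟨_, h2, h3, _, _, _, h6, h7⟩ := mem_filter.1 (hS hp)
  have hqX9 : (q : ℝ) ≤ (X : ℝ) ^ (1 / 9 : ℝ) := by
    refine hqX.trans (Real.rpow_le_rpow_of_exponent_le (by exact_mod_cast hX) ?_)
    apply one_div_le_one_div_of_le (by norm_num)
    exact_mod_cast ht
  rcases (vcls_mod h a hq.pos).1 hmem with h8 | h8 | ⟨j, hj⟩
  · have h9 := (Nat.prime_dvd_prime_iff_eq hq h2).1 h8
    rw [h9] at hqX9
    linarith
  · have h9 := h6 q hq (Int.natCast_dvd.1 h8)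
    linarith
  · exact h7 q hq hqX j hj

/-- **Chen's theorem for vectors of shifts, with narrow progressions in dense subsets and colourings** -/
theorem gv (s : ℕ) : ∃ t : ℕ, 9 ≤ t ∧
    (∃ c : ℝ, 0 < c ∧ ∃ X₀ : ℕ, ∀ X : ℕ, X₀ ≤ X → ∀ h : ℤ, h ≠ 0 → h.natAbs ≤ X →
      ∀ a : Fin s → ℤ, Psb h a →
      c * X * VV (vcls h a) 0 ⌊(X : ℝ) ^ (1 / (t : ℝ))⌋₊ ≤ ((GV t X h a).card : ℝ)) ∧
    (∀ (k u : ℕ) (ε : ℝ), 1 ≤ k → 9 ≤ u → 0 < ε → ∃ B X₀ : ℕ, ∀ X : ℕ, X₀ ≤ X →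
      ∀ (h : ℤ) (a : Fin s → ℤ), Psb h a → ∀ S : Finset ℕ, S ⊆ GV u X h a →
        ((Iso k (Real.log X ^ B) S).card : ℝ) ≤ ε * X * VV (vcls h a) 0 ⌊(X : ℝ) ^ (1 / (u : ℝ))⌋₊) ∧
    (∀ k r : ℕ, ∃ B X₀ : ℕ, ∀ X : ℕ, X₀ ≤ X → ∀ h : ℤ, h ≠ 0 → h.natAbs ≤ X →
      ∀ a : Fin s → ℤ, Psb h a → ∀ χ : ℕ → Fin r, ∃ b d : ℕ, 1 ≤ d ∧ (d : ℝ) ≤ Real.log X ^ B ∧
        ∀ i < k, b + i * d ∈ GV t X h a ∧ χ (b + i * d) = χ b) := by
  classical
  obtain ⟨t, ht, c, hc, X₀, h0⟩ := ge_count (s + 1)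
  have ht1 : 1 ≤ t := by omega
  have ht0 : (0 : ℝ) < t := by exact_mod_cast ht1
  have hcount : ∀ X : ℕ, X₀ ≤ X → ∀ h : ℤ, h ≠ 0 → h.natAbs ≤ X → ∀ a : Fin s → ℤ, Psb h a →
      c * X * VV (vcls h a) 0 ⌊(X : ℝ) ^ (1 / (t : ℝ))⌋₊ ≤ ((GV t X h a).card : ℝ) := by
    intro X hX h hh hhX a hP
    have h1 := h0 X hX h hh hhX _ (vcls_dat h a hP _)
    have h2 : VV (Z0 (fun q => (vcls h a q).erase 0)) 0 ⌊(X : ℝ) ^ (1 / (t : ℝ))⌋₊ =
        VV (vcls h a) 0 ⌊(X : ℝ) ^ (1 / (t : ℝ))⌋₊ := by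
      unfold VV
      apply prod_congr rfl
      intro q hq
      rw [vcls_Z0 h a (Pr_prime hq).pos]
    rw [h2] at h1
    refine h1.trans ?_
    have h3 : GE X ⌊(X : ℝ) ^ (1 / (t : ℝ))⌋₊ h (fun q => (vcls h a q).erase 0) ⊆ GV t X h a := by
      intro p hp
      unfold GE at hp
      rw [mem_filter] at hp
      obtain ⟨h3, h4⟩ := hp
      unfold SP at h3
      rw [mem_filter] at h3
      obtain ⟨h5, h6, h7⟩ := h3
      unfold GV
      rw [mem_filter]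
      refine ⟨h5, h6, h4.1, h4.2.1, h4.2.2.1, h4.2.2.2.1, h4.2.2.2.2, ?_⟩
      intro q hq hqX j hj
      have h8 := h7 q (Pr_mem.2 ⟨⟨hq.pos, Nat.le_floor hqX⟩, hq⟩)
      rw [vcls_Z0 h a hq.pos, vcls_mod h a hq.pos] at h8
      exact h8 (Or.inr (Or.inr ⟨j, hj⟩))
    exact_mod_cast card_le_card h3
  refine ⟨t, ht, ⟨c, hc, X₀, hcount⟩, ?_, ?_⟩
  · intro k u ε hk hu hε
    have hu0 : (0 : ℝ) < u := by exact_mod_cast (show 0 < u by omega)
    obtain ⟨B, X₁, h1⟩ := fin_iso hk (s + 2) (κ := 1 / (u : ℝ)) (ε := ε) (by positivity) hε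
    refine ⟨B, max X₁ 1, ?_⟩
    intro X hX h a hP S hS
    exact (h1 X 0 ((le_max_left _ _).trans hX) (vcls h a) (fun q hq _ => vcls_ok h a hP q hq) S
      (by rw [zero_add]; exact hS.trans (filter_subset _ _))
      (GV_avoid hu ((le_max_right _ _).trans hX) hS)).le
  · intro k r
    obtain ⟨B, X₁, h1⟩ := Pool.Agent.Y843.QD.colour_gen (s + 2) ht1 hc k r
    refine ⟨B, max (max X₀ X₁) 1, ?_⟩
    intro X hX h hh hhX a hP χ
    have hX0 : X₀ ≤ X := ((le_max_left _ _).trans (le_max_left _ _)).trans hX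
    have hX1 : X₁ ≤ X := ((le_max_right _ _).trans (le_max_left _ _)).trans hX
    exact h1 X hX1 0 (vcls h a) (fun q hq _ => vcls_ok h a hP q hq) (GV t X h a)
      (by rw [zero_add]; exact filter_subset _ _)
      (GV_avoid ht ((le_max_right _ _).trans hX) (Subset.refl _)) (hcount X hX0 h hh hhX a hP) χ

end Pool.Agent.Y843.CH
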